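import Pool.Agent.Lib.IK.Par

/-!
# Group actions with a Kähler potential: curves along which the multipliers are constant (author helper69)
-/

set_option autoImplicit false

noncomputable section

open Filter Topology Laplacian

namespace Pool.Agent.IK

variable {n : ℕ} {Γ : Type*} [Group Γ] [MulAction Γ (Fin n → ℂ)]

theorem deriv_smul {g : ℂ → (Fin n → ℂ)} {t : ℂ} (hol : ∀ γ : Γ, Differentiable ℂ fun x : Fin n → ℂ => γ • x)
    (hg : AnalyticAt ℂ g t) (γ : Γ) :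
    AnalyticAt ℂ (fun s => γ • g s) t ∧ (deriv g t ≠ 0 → deriv (fun s => γ • g s) t ≠ 0) := by
  have h1 : ∀ᶠ s in 𝓝 t, DifferentiableAt ℂ g s := Complex.analyticAt_iff_eventually_differentiableAt.1 hg
  have h2 : AnalyticAt ℂ (fun s => γ • g s) t := by
    rw [Complex.analyticAt_iff_eventually_differentiableAt]
    filter_upwards [h1] with s hs
    exact (hol γ (g s)).comp s hs
  refine ⟨h2, fun h3 h4 => h3 ?_⟩
  have h5 : (fun s => γ⁻¹ • (γ • g s)) = g := by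
    funext s
    exact inv_smul_smul γ (g s)
  have h6 : HasDerivAt (fun s => γ • g s) 0 t := by
    have := h2.differentiableAt.hasDerivAt
    rwa [h4] at this
  have h7 : HasDerivAt (fun s => γ⁻¹ • (γ • g s)) (fderiv ℂ (fun x : Fin n → ℂ => γ⁻¹ • x) (γ • g t) 0) t :=
    (hol γ⁻¹ (γ • g t)).hasFDerivAt.comp_hasDerivAt t h6
  rw [h5, map_zero] at h7
  exact h7.deriv

/-- no local minimum of `exp(-κ φ) + b` along a curve on which the multipliers are constant -/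
theorem noMin (hol : ∀ γ : Γ, Differentiable ℂ fun x : Fin n → ℂ => γ • x) {K : Set (Fin n → ℂ)}
    (hcov : ∀ x : Fin n → ℂ, ∃ γ : Γ, γ • x ∈ K) {φ : (Fin n → ℂ) → ℝ} (hφ : ContDiff ℝ 2 φ) {κ : ℝ} (hκ : 0 < κ)
    (hK : ∀ x ∈ K, ∀ v : Fin n → ℂ, v ≠ 0 →
      κ * ((fderiv ℝ φ x v) ^ 2 + (fderiv ℝ φ x (Complex.I • v)) ^ 2) < levi φ x v)
    {g : ℂ → (Fin n → ℂ)} {t : ℂ} (hg : AnalyticAt ℂ g t)
    (hconst : ∀ γ : Γ, ∀ᶠ s in 𝓝 t, φ (γ • g s) - φ (g s) = φ (γ • g t) - φ (g t))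
    {b : ℂ → ℝ} (hb : ContDiffAt ℝ 2 b t) (hb0 : Δ b t ≤ 0) (hst : Δ b t < 0 ∨ deriv g t ≠ 0) :
    ¬ IsLocalMin (fun s => Real.exp (-(κ * φ (g s))) + b s) t := by
  intro hmin
  obtain ⟨γ, hγ⟩ := hcov (g t)
  obtain ⟨h1, h2⟩ := deriv_smul hol hg γ
  set c := φ (γ • g t) - φ (g t) with hc
  have h3 : (fun s => Real.exp (-(κ * φ (g s))) + b s) =ᶠ[𝓝 t]
      fun s => Real.exp (κ * c) * Real.exp (-(κ * φ (γ • g s))) + b s := by
    filter_upwards [hconst γ] with s hs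
    rw [← Real.exp_add]
    congr 2
    have e : φ (g s) = φ (γ • g s) - c := by
      rw [hc]
      linarith
    rw [e]
    ring
  have hmin2 : IsLocalMin (fun s => Real.exp (κ * c) * Real.exp (-(κ * φ (γ • g s))) + b s) t :=
    (h3.isLocalMin_iff).1 hmin
  exact core hφ hκ hK h1 hγ (Real.exp_pos _) hb hb0 (hst.imp_right h2) hmin2

/-- **Part (A).** -/
theorem partA (hol : ∀ γ : Γ, Differentiable ℂ fun x : Fin n → ℂ => γ • x) {K : Set (Fin n → ℂ)} (hKc : IsCompact K)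
    (hcov : ∀ x : Fin n → ℂ, ∃ γ : Γ, γ • x ∈ K) {φ : (Fin n → ℂ) → ℝ} (hφ : ContDiff ℝ 2 φ)
    (hpsh : ∀ x v : Fin n → ℂ, v ≠ 0 → 0 < levi φ x v)
    {g : ℂ → (Fin n → ℂ)} (hg : Differentiable ℂ g) (hne : ∃ t s, g t ≠ g s) :
    ∃ γ : Γ, ∃ t s, φ (γ • g t) - φ (g t) ≠ φ (γ • g s) - φ (g s) := by
  by_contra hcon
  push Not at hcon
  obtain ⟨κ, hκ, hK⟩ := kappa hφ hKc fun x _ v hv => hpsh x v hv
  have hgan : ∀ t, AnalyticAt ℂ g t := fun t => hg.analyticAt t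
  -- a point where the derivative does not vanish
  obtain ⟨x0, hx0⟩ : ∃ x0, deriv g x0 ≠ 0 := by
    by_contra h
    push Not at h
    obtain ⟨t, s, hts⟩ := hne
    exact hts (is_const_of_deriv_eq_zero hg h t s)
  have hcd : Continuous (deriv g) := by
    have h : ∀ t, ContinuousAt (deriv g) t := fun t => (hgan t).deriv.continuousAt
    exact continuous_iff_continuousAt.2 h
  obtain ⟨ρ, hρ, hρ2⟩ : ∃ ρ : ℝ, 0 < ρ ∧ ∀ x, ‖x - x0‖ ≤ ρ → deriv g x ≠ 0 := by
    have h := Metric.eventually_nhds_iff.1 (hcd.continuousAt.eventually_ne hx0)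
    obtain ⟨r, hr, hr2⟩ := h
    refine ⟨r / 2, by positivity, fun x hx => hr2 ?_⟩
    rw [dist_eq_norm]
    linarith
  refine par (X := ℂ) (t := fun z => z) continuous_id (v := fun s => Real.exp (-(κ * φ (g s)))) ?_
    (fun _ => Real.exp_pos _) 1 (fun _ => by simp) (fun S hS _ => hS) ?_ x0 hρ (fun _ _ => by simp) ?_
  · have := hφ.continuous
    have h2 := hg.continuous
    fun_prop
  · intro x b hb hb0
    exact noMin hol hcov hφ hκ hK (hgan x) (fun γ => Eventually.of_forall fun s => hcon γ s x) hb hb0.le (Or.inl hb0)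
  · intro x hx hmin
    have h0 : Δ (fun _ : ℂ => (0 : ℝ)) x = 0 := by
      rw [InnerProductSpace.laplacian_const]
      rfl
    refine noMin hol hcov hφ hκ hK (hgan x) (fun γ => Eventually.of_forall fun s => hcon γ s x)
      (b := fun _ => 0) contDiffAt_const h0.le (Or.inr (hρ2 x hx)) ?_
    simpa using hmin

end Pool.Agent.IK
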