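import Pool.Agent.Lib.IK.Spec

/-!
# `S_AlgB`: generic finiteness of a dominant polynomial map
-/

set_option autoImplicit false

noncomputable section

namespace Pool.Agent.IK

open Filter Topology

/-- polynomial growth with a nonnegative constant -/
private def PH {n : ℕ} (f : (Fin n → ℂ) → ℝ) : Prop :=
  ∃ (C : ℝ) (N : ℕ), 0 ≤ C ∧ ∀ y, f y ≤ C * (1 + ‖y‖) ^ N

private theorem PH_add {n : ℕ} {f g : (Fin n → ℂ) → ℝ} (hf : PH f) (hg : PH g) : PH fun y => f y + g y := by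
  obtain ⟨C, N, hC, h1⟩ := hf
  obtain ⟨D, M, hD, h2⟩ := hg
  refine ⟨C + D, N + M, add_nonneg hC hD, fun y => ?_⟩
  have hy : (1 : ℝ) ≤ 1 + ‖y‖ := le_add_of_nonneg_right (norm_nonneg y)
  have e1 : (1 + ‖y‖) ^ N ≤ (1 + ‖y‖) ^ (N + M) := pow_le_pow_right₀ hy (Nat.le_add_right _ _)
  have e2 : (1 + ‖y‖) ^ M ≤ (1 + ‖y‖) ^ (N + M) := pow_le_pow_right₀ hy (Nat.le_add_left _ _)
  calc f y + g y ≤ C * (1 + ‖y‖) ^ N + D * (1 + ‖y‖) ^ M := add_le_add (h1 y) (h2 y)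
    _ ≤ C * (1 + ‖y‖) ^ (N + M) + D * (1 + ‖y‖) ^ (N + M) :=
      add_le_add (mul_le_mul_of_nonneg_left e1 hC) (mul_le_mul_of_nonneg_left e2 hD)
    _ = (C + D) * (1 + ‖y‖) ^ (N + M) := by ring

private theorem PH_mul {n : ℕ} {f g : (Fin n → ℂ) → ℝ} (hf0 : ∀ y, 0 ≤ f y) (hg0 : ∀ y, 0 ≤ g y)
    (hf : PH f) (hg : PH g) : PH fun y => f y * g y := by
  obtain ⟨C, N, hC, h1⟩ := hf
  obtain ⟨D, M, hD, h2⟩ := hg
  refine ⟨C * D, N + M, mul_nonneg hC hD, fun y => ?_⟩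
  calc f y * g y ≤ (C * (1 + ‖y‖) ^ N) * (D * (1 + ‖y‖) ^ M) :=
      mul_le_mul (h1 y) (h2 y) (hg0 y) ((hf0 y).trans (h1 y))
    _ = C * D * (1 + ‖y‖) ^ (N + M) := by ring

private theorem PH_const {n : ℕ} (c : ℝ) (hc : 0 ≤ c) : PH fun _ : Fin n → ℂ => c :=
  ⟨c, 0, hc, fun y => by rw [pow_zero, mul_one]⟩

private theorem PH_sum {n : ℕ} (s : Finset ℕ) (f : ℕ → (Fin n → ℂ) → ℝ) (h : ∀ k, PH (f k)) :
    PH fun y => ∑ k ∈ s, f k y := by
  induction s using Finset.induction_on with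
  | empty =>
    simp only [Finset.sum_empty]
    exact PH_const 0 le_rfl
  | insert a s ha ih =>
    simp only [Finset.sum_insert ha]
    exact PH_add (h a) ih

private theorem PH_eval {n : ℕ} (p : MvPolynomial (Fin n) ℂ) : PH fun y => ‖MvPolynomial.eval y p‖ := by
  induction p using MvPolynomial.induction_on with
  | C a =>
    simp only [MvPolynomial.eval_C]
    exact PH_const _ (norm_nonneg a)
  | add p q hp hq =>
    obtain ⟨C, N, hC, h⟩ := PH_add hp hq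
    refine ⟨C, N, hC, fun y => (le_trans ?_ (h y))⟩
    show ‖MvPolynomial.eval y (p + q)‖ ≤ ‖MvPolynomial.eval y p‖ + ‖MvPolynomial.eval y q‖
    rw [map_add]
    exact norm_add_le _ _
  | mul_X p i hp =>
    have hX : PH fun y : Fin n → ℂ => ‖y i‖ :=
      ⟨1, 1, zero_le_one, fun y => by
        rw [one_mul, pow_one]
        exact (norm_le_pi_norm y i).trans (le_add_of_nonneg_left zero_le_one)⟩
    have h := PH_mul (fun _ => norm_nonneg _) (fun _ => norm_nonneg _) hp hX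
    simpa only [map_mul, MvPolynomial.eval_X, norm_mul] using h

/-- a bound for the roots -/
private theorem root_bound (c : ℕ → ℂ) (d : ℕ) (w : ℂ) (h : ∑ k ∈ Finset.range (d + 1), c k * w ^ k = 0) :
    ‖c d‖ * ‖w‖ ≤ ∑ k ∈ Finset.range (d + 1), ‖c k‖ := by
  have h0 : ∀ k ∈ Finset.range d, 0 ≤ ‖c k‖ := fun k _ => norm_nonneg _
  rw [Finset.sum_range_succ] at h ⊢
  by_cases hw : ‖w‖ ≤ 1
  · calc ‖c d‖ * ‖w‖ ≤ ‖c d‖ * 1 := mul_le_mul_of_nonneg_left hw (norm_nonneg _)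
      _ ≤ ∑ k ∈ Finset.range d, ‖c k‖ + ‖c d‖ := by
        rw [mul_one]
        exact le_add_of_nonneg_left (Finset.sum_nonneg h0)
  · push Not at hw
    have hw0 : 0 < ‖w‖ := zero_lt_one.trans hw
    rcases Nat.eq_zero_or_pos d with hd | hd
    · subst hd
      rw [Finset.range_zero, Finset.sum_empty, zero_add, pow_zero, mul_one] at h
      rw [h]
      simp
    · obtain ⟨e, rfl⟩ : ∃ e, d = e + 1 := ⟨d - 1, by omega⟩
      have h1 : ‖c (e + 1)‖ * ‖w‖ ^ (e + 1) ≤ ∑ k ∈ Finset.range (e + 1), ‖c k‖ * ‖w‖ ^ e := by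
        have h2 : c (e + 1) * w ^ (e + 1) = -∑ k ∈ Finset.range (e + 1), c k * w ^ k :=
          eq_neg_of_add_eq_zero_right h
        rw [← norm_pow, ← norm_mul, h2, norm_neg]
        refine (norm_sum_le _ _).trans (Finset.sum_le_sum fun k hk => ?_)
        rw [norm_mul, norm_pow]
        exact mul_le_mul_of_nonneg_left
          (pow_le_pow_right₀ hw.le (Nat.lt_succ_iff.1 (Finset.mem_range.1 hk))) (norm_nonneg _)
      rw [← Finset.sum_mul, pow_succ, ← mul_assoc, mul_right_comm] at h1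
      have h3 := le_of_mul_le_mul_right h1 (pow_pos hw0 e)
      exact h3.trans (le_add_of_nonneg_right (norm_nonneg _))

/-- an algebraic equation over the image -/
private theorem ex_Q {n : ℕ} {Ψ : Fin n → MvPolynomial (Fin n) ℂ} (hx : AlgebraicIndependent ℂ Ψ)
    (h : MvPolynomial (Fin n) ℂ) : ∃ Q : Polynomial (MvPolynomial (Fin n) ℂ), Q ≠ 0 ∧
      Q.eval₂ (MvPolynomial.bind₁ Ψ : MvPolynomial (Fin n) ℂ →ₐ[ℂ] MvPolynomial (Fin n) ℂ).toRingHom h = 0 := by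
  have hb : IsTranscendenceBasis ℂ Ψ := hx.isTranscendenceBasis_of_trdeg_le_of_finite (by
    rw [MvPolynomial.trdeg_of_isDomain]
    simp)
  obtain ⟨p, hp0, hp⟩ := hb.isAlgebraic.isAlgebraic h
  refine ⟨p.map hx.repr.toRingHom, ?_, ?_⟩
  · rw [Ne, Polynomial.map_eq_zero_iff]
    · exact hp0
    · exact hx.aevalEquiv.symm.injective
  · rw [Polynomial.eval₂_map]
    have e : ((MvPolynomial.bind₁ Ψ : MvPolynomial (Fin n) ℂ →ₐ[ℂ] MvPolynomial (Fin n) ℂ).toRingHom).comp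
        hx.repr.toRingHom = algebraMap (Algebra.adjoin ℂ (Set.range Ψ)) (MvPolynomial (Fin n) ℂ) :=
      RingHom.ext fun z => hx.aeval_repr z
    rw [e]
    exact hp

/-- evaluation of the equation at a point -/
private theorem eval_Q {n : ℕ} (Ψ : Fin n → MvPolynomial (Fin n) ℂ) (h : MvPolynomial (Fin n) ℂ)
    (Q : Polynomial (MvPolynomial (Fin n) ℂ))
    (hQ : Q.eval₂ (MvPolynomial.bind₁ Ψ : MvPolynomial (Fin n) ℂ →ₐ[ℂ] MvPolynomial (Fin n) ℂ).toRingHom h = 0)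
    (x : Fin n → ℂ) : ∑ k ∈ Finset.range (Q.natDegree + 1),
      MvPolynomial.eval (ev Ψ x) (Q.coeff k) * MvPolynomial.eval x h ^ k = 0 := by
  rw [Polynomial.eval₂_eq_sum_range] at hQ
  have h1 := congrArg (MvPolynomial.eval x) hQ
  rw [map_sum, map_zero] at h1
  rw [← h1]
  refine Finset.sum_congr rfl fun k _ => ?_
  rw [map_mul, map_pow]
  congr 1
  show MvPolynomial.eval (ev Ψ x) (Q.coeff k) = MvPolynomial.eval x (MvPolynomial.bind₁ Ψ (Q.coeff k))
  rw [← MvPolynomial.coe_aeval_eq_eval, ← MvPolynomial.coe_aeval_eq_eval]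
  show MvPolynomial.aeval (ev Ψ x) (Q.coeff k) = MvPolynomial.aeval x (MvPolynomial.bind₁ Ψ (Q.coeff k))
  rw [MvPolynomial.aeval_bind₁]
  rfl

theorem tAlgB (h1 : S_Ind) : S_AlgB := by
  intro n Ψ hJ
  have hx : AlgebraicIndependent ℂ Ψ := h1 n Ψ hJ
  choose Q hQ0 hQ using fun i : Fin n => ex_Q hx (MvPolynomial.X i)
  obtain ⟨S, hS0, hS⟩ := ex_Q hx (jac Ψ).det
  obtain ⟨T, hT, hTd⟩ := Polynomial.exists_eq_pow_rootMultiplicity_mul_and_not_dvd S hS0 0
  rw [map_zero, sub_zero] at hT hTd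
  have hT0 : T.coeff 0 ≠ 0 := fun h => hTd (Polynomial.X_dvd_iff.2 h)
  have hTe : T.eval₂ (MvPolynomial.bind₁ Ψ : MvPolynomial (Fin n) ℂ →ₐ[ℂ] MvPolynomial (Fin n) ℂ).toRingHom
      (jac Ψ).det = 0 := by
    rw [hT, Polynomial.eval₂_mul, Polynomial.eval₂_pow, Polynomial.eval₂_X] at hS
    exact (mul_eq_zero.1 hS).resolve_left (pow_ne_zero _ hJ)
  refine ⟨T.coeff 0 * ∏ i, (Q i).leadingCoeff, ?_, ?_, ?_⟩
  · intro h
    have h2 : T.coeff 0 * ∏ i, (Q i).leadingCoeff = 0 := by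
      apply hx
      rw [map_zero]
      exact h
    exact mul_ne_zero hT0 (Finset.prod_ne_zero_iff.2 fun i _ => Polynomial.leadingCoeff_ne_zero.2 (hQ0 i)) h2
  · intro x hB hx0
    have h2 := eval_Q Ψ _ T hTe x
    rw [hx0] at h2
    rw [Finset.sum_eq_single 0] at h2
    · rw [pow_zero, mul_one] at h2
      rw [map_mul, h2, zero_mul] at hB
      exact hB rfl
    · intro k _ hk
      rw [zero_pow hk, mul_zero]
    · intro h3
      exact absurd (Finset.mem_range.2 (Nat.succ_pos _)) h3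
  · intro i
    set R : MvPolynomial (Fin n) ℂ := T.coeff 0 * ∏ j ∈ Finset.univ.erase i, (Q j).leadingCoeff with hR
    have hB : T.coeff 0 * ∏ i, (Q i).leadingCoeff = R * (Q i).leadingCoeff := by
      rw [hR, ← Finset.prod_erase_mul _ _ (Finset.mem_univ i), mul_assoc]
    obtain ⟨C, N, -, hC⟩ := PH_mul (fun _ => norm_nonneg _) (fun y => Finset.sum_nonneg fun k _ => norm_nonneg _)
      (PH_eval R) (PH_sum (Finset.range ((Q i).natDegree + 1)) (fun k y => ‖MvPolynomial.eval y ((Q i).coeff k)‖)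
        fun k => PH_eval _)
    refine ⟨C, N, fun x => le_trans ?_ (hC (ev Ψ x))⟩
    rw [hB, map_mul, norm_mul, mul_assoc]
    refine mul_le_mul_of_nonneg_left ?_ (norm_nonneg _)
    have h2 := eval_Q Ψ _ (Q i) (hQ i) x
    rw [MvPolynomial.eval_X] at h2
    exact root_bound (fun k => MvPolynomial.eval (ev Ψ x) ((Q i).coeff k)) (Q i).natDegree (x i) h2

end Pool.Agent.IK
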