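import Pool.Agent.Lib.IK.Spec

/-!
# Iitaka's conjecture: the Borel-Caratheodory inequality in several variables
-/

set_option autoImplicit false

noncomputable section

namespace Pool.Agent.IK

open Filter Topology

theorem tBC : S_BC := by
  intro n f hf hg
  obtain ⟨C, N, hC⟩ := hg
  refine ⟨2 * (|C| * 2 ^ N) + 2 + 3 * ‖f 0‖, N, fun x => ?_⟩
  have hx : (0 : ℝ) ≤ ‖x‖ := norm_nonneg x
  have h1 : (1 : ℝ) ≤ (1 + ‖x‖) ^ N := one_le_pow₀ (by linarith)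
  obtain ⟨M, hM⟩ : ∃ M : ℝ, M = |C| * 2 ^ N * (1 + ‖x‖) ^ N + 1 := ⟨_, rfl⟩
  have hM0 : 0 < M := by
    rw [hM]
    positivity
  have hd : DifferentiableOn ℂ (fun z : ℂ => f (z • x)) (Metric.ball 0 2) :=
    (hf.comp (differentiable_id.smul_const x)).differentiableOn
  have hm : Set.MapsTo (fun z : ℂ => f (z • x)) (Metric.ball 0 2) {z | z.re ≤ M} := by
    intro z hz
    have hz1 : ‖z‖ < 2 := mem_ball_zero_iff.1 hz
    have h2 : 1 + ‖z • x‖ ≤ 2 * (1 + ‖x‖) := by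
      rw [norm_smul]
      nlinarith [mul_le_mul_of_nonneg_right hz1.le hx]
    have h3 : (1 + ‖z • x‖) ^ N ≤ 2 ^ N * (1 + ‖x‖) ^ N := by
      rw [← mul_pow]
      exact pow_le_pow_left₀ (by positivity) h2 N
    have h4 : (f (z • x)).re ≤ C * (1 + ‖z • x‖) ^ N := hC _
    have h5 : C * (1 + ‖z • x‖) ^ N ≤ |C| * (2 ^ N * (1 + ‖x‖) ^ N) :=
      (mul_le_mul_of_nonneg_right (le_abs_self C) (by positivity)).trans
        (mul_le_mul_of_nonneg_left h3 (abs_nonneg C))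
    change (f (z • x)).re ≤ M
    rw [hM]
    linarith [mul_assoc |C| ((2 : ℝ) ^ N) ((1 + ‖x‖) ^ N)]
  have h6 := Complex.borelCaratheodory hM0 hd hm two_pos
    (mem_ball_zero_iff.2 (by norm_num : ‖(1 : ℂ)‖ < 2))
  simp only [one_smul, zero_smul, norm_one] at h6
  have h7 : ‖f x‖ ≤ 2 * M + 3 * ‖f 0‖ := by
    refine h6.trans (le_of_eq ?_)
    ring
  rw [hM] at h7
  have h8 : (0 : ℝ) ≤ ‖f 0‖ := norm_nonneg _
  nlinarith [mul_le_mul_of_nonneg_left h1 (by positivity : (0 : ℝ) ≤ 2 + 3 * ‖f 0‖)]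

end Pool.Agent.IK
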