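import Pool.Agent.Lib.IK.Two

/-!
# The analytic core: `exp(-κ φ)` is strictly superharmonic along holomorphic curves (author helper69)
-/

set_option autoImplicit false

noncomputable section

open Filter Topology Laplacian

namespace Pool.Agent.IK

/-- the Levi form (four times the complex Hessian) of `φ` at `x` in the direction `v` -/
def levi {n : ℕ} (φ : (Fin n → ℂ) → ℝ) (x v : Fin n → ℂ) : ℝ :=
  fderiv ℝ (fderiv ℝ φ) x v v + fderiv ℝ (fderiv ℝ φ) x (Complex.I • v) (Complex.I • v)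

variable {n : ℕ}

/-- the constant `κ` -/
theorem kappa {φ : (Fin n → ℂ) → ℝ} (hφ : ContDiff ℝ 2 φ) {K : Set (Fin n → ℂ)} (hK : IsCompact K)
    (hpsh : ∀ x ∈ K, ∀ v : Fin n → ℂ, v ≠ 0 → 0 < levi φ x v) :
    ∃ κ : ℝ, 0 < κ ∧ ∀ x ∈ K, ∀ v : Fin n → ℂ, v ≠ 0 →
      κ * ((fderiv ℝ φ x v) ^ 2 + (fderiv ℝ φ x (Complex.I • v)) ^ 2) < levi φ x v := by
  set S : Set (Fin n → ℂ) := Metric.sphere 0 1 with hS
  have hSc : IsCompact S := isCompact_sphere 0 1
  have hc1 : Continuous (fderiv ℝ φ) := hφ.continuous_fderiv (by norm_num)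
  have hc2 : Continuous (fderiv ℝ (fderiv ℝ φ)) :=
    (hφ.fderiv_right (m := 1) (by norm_num)).continuous_fderiv (by norm_num)
  have hG1 : Continuous fun y : (Fin n → ℂ) × (Fin n → ℂ) => levi φ y.1 y.2 := by
    unfold levi
    fun_prop
  have hG2 : Continuous fun y : (Fin n → ℂ) × (Fin n → ℂ) =>
      (fderiv ℝ φ y.1 y.2) ^ 2 + (fderiv ℝ φ y.1 (Complex.I • y.2)) ^ 2 := by
    fun_prop
  have hKS : IsCompact (K ×ˢ S) := hK.prod hSc
  obtain ⟨κ, hκ, hκ2⟩ : ∃ κ : ℝ, 0 < κ ∧ ∀ y ∈ K ×ˢ S,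
      κ * ((fderiv ℝ φ y.1 y.2) ^ 2 + (fderiv ℝ φ y.1 (Complex.I • y.2)) ^ 2) < levi φ y.1 y.2 := by
    by_cases hne : (K ×ˢ S).Nonempty
    · obtain ⟨y0, hy0, hmin⟩ := hKS.exists_isMinOn hne hG1.continuousOn
      obtain ⟨y1, hy1, hmax⟩ := hKS.exists_isMaxOn hne hG2.continuousOn
      have hv0 : y0.2 ≠ 0 := by
        intro h
        have h1 := hy0.2
        rw [h, hS, mem_sphere_zero_iff_norm, norm_zero] at h1
        exact zero_ne_one h1
      have hm : 0 < levi φ y0.1 y0.2 := hpsh _ hy0.1 _ hv0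
      set M := (fderiv ℝ φ y1.1 y1.2) ^ 2 + (fderiv ℝ φ y1.1 (Complex.I • y1.2)) ^ 2 with hM
      have hM0 : 0 ≤ M := by positivity
      refine ⟨levi φ y0.1 y0.2 / (M + 1), by positivity, fun y hy => ?_⟩
      have h1 : levi φ y0.1 y0.2 ≤ levi φ y.1 y.2 := hmin hy
      have h2 : (fderiv ℝ φ y.1 y.2) ^ 2 + (fderiv ℝ φ y.1 (Complex.I • y.2)) ^ 2 ≤ M := hmax hy
      refine lt_of_lt_of_le ?_ h1
      calc levi φ y0.1 y0.2 / (M + 1) * ((fderiv ℝ φ y.1 y.2) ^ 2 + (fderiv ℝ φ y.1 (Complex.I • y.2)) ^ 2)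
          ≤ levi φ y0.1 y0.2 / (M + 1) * M := by gcongr
        _ < levi φ y0.1 y0.2 := by
          rw [div_mul_eq_mul_div, div_lt_iff₀ (by positivity)]
          nlinarith
    · refine ⟨1, one_pos, fun y hy => absurd ⟨y, hy⟩ hne⟩
  refine ⟨κ, hκ, fun x hx v hv => ?_⟩
  have hn : 0 < ‖v‖ := norm_pos_iff.2 hv
  set u : Fin n → ℂ := (‖v‖⁻¹ : ℝ) • v with hu
  have hu1 : u ∈ S := by
    rw [hS, mem_sphere_zero_iff_norm, hu, norm_smul, norm_inv, norm_norm, inv_mul_cancel₀ hn.ne']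
  have hvu : v = (‖v‖ : ℝ) • u := by
    rw [hu, smul_smul, mul_inv_cancel₀ hn.ne', one_smul]
  have hIu : Complex.I • v = (‖v‖ : ℝ) • (Complex.I • u) := by
    conv_lhs => rw [hvu]
    exact smul_comm _ _ _
  have h1 := hκ2 (x, u) ⟨hx, hu1⟩
  simp only at h1
  have h2 : levi φ x v = ‖v‖ ^ 2 * levi φ x u := by
    unfold levi
    rw [hIu]
    conv_lhs => rw [hvu]
    simp only [map_smul, FunLike.coe_smul, Pi.smul_apply, smul_eq_mul]
    ring_nf
    rw [← hvu]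
  have h3 : (fderiv ℝ φ x v) ^ 2 + (fderiv ℝ φ x (Complex.I • v)) ^ 2 =
      ‖v‖ ^ 2 * ((fderiv ℝ φ x u) ^ 2 + (fderiv ℝ φ x (Complex.I • u)) ^ 2) := by
    rw [hIu]
    have e : fderiv ℝ φ x v = ‖v‖ * fderiv ℝ φ x u := by
      conv_lhs => rw [hvu]
      simp only [map_smul, smul_eq_mul]
    rw [e]
    simp only [map_smul, smul_eq_mul]
    ring
  rw [h2, h3]
  have h4 : 0 < ‖v‖ ^ 2 := by positivity
  nlinarith

/-- a holomorphic curve along a real line -/
theorem path_g {g : ℂ → (Fin n → ℂ)} {t : ℂ} (hg : AnalyticAt ℂ g t) (e : ℂ) :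
    (∀ᶠ s : ℝ in 𝓝 0, HasDerivAt (fun s : ℝ => g (t + s * e)) (e • deriv g (t + s * e)) s) ∧
      HasDerivAt (fun s : ℝ => e • deriv g (t + s * e)) (e • (e • deriv (deriv g) t)) 0 := by
  have hl : ∀ s : ℝ, HasDerivAt (fun s : ℝ => t + (s : ℂ) * e) e s := by
    intro s
    have h1 : HasDerivAt (fun s : ℝ => (s : ℂ)) 1 s := by
      have h2 := (hasDerivAt_id (s : ℂ)).comp_ofReal
      simpa using h2
    simpa using (h1.mul_const e).const_add t
  have h0 : t + ((0 : ℝ) : ℂ) * e = t := by simp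
  have hcont : Tendsto (fun s : ℝ => t + (s : ℂ) * e) (𝓝 0) (𝓝 t) := by
    have h := (hl 0).continuousAt.tendsto
    rwa [h0] at h
  have key : ∀ (f : ℂ → (Fin n → ℂ)) (s : ℝ), AnalyticAt ℂ f (t + s * e) →
      HasDerivAt (fun s : ℝ => f (t + s * e)) (e • deriv f (t + s * e)) s := by
    intro f s hf
    exact HasDerivAt.scomp s hf.differentiableAt.hasDerivAt (hl s)
  refine ⟨?_, ?_⟩
  · filter_upwards [hcont.eventually hg.eventually_analyticAt] with s hs
    exact key g s hs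
  · have h1 := key (deriv g) 0 (by rw [h0]; exact hg.deriv)
    rw [h0] at h1
    exact h1.const_smul e

/-- a `C²` function on the plane along a real line -/
theorem path_b {b : ℂ → ℝ} {t : ℂ} (hb : ContDiffAt ℝ 2 b t) (e : ℂ) :
    Two (fun s : ℝ => b (t + s * e)) (fderiv ℝ b t e) (fderiv ℝ (fderiv ℝ b) t e e) := by
  have h0 : t + ((0 : ℝ) : ℂ) * e = t := by simp
  have hl : ∀ s : ℝ, HasDerivAt (fun s : ℝ => t + (s : ℂ) * e) e s := by
    intro s
    have h1 : HasDerivAt (fun s : ℝ => (s : ℂ)) 1 s := by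
      have h2 := (hasDerivAt_id (s : ℂ)).comp_ofReal
      simpa using h2
    simpa using (h1.mul_const e).const_add t
  have h := Two.path (φ := b) (p := fun s : ℝ => t + (s : ℂ) * e) (v := fun _ => e) (w := 0)
    (by rw [h0]; exact hb) (Eventually.of_forall hl) (hasDerivAt_const _ _)
  simp only [h0, map_zero, add_zero] at h
  exact h

theorem lap_eq (b : ℂ → ℝ) (t : ℂ) :
    Δ b t = fderiv ℝ (fderiv ℝ b) t 1 1 + fderiv ℝ (fderiv ℝ b) t Complex.I Complex.I := by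
  rw [InnerProductSpace.laplacian_eq_iteratedFDeriv_complexPlane]
  simp [iteratedFDeriv_two_apply]

/-- **The core.** No local minima. -/
theorem core {φ : (Fin n → ℂ) → ℝ} (hφ : ContDiff ℝ 2 φ) {K : Set (Fin n → ℂ)} {κ : ℝ} (hκ : 0 < κ)
    (hK : ∀ x ∈ K, ∀ v : Fin n → ℂ, v ≠ 0 →
      κ * ((fderiv ℝ φ x v) ^ 2 + (fderiv ℝ φ x (Complex.I • v)) ^ 2) < levi φ x v)
    {g : ℂ → (Fin n → ℂ)} {t : ℂ} (hg : AnalyticAt ℂ g t) (hgK : g t ∈ K) {A : ℝ} (hA : 0 < A)
    {b : ℂ → ℝ} (hb : ContDiffAt ℝ 2 b t) (hb0 : Δ b t ≤ 0) (hst : Δ b t < 0 ∨ deriv g t ≠ 0) :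
    ¬ IsLocalMin (fun s => A * Real.exp (-(κ * φ (g s))) + b s) t := by
  intro hmin
  set x := g t with hx
  set w := deriv g t with hw
  set w2 := deriv (deriv g) t with hw2
  have h0 : ∀ e : ℂ, t + ((0 : ℝ) : ℂ) * e = t := by simp
  have main : ∀ e : ℂ, 0 ≤ A * (Real.exp (-(κ * φ x)) * ((-κ * fderiv ℝ φ x (e • w)) ^ 2 +
      (-κ) * (fderiv ℝ (fderiv ℝ φ) x (e • w) (e • w) + fderiv ℝ φ x (e • (e • w2))))) +
        fderiv ℝ (fderiv ℝ b) t e e := by
    intro e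
    obtain ⟨p1, p2⟩ := path_g hg e
    have hT := Two.path (φ := φ) (p := fun s : ℝ => g (t + s * e)) (by exact hφ.contDiffAt) p1 p2
    simp only [h0] at hT
    have hT2 := ((hT.const_mul (-κ)).exp.const_mul A).add (path_b hb e)
    simp only [h0] at hT2
    have hT3 := hT2.congr (k := fun s : ℝ => A * Real.exp (-(κ * φ (g (t + s * e)))) + b (t + s * e))
      (Eventually.of_forall fun s => by ring_nf)
    have hm : IsLocalMin (fun s : ℝ => A * Real.exp (-(κ * φ (g (t + s * e)))) + b (t + s * e)) 0 := by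
      have hc : Tendsto (fun s : ℝ => t + (s : ℂ) * e) (𝓝 0) (𝓝 t) := by
        have : Continuous fun s : ℝ => t + (s : ℂ) * e := by fun_prop
        have h := this.tendsto 0
        rwa [h0] at h
      have h := hc.eventually hmin
      filter_upwards [h] with s hs
      simpa only [h0] using hs
    have h5 := hT3.min hm
    have e1 : -κ * φ (g t) = -(κ * φ x) := by rw [← hx]; ring
    rw [e1] at h5
    exact h5
  have m1 := main 1
  have m2 := main Complex.I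
  have eI : Complex.I • (Complex.I • w2) = -w2 := by
    rw [smul_smul, Complex.I_mul_I, neg_smul, one_smul]
  simp only [one_smul] at m1
  rw [eI, map_neg] at m2
  have hE : 0 < A * Real.exp (-(κ * φ x)) := by positivity
  have hlap := lap_eq b t
  have hle : κ * ((fderiv ℝ φ x w) ^ 2 + (fderiv ℝ φ x (Complex.I • w)) ^ 2) ≤ levi φ x w := by
    by_cases h : w = 0
    · rw [h]
      unfold levi
      simp
    · exact (hK x hgK w h).le
  have hle2 : w ≠ 0 → κ * ((fderiv ℝ φ x w) ^ 2 + (fderiv ℝ φ x (Complex.I • w)) ^ 2) < levi φ x w :=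
    fun h => hK x hgK w h
  have hsum : 0 ≤ A * Real.exp (-(κ * φ x)) * κ *
      (κ * ((fderiv ℝ φ x w) ^ 2 + (fderiv ℝ φ x (Complex.I • w)) ^ 2) - levi φ x w) + Δ b t := by
    rw [hlap]
    unfold levi
    refine (add_nonneg m1 m2).trans_eq ?_
    ring
  have hEk : 0 < A * Real.exp (-(κ * φ x)) * κ := by positivity
  rcases hst with h | h
  · nlinarith [mul_nonneg hEk.le (sub_nonneg.2 hle)]
  · nlinarith [mul_pos hEk (sub_pos.2 (hle2 h))]

end Pool.Agent.IK
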