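import Pool.Agent.Lib.IK.Spec

/-!
# Choice of the polynomial map, linear algebra (author helper69)
-/

set_option autoImplicit false

noncomputable section

namespace Pool.Agent.IK

open Filter Topology

variable {n : ℕ}

theorem jac_update (Ψ : Fin n → MvPolynomial (Fin n) ℂ) (i0 : Fin n) (p : MvPolynomial (Fin n) ℂ) :
    jac (Function.update Ψ i0 p) = (jac Ψ).updateRow i0 fun j => MvPolynomial.pderiv j p := by
  ext1 i j
  unfold jac
  by_cases h : i = i0
  · subst h
    simp [Matrix.updateRow_self]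
  · simp [Matrix.updateRow_ne h, Function.update_of_ne h]

/-- the choice of `Ψ` -/
theorem sel (S : Set (MvPolynomial (Fin n) ℂ)) : ∃ Ψ : Fin n → MvPolynomial (Fin n) ℂ, (jac Ψ).det ≠ 0 ∧
    ((∀ i, Ψ i ∈ S) ∨ ∃ i0, ∀ p ∈ S, ((jac Ψ).updateRow i0 fun j => MvPolynomial.pderiv j p).det = 0) := by
  classical
  set c : (Fin n → MvPolynomial (Fin n) ℂ) → ℕ := fun Ψ => (Finset.univ.filter fun i => Ψ i ∈ S).card with hc
  have hb : ∀ Ψ, c Ψ ≤ n := fun Ψ => by
    rw [hc]
    simpa using (Finset.card_filter_le (s := (Finset.univ : Finset (Fin n))) (p := fun i => Ψ i ∈ S))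
  set T : Set ℕ := {k | ∃ Ψ, (jac Ψ).det ≠ 0 ∧ c Ψ = k} with hT
  have hne : T.Nonempty := by
    refine ⟨_, MvPolynomial.X, ?_, rfl⟩
    have e : jac (n := n) MvPolynomial.X = 1 := by
      ext1 i j
      unfold jac
      rw [Matrix.of_apply, MvPolynomial.pderiv_X, Matrix.one_apply]
      by_cases h : i = j
      · subst h
        simp
      · rw [if_neg h, Pi.single_eq_of_ne h]
    rw [e, Matrix.det_one]
    exact one_ne_zero
  have hbd : BddAbove T := ⟨n, by
    rintro k ⟨Ψ, -, rfl⟩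
    exact hb Ψ⟩
  obtain ⟨Ψ, hΨ, hΨc⟩ := Nat.sSup_mem hne hbd
  refine ⟨Ψ, hΨ, ?_⟩
  by_cases hall : ∀ i, Ψ i ∈ S
  · exact Or.inl hall
  · push Not at hall
    obtain ⟨i0, hi0⟩ := hall
    refine Or.inr ⟨i0, fun p hp => ?_⟩
    by_contra hdet
    rw [← jac_update] at hdet
    have h1 : c (Function.update Ψ i0 p) ≤ sSup T := le_csSup hbd ⟨_, hdet, rfl⟩
    have h2 : c Ψ < c (Function.update Ψ i0 p) := by
      rw [hc]
      refine Finset.card_lt_card ⟨fun i hi => ?_, fun h => ?_⟩
      · rw [Finset.mem_filter] at hi ⊢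
        refine ⟨hi.1, ?_⟩
        by_cases h : i = i0
        · rw [h, Function.update_self]
          exact hp
        · rw [Function.update_of_ne h]
          exact hi.2
      · have h3 : i0 ∈ Finset.univ.filter fun i => Function.update Ψ i0 p i ∈ S := by
          rw [Finset.mem_filter, Function.update_self]
          exact ⟨Finset.mem_univ _, hp⟩
        exact hi0 (Finset.mem_filter.1 (h h3)).2
    rw [← hΨc] at h1
    omega

/-- Cramer -/
theorem lin (M : Matrix (Fin n) (Fin n) ℂ) (w u : Fin n → ℂ) (i0 : Fin n) (h : M.mulVec u = Pi.single i0 1)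
    (hM : M.det ≠ 0) (hw : (M.updateRow i0 w).det = 0) : w ⬝ᵥ u = 0 := by
  rw [← Matrix.cramer_transpose_apply, Matrix.cramer_eq_adjugate_mulVec, ← Matrix.adjugate_transpose,
    Matrix.mulVec_transpose] at hw
  have h1 : Matrix.vecMul w M.adjugate i0 = w ⬝ᵥ M.adjugate.mulVec (Pi.single i0 1) := by
    rw [Matrix.mulVec_single_one]
    rfl
  rw [h1, ← h, Matrix.mulVec_mulVec, Matrix.adjugate_mul, Matrix.smul_mulVec, Matrix.one_mulVec,
    dotProduct_smul, smul_eq_mul] at hw
  exact (mul_eq_zero.1 hw).resolve_left hM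

end Pool.Agent.IK
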