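import Pool.Agent.Lib.IK.Act
import Pool.Agent.Lib.IK.Sel

/-!
# The level curves of a polynomial map (author helper69)
-/

set_option autoImplicit false

noncomputable section

open Filter Topology Laplacian

namespace Pool.Agent.IK

variable {n : ℕ}

theorem loc_const {f : ℂ → ℂ} {t : ℂ} (h : ∀ᶠ s in 𝓝 t, HasDerivAt f 0 s) : ∀ᶠ s in 𝓝 t, f s = f t := by
  obtain ⟨r, hr, hr2⟩ := Metric.eventually_nhds_iff_ball.1 h
  filter_upwards [Metric.ball_mem_nhds t hr] with s hs
  exact Metric.isOpen_ball.is_const_of_deriv_eq_zero (convex_ball t r).isPreconnected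
    (fun y hy => (hr2 y hy).differentiableAt.differentiableWithinAt) (fun y hy => (hr2 y hy).deriv) hs
    (Metric.mem_ball_self hr)

theorem comp_pol (hDer : S_Der) (p : MvPolynomial (Fin n) ℂ) {g : ℂ → (Fin n → ℂ)} {u : Fin n → ℂ} {s : ℂ}
    (hg : HasDerivAt g u s) :
    HasDerivAt (fun s => MvPolynomial.eval (g s) p)
      ((fun j => MvPolynomial.eval (g s) (MvPolynomial.pderiv j p)) ⬝ᵥ u) s := by
  have h := (hDer n p (g s)).hasFDerivAt.comp_hasDerivAt s hg
  refine h.congr_deriv ?_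
  rw [dotProduct, sum_apply]
  exact Finset.sum_congr rfl fun j _ => by simp

/-- the velocity of a level curve -/
theorem vel (hDer : S_Der) (Ψ : Fin n → MvPolynomial (Fin n) ℂ) (i0 : Fin n) (y : Fin n → ℂ) {g : ℂ → (Fin n → ℂ)}
    {t : ℂ} (g1 : AnalyticAt ℂ g t) (g3 : ∀ᶠ s in 𝓝 t, ev Ψ (g s) = Function.update y i0 s) :
    ∀ᶠ s in 𝓝 t, ((jac Ψ).map (MvPolynomial.eval (g s))).mulVec (deriv g s) = Pi.single i0 1 := by
  have e1 : ∀ᶠ s in 𝓝 t, DifferentiableAt ℂ g s := Complex.analyticAt_iff_eventually_differentiableAt.1 g1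
  filter_upwards [e1, g3.eventually_nhds] with s hs hs3
  funext i
  have h1 := comp_pol hDer (Ψ i) hs.hasDerivAt
  have h2 : (fun s => MvPolynomial.eval (g s) (Ψ i)) =ᶠ[𝓝 s] fun s => Function.update y i0 s i := by
    filter_upwards [hs3] with s' hs'
    exact congrFun hs' i
  have h3 : HasDerivAt (fun s => Function.update y i0 s i) ((Pi.single i0 1 : Fin n → ℂ) i) s := by
    by_cases h : i = i0
    · subst h
      simp only [Function.update_self, Pi.single_eq_same]
      exact hasDerivAt_id s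
    · simp only [Function.update_of_ne h, Pi.single_eq_of_ne h]
      exact hasDerivAt_const s _
  exact (h1.unique (h3.congr_of_eventuallyEq h2))

/-- a polynomial which depends on the others is locally constant along the level curve -/
theorem locp (hDer : S_Der) (Ψ : Fin n → MvPolynomial (Fin n) ℂ) (i0 : Fin n) {p : MvPolynomial (Fin n) ℂ}
    (h0 : ((jac Ψ).updateRow i0 fun j => MvPolynomial.pderiv j p).det = 0) (y : Fin n → ℂ) {g : ℂ → (Fin n → ℂ)}
    {t : ℂ} (hx : MvPolynomial.eval (g t) (jac Ψ).det ≠ 0) (g1 : AnalyticAt ℂ g t)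
    (g3 : ∀ᶠ s in 𝓝 t, ev Ψ (g s) = Function.update y i0 s) :
    ∀ᶠ s in 𝓝 t, MvPolynomial.eval (g s) p = MvPolynomial.eval (g t) p := by
  have e1 : ∀ᶠ s in 𝓝 t, DifferentiableAt ℂ g s := Complex.analyticAt_iff_eventually_differentiableAt.1 g1
  have e3 : ∀ᶠ s in 𝓝 t, MvPolynomial.eval (g s) (jac Ψ).det ≠ 0 := by
    have hc : ContinuousAt (fun s => MvPolynomial.eval (g s) (jac Ψ).det) t :=
      ((hDer n (jac Ψ).det (g t)).hasFDerivAt.continuousAt).comp g1.continuousAt
    exact hc.eventually_ne hx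
  have h1 : ∀ᶠ s in 𝓝 t, HasDerivAt (fun s => MvPolynomial.eval (g s) p) 0 s := by
    filter_upwards [e1, e3, vel hDer Ψ i0 y g1 g3] with s hs hs3 hk
    have h2 := comp_pol hDer p hs.hasDerivAt
    have h3 := lin ((jac Ψ).map (MvPolynomial.eval (g s)))
      (fun j => MvPolynomial.eval (g s) (MvPolynomial.pderiv j p)) (deriv g s) i0 hk ?_ ?_
    · rw [h3] at h2
      exact h2
    · have h4 := (RingHom.map_det (MvPolynomial.eval (g s)) (jac Ψ))
      rw [RingHom.mapMatrix_apply] at h4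
      rw [← h4]
      exact hs3
    · have h4 := (RingHom.map_det (MvPolynomial.eval (g s))
        ((jac Ψ).updateRow i0 fun j => MvPolynomial.pderiv j p))
      rw [h0, map_zero, RingHom.mapMatrix_apply, Matrix.map_updateRow] at h4
      exact h4.symm
  exact loc_const h1

/-- the level curve through a point where the Jacobian does not vanish -/
theorem locg (hDer : S_Der) (hInv : S_Inv) (Ψ : Fin n → MvPolynomial (Fin n) ℂ)
    (i0 : Fin n) (x : Fin n → ℂ) (hx : MvPolynomial.eval x (jac Ψ).det ≠ 0) :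
    ∃ g : ℂ → (Fin n → ℂ), AnalyticAt ℂ g (ev Ψ x i0) ∧ g (ev Ψ x i0) = x ∧
      (∀ᶠ s in 𝓝 (ev Ψ x i0), ev Ψ (g s) = Function.update (ev Ψ x) i0 s) ∧ deriv g (ev Ψ x i0) ≠ 0 := by
  obtain ⟨g, g1, g2, g3⟩ := hInv n Ψ x i0 hx
  refine ⟨g, g1, g2, g3, ?_⟩
  intro h
  have h1 := (vel hDer Ψ i0 (ev Ψ x) g1 g3).self_of_nhds
  rw [h, Matrix.mulVec_zero] at h1
  have h2 := congrFun h1 i0
  rw [Pi.single_eq_same] at h2
  exact zero_ne_one h2

end Pool.Agent.IK
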