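import Pool.Agent.Lib.IK.Sch

/-!
# Invariant densities (author helper69)
-/

set_option autoImplicit false

noncomputable section

open Filter Topology Laplacian
open scoped ComplexConjugate

namespace Pool.Agent.IK

variable {n : ℕ}

/-- the Levi form is the Laplacian along a complex line -/
theorem levi_line {u : (Fin n → ℂ) → ℝ} (hu : ContDiff ℝ 2 u) (x v : Fin n → ℂ) :
    levi u x v = Δ (fun s : ℂ => u (x + s • v)) 0 := by
  set b : ℂ → ℝ := fun s => u (x + s • v) with hb
  have hbc : ContDiffAt ℝ 2 b 0 := by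
    have h1 : ContDiff ℝ 2 fun s : ℂ => x + s • v := by fun_prop
    exact (hu.comp h1).contDiffAt
  have h0 : ∀ e : ℂ, (0 : ℂ) + ((0 : ℝ) : ℂ) * e = 0 := by simp
  have main : ∀ e : ℂ, fderiv ℝ (fderiv ℝ b) 0 e e = fderiv ℝ (fderiv ℝ u) x (e • v) (e • v) := by
    intro e
    have hT := path_b hbc e
    have hl : ∀ s : ℝ, HasDerivAt (fun s : ℝ => x + s • (e • v)) (e • v) s := by
      intro s
      simpa using ((hasDerivAt_id s).smul_const (e • v)).const_add x
    have hS := Two.path (φ := u) (p := fun s : ℝ => x + s • (e • v)) (v := fun _ => e • v) (w := 0)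
      hu.contDiffAt (Eventually.of_forall hl) (hasDerivAt_const _ _)
    simp only [zero_smul, add_zero, map_zero] at hS
    have hc : (fun s : ℝ => u (x + s • (e • v))) = fun s : ℝ => b (0 + s * e) := by
      funext s
      rw [hb]
      simp only [zero_add]
      congr 2
      rw [mul_smul]
      rfl
    rw [hc] at hS
    exact (two_unique hT hS).2
  rw [lap_eq, main, main, one_smul]
  rfl

/-- the matrix of a linear map and the Hessian -/
theorem hes_det_of {f g : (Fin n → ℂ) → ℝ} (hf : ContDiff ℝ 2 f) (hg : ContDiff ℝ 2 g) {x y : Fin n → ℂ}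
    (L : (Fin n → ℂ) →L[ℂ] (Fin n → ℂ)) (h : ∀ v, levi f x v = levi g y (L v)) :
    (hes f x).det.re = ‖L.det‖ ^ 2 * (hes g y).det.re := by
  set M := LinearMap.toMatrix' (L : (Fin n → ℂ) →ₗ[ℂ] (Fin n → ℂ)) with hM
  have hMv : ∀ v, M.mulVec v = L v := fun v => LinearMap.toMatrix'_mulVec _ v
  have h1 : hes f x = M.conjTranspose * hes g y * M := by
    refine eq_of_quad fun v => ?_
    rw [hes_quad hf, h v, ← hes_quad hg, ← hMv, Matrix.star_mulVec, ← Matrix.dotProduct_mulVec, Matrix.mulVec_mulVec,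
      Matrix.mulVec_mulVec, Matrix.mul_assoc]
  have h2 : M.det = L.det := LinearMap.det_toMatrix' _
  rw [h1, Matrix.det_mul, Matrix.det_mul, Matrix.det_conjTranspose, h2, RCLike.star_def]
  have h3 : conj L.det * (hes g y).det * L.det = ((‖L.det‖ ^ 2 : ℝ) : ℂ) * (hes g y).det := by
    rw [← Complex.normSq_eq_norm_sq, Complex.normSq_eq_conj_mul_self]
    ring
  rw [h3, Complex.re_ofReal_mul]

theorem hes_cont {f : (Fin n → ℂ) → ℝ} (hf : ContDiff ℝ 2 f) : Continuous (hes f) := by
  have h : Continuous (fderiv ℝ (fderiv ℝ f)) := (hf.fderiv_right (m := 1) (by norm_num)).continuous_fderiv (by norm_num)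
  refine continuous_matrix fun j k => ?_
  unfold hes
  simp only [Matrix.of_apply]
  fun_prop

theorem det_cont {f : (Fin n → ℂ) → ℝ} (hf : ContDiff ℝ 2 f) : Continuous fun x => (hes f x).det.re :=
  Complex.continuous_re.comp (hes_cont hf).matrix_det

/-- the Jacobian determinant along a line is entire -/
theorem jac_line {h : (Fin n → ℂ) → (Fin n → ℂ)} (hh : Differentiable ℂ h) (x v : Fin n → ℂ) :
    Differentiable ℂ fun s : ℂ => (fderiv ℂ h (x + s • v)).det := by
  have h1 : Differentiable ℂ (fderiv ℂ h) := differentiableOn_univ.1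
    (Pool.Agent.Lib.Osgood.differentiableOn_fderiv isOpen_univ hh.differentiableOn)
  have h2 : Differentiable ℂ fun s : ℂ => fderiv ℂ h (x + s • v) :=
    h1.comp ((differentiable_id.smul_const v).const_add x)
  have h3 : (fun s : ℂ => (fderiv ℂ h (x + s • v)).det) = fun s =>
      (Matrix.of fun j k => fderiv ℂ h (x + s • v) (Pi.single k 1) j).det := by
    funext s
    have := LinearMap.det_toMatrix' ((fderiv ℂ h (x + s • v) : (Fin n → ℂ) →L[ℂ] (Fin n → ℂ)) : (Fin n → ℂ) →ₗ[ℂ] (Fin n → ℂ))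
    rw [ContinuousLinearMap.det, ← this]
    congr 1
  rw [h3]
  simp only [Matrix.det_apply', Matrix.of_apply]
  have h4 : ∀ j k : Fin n, Differentiable ℂ fun s : ℂ => fderiv ℂ h (x + s • v) (Pi.single k 1) j := by
    intro j k
    exact (differentiable_pi.1 (h2.clm_apply (differentiable_const _))) j
  fun_prop

variable {Γ : Type*} [Group Γ] [MulAction Γ (Fin n → ℂ)]

/-- `exp W` is the density of a volume form invariant under `Γ` -/
def InvDens (Γ : Type*) [Group Γ] [MulAction Γ (Fin n → ℂ)] (W : (Fin n → ℂ) → ℝ) : Prop :=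
  ContDiff ℝ 2 W ∧ ∀ (γ : Γ) (x : Fin n → ℂ),
    Real.exp (W (γ • x)) * ‖(fderiv ℂ (fun y : Fin n → ℂ => γ • y) x).det‖ ^ 2 = Real.exp (W x)

theorem dens_log {W : (Fin n → ℂ) → ℝ} (hW : InvDens Γ W) (γ : Γ) (x : Fin n → ℂ) :
    (fderiv ℂ (fun y : Fin n → ℂ => γ • y) x).det ≠ 0 ∧
      W (γ • x) + Real.log (‖(fderiv ℂ (fun y : Fin n → ℂ => γ • y) x).det‖ ^ 2) = W x := by
  have h1 := hW.2 γ x
  have h2 : (fderiv ℂ (fun y : Fin n → ℂ => γ • y) x).det ≠ 0 := by
    intro h
    rw [h, norm_zero, zero_pow two_ne_zero, mul_zero] at h1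
    exact (Real.exp_pos _).ne h1
  refine ⟨h2, ?_⟩
  have h3 := congrArg Real.log h1
  rwa [Real.log_mul (Real.exp_pos _).ne' (pow_ne_zero 2 (norm_ne_zero_iff.2 h2)), Real.log_exp, Real.log_exp] at h3

/-- the curvature form of an invariant density is invariant -/
theorem dens_levi (hol : ∀ γ : Γ, Differentiable ℂ fun x : Fin n → ℂ => γ • x) {W : (Fin n → ℂ) → ℝ} (hW : InvDens Γ W)
    (γ : Γ) (x v : Fin n → ℂ) : levi W (γ • x) (fderiv ℂ (fun y : Fin n → ℂ => γ • y) x v) = levi W x v := by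
  set h : (Fin n → ℂ) → (Fin n → ℂ) := fun y => γ • y with hh
  have hWh : ContDiff ℝ 2 fun y => W (h y) := hW.1.comp (smooth2 (hol γ))
  have h1 := levi_sub hW.1 hWh x v
  rw [levi_comp hW.1 (hol γ)] at h1
  have h2 : levi (fun y => W y - W (h y)) x v = 0 := by
    rw [levi_line (hW.1.sub hWh)]
    have h3 : (fun s : ℂ => W (x + s • v) - W (h (x + s • v))) = fun s => 2 * Real.log ‖(fderiv ℂ h (x + s • v)).det‖ := by
      funext s
      have h4 := (dens_log hW γ (x + s • v)).2
      rw [Real.log_pow] at h4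
      push_cast at h4
      rw [hh]
      simp only
      linarith
    rw [h3]
    have h5 : AnalyticAt ℂ (fun s : ℂ => (fderiv ℂ h (x + s • v)).det) 0 := (jac_line (hol γ) x v).analyticAt 0
    have h6 : InnerProductSpace.HarmonicAt (fun s : ℂ => Real.log ‖(fderiv ℂ h (x + s • v)).det‖) 0 :=
      h5.harmonicAt_log_norm (dens_log hW γ _).1
    have h7 := (h6.const_smul (c := (2 : ℝ))).2.self_of_nhds
    exact h7
  linarith

end Pool.Agent.IK
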