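import Pool.Agent.Lib.IK.Den

/-!
# Bounds for invariant densities (author helper69)
-/

set_option autoImplicit false

noncomputable section

open Filter Topology Laplacian
open scoped ComplexConjugate ComplexOrder

namespace Pool.Agent.IK

variable {n : ℕ}

theorem levi_smul (f : (Fin n → ℂ) → ℝ) (x v : Fin n → ℂ) (r : ℝ) : levi f x (r • v) = r ^ 2 * levi f x v := by
  unfold levi
  rw [smul_comm Complex.I r v]
  simp only [map_smul, smul_apply, smul_eq_mul]
  ring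

theorem levi_zero (f : (Fin n → ℂ) → ℝ) (x : Fin n → ℂ) : levi f x 0 = 0 := by
  unfold levi
  simp

theorem levi_add {f g : (Fin n → ℂ) → ℝ} (hf : ContDiff ℝ 2 f) (hg : ContDiff ℝ 2 g) (x v : Fin n → ℂ) :
    levi (fun y => f y + g y) x v = levi f x v + levi g x v := by
  have h1 : (fderiv ℝ fun y => f y + g y) = fun y => fderiv ℝ f y + fderiv ℝ g y := by
    funext y
    exact fderiv_fun_add (hf.differentiable (by norm_num) y) (hg.differentiable (by norm_num) y)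
  have h2 : fderiv ℝ (fderiv ℝ fun y => f y + g y) x = fderiv ℝ (fderiv ℝ f) x + fderiv ℝ (fderiv ℝ g) x := by
    rw [h1]
    exact fderiv_fun_add ((hf.fderiv_right (m := 1) (by norm_num)).differentiable (by norm_num) x)
      ((hg.fderiv_right (m := 1) (by norm_num)).differentiable (by norm_num) x)
  unfold levi
  rw [h2]
  simp only [add_apply]
  ring

theorem levi_const_mul {f : (Fin n → ℂ) → ℝ} (hf : ContDiff ℝ 2 f) (c : ℝ) (x v : Fin n → ℂ) :
    levi (fun y => c * f y) x v = c * levi f x v := by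
  have h1 : (fderiv ℝ fun y => c * f y) = fun y => c • fderiv ℝ f y := by
    funext y
    exact fderiv_const_mul (hf.differentiable (by norm_num) y) c
  have h2 : fderiv ℝ (fderiv ℝ fun y => c * f y) x = c • fderiv ℝ (fderiv ℝ f) x := by
    rw [h1]
    exact fderiv_fun_const_smul ((hf.fderiv_right (m := 1) (by norm_num)).differentiable (by norm_num) x) c
  unfold levi
  rw [h2]
  simp only [smul_apply, smul_eq_mul]
  ring

theorem levi_cont {f : (Fin n → ℂ) → ℝ} (hf : ContDiff ℝ 2 f) :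
    Continuous fun y : (Fin n → ℂ) × (Fin n → ℂ) => levi f y.1 y.2 := by
  have hc2 : Continuous (fderiv ℝ (fderiv ℝ f)) :=
    (hf.fderiv_right (m := 1) (by norm_num)).continuous_fderiv (by norm_num)
  unfold levi
  fun_prop

variable {Γ : Type*} [Group Γ] [MulAction Γ (Fin n → ℂ)]

/-- the curvature form of an invariant density is bounded below -/
theorem dens_lower (hol : ∀ γ : Γ, Differentiable ℂ fun x : Fin n → ℂ => γ • x) {K : Set (Fin n → ℂ)} (hKc : IsCompact K)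
    (hcov : ∀ x : Fin n → ℂ, ∃ γ : Γ, γ • x ∈ K) {φ : (Fin n → ℂ) → ℝ} (hφ : ContDiff ℝ 2 φ)
    (hpsh : ∀ x v : Fin n → ℂ, v ≠ 0 → 0 < levi φ x v)
    (hinv : ∀ (γ : Γ) (x v : Fin n → ℂ), levi φ (γ • x) (fderiv ℂ (fun y : Fin n → ℂ => γ • y) x v) = levi φ x v)
    {W : (Fin n → ℂ) → ℝ} (hW : InvDens Γ W) : ∃ A : ℝ, 0 ≤ A ∧ ∀ x v, -(A * levi φ x v) ≤ levi W x v := by
  set S : Set (Fin n → ℂ) := Metric.sphere 0 1 with hS
  have hKS : IsCompact (K ×ˢ S) := hKc.prod (isCompact_sphere 0 1)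
  obtain ⟨A, hA, hA2⟩ : ∃ A : ℝ, 0 ≤ A ∧ ∀ y ∈ K ×ˢ S, -(A * levi φ y.1 y.2) ≤ levi W y.1 y.2 := by
    by_cases hne : (K ×ˢ S).Nonempty
    · obtain ⟨y0, hy0, hmin⟩ := hKS.exists_isMinOn hne (levi_cont hφ).continuousOn
      obtain ⟨M, hM⟩ := hKS.exists_bound_of_continuousOn (levi_cont hW.1).continuousOn
      have hv0 : y0.2 ≠ 0 := by
        intro h
        have h1 := hy0.2
        rw [h, hS, mem_sphere_zero_iff_norm, norm_zero] at h1
        exact zero_ne_one h1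
      have hm : 0 < levi φ y0.1 y0.2 := hpsh _ _ hv0
      have hM0 : 0 ≤ M := (norm_nonneg _).trans (hM y0 hy0)
      refine ⟨M / levi φ y0.1 y0.2, by positivity, fun y hy => ?_⟩
      have h1 : levi φ y0.1 y0.2 ≤ levi φ y.1 y.2 := hmin hy
      have h2 := hM y hy
      rw [Real.norm_eq_abs] at h2
      have h3 := (abs_le.1 h2).1
      have h4 : M ≤ M / levi φ y0.1 y0.2 * levi φ y.1 y.2 := by
        rw [div_mul_eq_mul_div, le_div_iff₀ hm]
        exact mul_le_mul_of_nonneg_left h1 hM0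
      linarith
    · exact ⟨0, le_rfl, fun y hy => absurd ⟨y, hy⟩ hne⟩
  refine ⟨A, hA, fun x v => ?_⟩
  obtain ⟨γ, hγ⟩ := hcov x
  rw [← hinv γ x v, ← dens_levi hol hW γ x v]
  set w := fderiv ℂ (fun y : Fin n → ℂ => γ • y) x v with hw
  by_cases h0 : w = 0
  · rw [h0, levi_zero, levi_zero]
    simp
  · have hn : 0 < ‖w‖ := norm_pos_iff.2 h0
    have h1 := hA2 (γ • x, (‖w‖⁻¹ : ℝ) • w) ⟨hγ, by
      rw [hS, mem_sphere_zero_iff_norm, norm_smul, norm_inv, norm_norm, inv_mul_cancel₀ hn.ne']⟩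
    simp only [levi_smul] at h1
    have h2 : 0 < (‖w‖⁻¹) ^ 2 := by positivity
    have h3 : (‖w‖⁻¹) ^ 2 * -(A * levi φ (γ • x) w) ≤ (‖w‖⁻¹) ^ 2 * levi W (γ • x) w := by linarith
    exact le_of_mul_le_mul_left h3 h2

/-- the quotient of an invariant density and the volume form of the Kähler metric -/
theorem dens_ratio {K : Set (Fin n → ℂ)} (hKc : IsCompact K)
    (hcov : ∀ x : Fin n → ℂ, ∃ γ : Γ, γ • x ∈ K) {φ : (Fin n → ℂ) → ℝ} (hφ : ContDiff ℝ 2 φ)
    (hpsh : ∀ x v : Fin n → ℂ, v ≠ 0 → 0 < levi φ x v)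
    (hinv : ∀ (γ : Γ) (x v : Fin n → ℂ), levi φ (γ • x) (fderiv ℂ (fun y : Fin n → ℂ => γ • y) x v) = levi φ x v)
    {W : (Fin n → ℂ) → ℝ} (hW : InvDens Γ W) :
    ∃ z ∈ K, ∀ y, W y - Real.log (hes φ y).det.re ≤ W z - Real.log (hes φ z).det.re := by
  have hD : ∀ y, 0 < (hes φ y).det.re := fun y => (hes_pos hφ fun v hv => hpsh y v hv).2
  have hc : Continuous fun y => W y - Real.log (hes φ y).det.re :=
    hW.1.continuous.sub ((det_cont hφ).log fun y => (hD y).ne')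
  obtain ⟨γ0, hγ0⟩ := hcov 0
  obtain ⟨z, hz, hmax⟩ := hKc.exists_isMaxOn ⟨_, hγ0⟩ hc.continuousOn
  refine ⟨z, hz, fun y => ?_⟩
  obtain ⟨γ, hγ⟩ := hcov y
  refine le_trans (le_of_eq ?_) (hmax hγ)
  obtain ⟨h1, h2⟩ := dens_log hW γ y
  have h3 := hes_det_of hφ hφ (x := y) (y := γ • y) (fderiv ℂ (fun y : Fin n → ℂ => γ • y) y) fun v => (hinv γ y v).symm
  simp only
  rw [h3, Real.log_mul (pow_ne_zero 2 (norm_ne_zero_iff.2 h1)) (hD _).ne', ← h2]
  ring

end Pool.Agent.IK
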