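import Pool.Agent.Lib.IK.Spec

/-!
# The derivative of the evaluation of a polynomial
-/

set_option autoImplicit false

noncomputable section

namespace Pool.Agent.IK

open Filter Topology

/-- the coordinate -/
private def pj (n : ℕ) (j : Fin n) : (Fin n → ℂ) →L[ℂ] ℂ := ContinuousLinearMap.proj j

/-- the differential -/
private def df (n : ℕ) (p : MvPolynomial (Fin n) ℂ) (x : Fin n → ℂ) : (Fin n → ℂ) →L[ℂ] ℂ :=
  ∑ j, MvPolynomial.eval x (MvPolynomial.pderiv j p) • pj n j

private theorem df_C (n : ℕ) (a : ℂ) (x : Fin n → ℂ) : df n (MvPolynomial.C a) x = 0 := by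
  refine Finset.sum_eq_zero fun j _ => ?_
  rw [MvPolynomial.pderiv_C, map_zero]
  exact zero_smul ℂ (pj n j)

private theorem df_add (n : ℕ) (p q : MvPolynomial (Fin n) ℂ) (x : Fin n → ℂ) :
    df n (p + q) x = df n p x + df n q x := by
  unfold df
  rw [← Finset.sum_add_distrib]
  refine Finset.sum_congr rfl fun j _ => ?_
  rw [map_add, map_add]
  exact add_smul _ _ (pj n j)

private theorem df_mul (n : ℕ) (p : MvPolynomial (Fin n) ℂ) (i : Fin n) (x : Fin n → ℂ) :
    df n (p * MvPolynomial.X i) x = MvPolynomial.eval x p • pj n i + x i • df n p x := by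
  have e : ∀ j, MvPolynomial.eval x (MvPolynomial.pderiv j (p * MvPolynomial.X i)) • pj n j =
      (if j = i then MvPolynomial.eval x p • pj n i else 0) +
        x i • MvPolynomial.eval x (MvPolynomial.pderiv j p) • pj n j := by
    intro j
    rw [MvPolynomial.pderiv_mul, MvPolynomial.pderiv_X, map_add, map_mul, map_mul, MvPolynomial.eval_X]
    generalize hs : (Pi.single j 1 : Fin n → MvPolynomial (Fin n) ℂ) i = s
    have h1 := add_smul (MvPolynomial.eval x (MvPolynomial.pderiv j p) * x i)
      (MvPolynomial.eval x p * MvPolynomial.eval x s) (pj n j)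
    have h2 : (MvPolynomial.eval x (MvPolynomial.pderiv j p) * x i) • pj n j =
        x i • MvPolynomial.eval x (MvPolynomial.pderiv j p) • pj n j := by
      rw [mul_comm]
      exact mul_smul _ _ _
    refine h1.trans ?_
    rw [h2, add_comm]
    congr 1
    by_cases h : j = i
    · subst h
      rw [if_pos rfl, ← hs, Pi.single_eq_same, map_one, mul_one]
    · rw [if_neg h, ← hs, Pi.single_eq_of_ne (Ne.symm h), map_zero, mul_zero]
      exact zero_smul ℂ (pj n j)
  unfold df
  rw [Finset.sum_congr rfl fun j _ => e j, Finset.sum_add_distrib, Finset.sum_ite_eq' Finset.univ i,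
    if_pos (Finset.mem_univ i), Finset.smul_sum]

private theorem key (n : ℕ) (p : MvPolynomial (Fin n) ℂ) (x : Fin n → ℂ) :
    HasStrictFDerivAt (fun x : Fin n → ℂ => MvPolynomial.eval x p) (df n p x) x := by
  induction p using MvPolynomial.induction_on with
  | C a =>
    rw [df_C]
    simp only [MvPolynomial.eval_C]
    exact hasStrictFDerivAt_const a x
  | add p q hp hq =>
    rw [df_add]
    simp only [map_add]
    exact hp.add hq
  | mul_X p i hp =>
    have hX : HasStrictFDerivAt (fun x : Fin n → ℂ => x i) (pj n i) x := (pj n i).hasStrictFDerivAt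
    rw [df_mul]
    simp only [map_mul, MvPolynomial.eval_X]
    exact hp.mul hX

theorem tDer : S_Der := fun n p x => key n p x

end Pool.Agent.IK
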