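import Mathlib

/-!
# Determinants of positive semidefinite matrices (author helper69)
-/

set_option autoImplicit false

noncomputable section

open Filter Topology
open scoped ComplexConjugate

namespace Pool.Agent.IK

variable {n : ℕ}

/-- a positive semidefinite matrix `≤ 1` has determinant `≤ 1` -/
theorem det_le_one {M : Matrix (Fin n) (Fin n) ℂ} (hM : M.IsHermitian) (h0 : ∀ v, 0 ≤ (star v ⬝ᵥ M.mulVec v).re)
    (h1 : ∀ v, (star v ⬝ᵥ M.mulVec v).re ≤ (star v ⬝ᵥ v).re) : M.det.re ≤ 1 := by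
  rw [hM.det_eq_prod_eigenvalues]
  have e : (∏ i, ((hM.eigenvalues i : ℝ) : ℂ)) = ((∏ i, hM.eigenvalues i : ℝ) : ℂ) := by push_cast; rfl
  have e2 : (∏ i, ((hM.eigenvalues i : ℝ) : ℂ)).re = ∏ i, hM.eigenvalues i := by
    rw [e, Complex.ofReal_re]
  refine (le_of_eq e2).trans ?_
  refine Finset.prod_le_one (fun i _ => ?_) fun i _ => ?_
  · rw [hM.eigenvalues_eq]
    exact h0 _
  · rw [hM.eigenvalues_eq]
    refine (h1 _).trans ?_
    have h2 : ‖hM.eigenvectorBasis i‖ = 1 := hM.eigenvectorBasis.norm_eq_one i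
    have h3 := EuclideanSpace.inner_eq_star_dotProduct (𝕜 := ℂ) (hM.eigenvectorBasis i) (hM.eigenvectorBasis i)
    rw [inner_self_eq_norm_sq_to_K, h2] at h3
    rw [dotProduct_comm]
    have h4 := congrArg Complex.re h3
    simp at h4
    exact h4.symm.le

/-- a positive semidefinite matrix bounded by a diagonal matrix -/
theorem det_le_diag {A : Matrix (Fin n) (Fin n) ℂ} (hA : A.IsHermitian) (h0 : ∀ v, 0 ≤ (star v ⬝ᵥ A.mulVec v).re)
    {d : Fin n → ℝ} (hd : ∀ j, 0 < d j) (h1 : ∀ v : Fin n → ℂ, (star v ⬝ᵥ A.mulVec v).re ≤ ∑ j, d j * ‖v j‖ ^ 2) :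
    A.det.re ≤ ∏ j, d j := by
  set S : Matrix (Fin n) (Fin n) ℂ := Matrix.diagonal fun j => ((Real.sqrt (d j))⁻¹ : ℂ) with hS
  have hSh : S.conjTranspose = S := by
    rw [hS, Matrix.diagonal_conjTranspose]
    congr 1
    funext j
    simp
  have hSM : (S * A * S).IsHermitian := by
    have := Matrix.isHermitian_conjTranspose_mul_mul S hA
    rwa [hSh] at this
  have hq : ∀ v, star v ⬝ᵥ (S * A * S).mulVec v = star (S.mulVec v) ⬝ᵥ A.mulVec (S.mulVec v) := by
    intro v
    rw [Matrix.star_mulVec, hSh, ← Matrix.dotProduct_mulVec, Matrix.mulVec_mulVec, Matrix.mulVec_mulVec]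
  have h2 : (S * A * S).det.re ≤ 1 := by
    refine det_le_one hSM (fun v => ?_) fun v => ?_
    · rw [hq]
      exact h0 _
    · rw [hq]
      refine (h1 _).trans (le_of_eq ?_)
      rw [dotProduct, Complex.re_sum]
      refine Finset.sum_congr rfl fun j _ => ?_
      rw [hS, Matrix.mulVec_diagonal, norm_mul, norm_inv, Complex.norm_of_nonneg (Real.sqrt_nonneg _), mul_pow, inv_pow,
        Real.sq_sqrt (hd j).le, ← mul_assoc, mul_inv_cancel₀ (hd j).ne', one_mul, Pi.star_apply, RCLike.star_def,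
        ← Complex.normSq_eq_conj_mul_self, Complex.ofReal_re, Complex.normSq_eq_norm_sq]
  have h3 : (S * A * S).det = ((∏ j, (d j)⁻¹ : ℝ) : ℂ) * A.det := by
    have h4 : S.det * S.det = ((∏ j, (d j)⁻¹ : ℝ) : ℂ) := by
      rw [hS, Matrix.det_diagonal, ← Finset.prod_mul_distrib]
      push_cast
      refine Finset.prod_congr rfl fun j _ => ?_
      rw [← mul_inv, ← Complex.ofReal_mul, Real.mul_self_sqrt (hd j).le]
    rw [Matrix.det_mul, Matrix.det_mul, ← h4]
    ring
  rw [h3, Complex.re_ofReal_mul, Finset.prod_inv_distrib, inv_mul_le_iff₀ (Finset.prod_pos fun j _ => hd j), mul_one] at h2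
  exact h2

/-- two matrices with the same quadratic form -/
theorem eq_of_quad {M N : Matrix (Fin n) (Fin n) ℂ} (h : ∀ v, star v ⬝ᵥ M.mulVec v = star v ⬝ᵥ N.mulVec v) : M = N := by
  have key : ∀ (P : Matrix (Fin n) (Fin n) ℂ), (∀ v, star v ⬝ᵥ P.mulVec v = 0) → P = 0 := by
    intro P hP
    have hb : ∀ v w, star v ⬝ᵥ P.mulVec w + star w ⬝ᵥ P.mulVec v = 0 := by
      intro v w
      have h1 := hP (v + w)
      rw [star_add, Matrix.mulVec_add, add_dotProduct, dotProduct_add, dotProduct_add, hP v, hP w] at h1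
      linear_combination h1
    have hz : ∀ v w, star v ⬝ᵥ P.mulVec w = 0 := by
      intro v w
      have h1 := hb v w
      have h2 := hb v (Complex.I • w)
      rw [Matrix.mulVec_smul, dotProduct_smul, star_smul, smul_dotProduct, RCLike.star_def, Complex.conj_I, smul_eq_mul,
        smul_eq_mul] at h2
      have h3 : Complex.I * (star v ⬝ᵥ P.mulVec w - star w ⬝ᵥ P.mulVec v) = 0 := by linear_combination h2
      have h4 : star v ⬝ᵥ P.mulVec w - star w ⬝ᵥ P.mulVec v = 0 := (mul_eq_zero.1 h3).resolve_left Complex.I_ne_zero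
      linear_combination (h1 + h4) / 2
    ext j k
    have h1 := hz (Pi.single j 1) (Pi.single k 1)
    have e : star (Pi.single j 1 : Fin n → ℂ) = Pi.single j 1 := by
      funext i
      by_cases hi : i = j
      · subst hi
        simp
      · simp [hi]
    rw [e, Matrix.mulVec_single_one, single_one_dotProduct] at h1
    exact h1
  have h2 := key (M - N) fun v => by
    rw [Matrix.sub_mulVec, dotProduct_sub, h v, sub_self]
  exact sub_eq_zero.1 h2

end Pool.Agent.IK
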