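import Pool.Agent.Lib.IK.Spec

set_option autoImplicit false

noncomputable section

namespace Pool.Agent.IK

open Filter Topology

private lemma one_var : ∀ (k : ℕ) (Q : Polynomial ℂ), Q.natDegree = k → ∀ (f : ℂ → ℂ), Differentiable ℂ f → ∀ M : ℝ,
    (∀ z : ℂ, ‖z‖ = 1 → ‖Q.eval z * f z‖ ≤ M) → ‖Q.leadingCoeff‖ * ‖f 0‖ ≤ M := by
  intro k
  induction k with
  | zero =>
    intro Q hQ f hf M hM
    obtain ⟨a, rfl⟩ : ∃ a, Q = Polynomial.C a := ⟨_, Polynomial.eq_C_of_natDegree_eq_zero hQ⟩
    rw [Polynomial.leadingCoeff_C, ← norm_mul]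
    have h := Complex.norm_le_of_forall_mem_frontier_norm_le (f := fun z => a * f z) (U := Metric.ball (0 : ℂ) 1)
      (C := M) Metric.isBounded_ball ((hf.const_mul a).diffContOnCl) (by
        intro z hz
        rw [frontier_ball (0 : ℂ) one_ne_zero] at hz
        have := hM z (by simpa using hz)
        simpa using this) (z := 0) (by
        rw [closure_ball (0 : ℂ) one_ne_zero]; simp)
    simpa using h
  | succ k ih =>
    intro Q hQ f hf M hM
    have hdeg : 0 < Q.degree := by
      rw [← Polynomial.natDegree_pos_iff_degree_pos]; omega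
    obtain ⟨z1, hz1⟩ := Complex.exists_root hdeg
    obtain ⟨Q1, rfl⟩ := Polynomial.dvd_iff_isRoot.mpr hz1
    have hQ1 : Q1 ≠ 0 := by
      rintro rfl
      simp at hdeg
    have hnd : Q1.natDegree = k := by
      rw [Polynomial.natDegree_mul (Polynomial.X_sub_C_ne_zero z1) hQ1, Polynomial.natDegree_X_sub_C] at hQ
      omega
    have hlc : ((Polynomial.X - Polynomial.C z1) * Q1).leadingCoeff = Q1.leadingCoeff := by
      rw [Polynomial.leadingCoeff_mul, Polynomial.leadingCoeff_X_sub_C, one_mul]
    rw [hlc]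
    rcases lt_or_ge ‖z1‖ 1 with h1 | h1
    · have h := ih Q1 hnd (fun z => (1 - (starRingEnd ℂ) z1 * z) * f z) (by fun_prop) M (by
        intro z hz
        have e1 : ‖(1 : ℂ) - (starRingEnd ℂ) z1 * z‖ = ‖z - z1‖ := by
          have hzz : z * (starRingEnd ℂ) z = 1 := by
            rw [Complex.mul_conj, Complex.normSq_eq_norm_sq, hz]; simp
          have : (1 : ℂ) - (starRingEnd ℂ) z1 * z = z * (starRingEnd ℂ) (z - z1) := by
            rw [map_sub, mul_sub, hzz]; ring
          rw [this, norm_mul, hz, one_mul, RCLike.norm_conj]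
        have := hM z hz
        simp only [Polynomial.eval_mul, Polynomial.eval_sub, Polynomial.eval_X, Polynomial.eval_C, norm_mul] at this
        rw [norm_mul, norm_mul, e1]
        calc _ = ‖z - z1‖ * ‖Q1.eval z‖ * ‖f z‖ := by ring
          _ ≤ M := this)
      simpa using h
    · have h := ih Q1 hnd (fun z => (z - z1) * f z) (by fun_prop) M (by
        intro z hz
        have := hM z hz
        simp only [Polynomial.eval_mul, Polynomial.eval_sub, Polynomial.eval_X, Polynomial.eval_C, norm_mul] at this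
        rw [norm_mul, norm_mul]
        calc _ = ‖z - z1‖ * ‖Q1.eval z‖ * ‖f z‖ := by ring
          _ ≤ M := this)
      simp only [zero_sub, norm_mul, norm_neg] at h
      refine le_trans ?_ h
      have : ‖f 0‖ ≤ ‖z1‖ * ‖f 0‖ := by nlinarith [norm_nonneg (f 0)]
      exact mul_le_mul_of_nonneg_left this (norm_nonneg _)

private lemma claim : ∀ (n : ℕ) (q : MvPolynomial (Fin n) ℂ), q ≠ 0 → ∃ c : ℝ, 0 < c ∧
    ∀ f : (Fin n → ℂ) → ℂ, Differentiable ℂ f → ∀ (x : Fin n → ℂ) (M : ℝ),
      (∀ w : Fin n → ℂ, ‖w‖ ≤ 1 → ‖MvPolynomial.eval (x + w) q * f (x + w)‖ ≤ M) → c * ‖f x‖ ≤ M := by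
  intro n
  induction n with
  | zero =>
    intro q hq
    obtain ⟨a, rfl⟩ : ∃ a, q = MvPolynomial.C a := ⟨_, MvPolynomial.eq_C_of_isEmpty q⟩
    have ha : a ≠ 0 := by
      rintro rfl; simp at hq
    refine ⟨‖a‖, norm_pos_iff.mpr ha, fun f _ x M hM => ?_⟩
    have := hM 0 (by rw [norm_zero]; exact zero_le_one)
    rw [add_zero, MvPolynomial.eval_C, norm_mul] at this
    exact this
  | succ n ih =>
    intro q hq
    set Q := MvPolynomial.finSuccEquiv ℂ n q with hQdef
    have hQ : Q ≠ 0 := by
      rw [hQdef]; simpa using hq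
    obtain ⟨c, hc, hcl⟩ := ih Q.leadingCoeff (Polynomial.leadingCoeff_ne_zero.mpr hQ)
    refine ⟨c, hc, fun f hf x M hM => ?_⟩
    have hM0 : 0 ≤ M := le_trans (norm_nonneg _) (hM 0 (by simp))
    have hx : x = Fin.cons (x 0) (fun i => x i.succ) := by
      funext i; refine Fin.cases ?_ (fun j => ?_) i <;> simp
    have hcons : ∀ (a : ℂ), Differentiable ℂ (fun y : Fin n → ℂ => (Fin.cons a y : Fin (n+1) → ℂ)) := by
      intro a
      rw [differentiable_pi]
      intro i
      refine Fin.cases ?_ (fun j => ?_) i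
      · simp
      · simp only [Fin.cons_succ]; fun_prop
    have hcons2 : ∀ (b : Fin n → ℂ), Differentiable ℂ (fun z : ℂ => (Fin.cons (x 0 + z) b : Fin (n+1) → ℂ)) := by
      intro b
      rw [differentiable_pi]
      intro i
      refine Fin.cases ?_ (fun j => ?_) i
      · simp only [Fin.cons_zero]; fun_prop
      · simp
    have key := hcl (fun y => f (Fin.cons (x 0) y)) (hf.comp (hcons (x 0))) (fun i => x i.succ) M (by
      intro w hw
      by_cases hl : MvPolynomial.eval ((fun i => x i.succ) + w) Q.leadingCoeff = 0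
      · rw [hl]; simpa using hM0
      · set y : Fin n → ℂ := (fun i => x i.succ) + w with hy
        set P : Polynomial ℂ := (Q.map (MvPolynomial.eval y)).comp (Polynomial.X + Polynomial.C (x 0)) with hP
        have hlcP : P.leadingCoeff = MvPolynomial.eval y Q.leadingCoeff := by
          rw [hP, Polynomial.leadingCoeff_comp (by simp), Polynomial.leadingCoeff_X_add_C, one_pow, mul_one]
          exact Polynomial.leadingCoeff_map_of_leadingCoeff_ne_zero _ hl
        have h := one_var P.natDegree P rfl (fun z => f (Fin.cons (x 0 + z) y)) (hf.comp (hcons2 y)) M (by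
          intro z hz
          have e1 : (Fin.cons (x 0 + z) y : Fin (n+1) → ℂ) = x + Fin.cons z w := by
            funext i; refine Fin.cases ?_ (fun j => ?_) i
            · simp
            · simp [hy]
          have e2 : P.eval z = MvPolynomial.eval (x + Fin.cons z w) q := by
            rw [← e1, MvPolynomial.eval_eq_eval_mv_eval', hP, Polynomial.eval_comp]
            simp [hQdef, add_comm]
          rw [e2, e1]
          refine hM _ ?_
          rw [pi_norm_le_iff_of_nonneg zero_le_one]
          intro i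
          refine Fin.cases ?_ (fun j => ?_) i
          · simp [hz]
          · simpa using (norm_le_pi_norm w j).trans hw)
        rw [hlcP] at h
        rw [norm_mul]
        simpa using h)
    rw [hx]
    exact key

theorem tDiv : S_Div := by
  intro n q f hq hf ⟨C, N, hC⟩
  obtain ⟨c, hc, hcl⟩ := claim n q hq
  refine ⟨|C| * 2 ^ N / c, N, fun x => ?_⟩
  have h := hcl f hf x (|C| * (2 * (1 + ‖x‖)) ^ N) (by
    intro w hw
    refine (hC (x + w)).trans ?_
    have h1 : 1 + ‖x + w‖ ≤ 2 * (1 + ‖x‖) := by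
      have := norm_add_le x w
      nlinarith [norm_nonneg x]
    have h2 : (1 + ‖x + w‖) ^ N ≤ (2 * (1 + ‖x‖)) ^ N := pow_le_pow_left₀ (by positivity) h1 N
    calc C * (1 + ‖x + w‖) ^ N ≤ |C| * (1 + ‖x + w‖) ^ N := mul_le_mul_of_nonneg_right (le_abs_self C) (by positivity)
      _ ≤ |C| * (2 * (1 + ‖x‖)) ^ N := mul_le_mul_of_nonneg_left h2 (abs_nonneg C))
  rw [div_mul_eq_mul_div, le_div_iff₀ hc]
  calc ‖f x‖ * c = c * ‖f x‖ := mul_comm _ _
    _ ≤ |C| * (2 * (1 + ‖x‖)) ^ N := h
    _ = |C| * 2 ^ N * (1 + ‖x‖) ^ N := by rw [mul_pow]; ring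

end Pool.Agent.IK
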