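import Pool.Agent.Lib.IK.Spec

/-!
# Iitaka's conjecture: an entire function of polynomial growth is a polynomial (helper1)
-/

set_option autoImplicit false

noncomputable section

namespace Pool.Agent.IK

open Filter Topology

private theorem one_var (f : ℂ → ℂ) (hf : Differentiable ℂ f) (C : ℝ) (N : ℕ)
    (hC : ∀ z, ‖f z‖ ≤ C * (1 + ‖z‖) ^ N) :
    ∃ p : Polynomial ℂ, p.degree < ((N + 1 : ℕ) : WithBot ℕ) ∧ ∀ z, f z = p.eval z := by
  have hC0 : 0 ≤ C := by
    have h := hC 0
    rw [norm_zero, add_zero, one_pow, mul_one] at h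
    exact (norm_nonneg _).trans h
  have hz : ∀ n : ℕ, N < n → iteratedDeriv n f 0 = 0 := by
    intro n hn
    by_contra hne
    set a : ℝ := ‖iteratedDeriv n f 0‖ with ha
    have ha0 : 0 < a := norm_pos_iff.2 hne
    set K : ℝ := n.factorial * (C * 2 ^ N) with hK
    have hK0 : 0 ≤ K := by positivity
    have hR : ∀ R : ℝ, 1 ≤ R → a * R ≤ K := by
      intro R hR1
      have hR0 : 0 < R := by linarith
      have h1 : a ≤ n.factorial * (C * (1 + R) ^ N) / R ^ n := by
        refine Complex.norm_iteratedDeriv_le_of_forall_mem_sphere_norm_le n hR0 hf.diffContOnCl ?_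
        intro z hz
        have h2 : ‖z‖ = R := by
          rw [mem_sphere_iff_norm, sub_zero] at hz
          exact hz
        have h3 := hC z
        rw [h2] at h3
        exact h3
      rw [le_div_iff₀ (by positivity)] at h1
      have h4 : (1 + R) ^ N ≤ 2 ^ N * R ^ N := by
        rw [← mul_pow]
        exact pow_le_pow_left₀ (by linarith) (by linarith) N
      have h5 : R ^ N * R ≤ R ^ n := by
        rw [← pow_succ]
        exact pow_le_pow_right₀ hR1 hn
      have h6 : a * (R ^ N * R) ≤ K * R ^ N := by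
        calc a * (R ^ N * R) ≤ a * R ^ n := mul_le_mul_of_nonneg_left h5 ha0.le
          _ ≤ n.factorial * (C * (1 + R) ^ N) := h1
          _ ≤ n.factorial * (C * (2 ^ N * R ^ N)) := by
              refine mul_le_mul_of_nonneg_left (mul_le_mul_of_nonneg_left h4 hC0) (by positivity)
          _ = K * R ^ N := by rw [hK]; ring
      have h7 : 0 < R ^ N := by positivity
      refine le_of_mul_le_mul_right ?_ h7
      calc a * R * R ^ N = a * (R ^ N * R) := by ring
        _ ≤ K * R ^ N := h6
    have h8 := hR (K / a + 1) (by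
      have : 0 ≤ K / a := by positivity
      linarith)
    have h9 : a * (K / a + 1) = K + a := by
      field_simp
    linarith
  refine ⟨∑ n ∈ Finset.range (N + 1), Polynomial.monomial n
    ((n.factorial : ℂ)⁻¹ * iteratedDeriv n f 0), ?_, ?_⟩
  · rw [Polynomial.degree_lt_iff_coeff_zero]
    intro m hm
    rw [Polynomial.finsetSum_coeff]
    refine Finset.sum_eq_zero fun n hn => ?_
    rw [Polynomial.coeff_monomial, if_neg]
    intro h
    rw [h] at hn
    exact absurd (Finset.mem_range.1 hn) (by omega)
  · intro z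
    have h1 := Complex.taylorSeries_eq_of_entire' (c := 0) (z := z) hf
    rw [← h1, tsum_eq_sum (s := Finset.range (N + 1))]
    · rw [Polynomial.eval_finsetSum]
      refine Finset.sum_congr rfl fun n _ => ?_
      rw [Polynomial.eval_monomial, sub_zero]
    · intro n hn
      have h2 : N < n := by
        by_contra h3
        exact hn (Finset.mem_range.2 (by omega))
      rw [hz n h2, mul_zero, zero_mul]

/-- The Lagrange polynomials. -/
private def Lb (N j : ℕ) : Polynomial ℂ := Lagrange.basis (Finset.range (N + 1)) (fun i : ℕ => (i : ℂ)) j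

private theorem one_var' (f : ℂ → ℂ) (hf : Differentiable ℂ f) (C : ℝ) (N : ℕ)
    (hC : ∀ z, ‖f z‖ ≤ C * (1 + ‖z‖) ^ N) (z : ℂ) :
    f z = ∑ j ∈ Finset.range (N + 1), f (j : ℂ) * (Lb N j).eval z := by
  obtain ⟨p, hp, hpf⟩ := one_var f hf C N hC
  have h1 : p = Lagrange.interpolate (Finset.range (N + 1)) (fun i : ℕ => (i : ℂ)) fun i => p.eval (i : ℂ) := by
    refine Lagrange.eq_interpolate (fun a _ b _ h => Nat.cast_injective h) ?_
    rw [Finset.card_range]
    exact hp
  rw [hpf z]
  conv_lhs => rw [h1]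
  rw [Lagrange.interpolate_apply, Polynomial.eval_finsetSum]
  refine Finset.sum_congr rfl fun j _ => ?_
  rw [Polynomial.eval_mul, Polynomial.eval_C, hpf]
  rfl

private theorem cons_norm {n : ℕ} (z : ℂ) (x : Fin n → ℂ) :
    1 + ‖(Fin.cons z x : Fin (n + 1) → ℂ)‖ ≤ (1 + ‖z‖) * (1 + ‖x‖) := by
  have h1 : ‖(Fin.cons z x : Fin (n + 1) → ℂ)‖ ≤ ‖z‖ + ‖x‖ := by
    rw [pi_norm_le_iff_of_nonneg (by positivity)]
    intro i
    refine Fin.cases ?_ (fun i => ?_) i
    · rw [Fin.cons_zero]
      linarith [norm_nonneg x]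
    · rw [Fin.cons_succ]
      linarith [norm_le_pi_norm x i, norm_nonneg z]
  have h2 : 0 ≤ ‖z‖ * ‖x‖ := by positivity
  linarith

private theorem ev_aeval {n : ℕ} (x : Fin (n + 1) → ℂ) (L : Polynomial ℂ) :
    MvPolynomial.eval x (Polynomial.aeval (MvPolynomial.X 0 : MvPolynomial (Fin (n + 1)) ℂ) L) = L.eval (x 0) := by
  rw [Polynomial.aeval_def, Polynomial.hom_eval₂, MvPolynomial.eval_X]
  have h : (MvPolynomial.eval x).comp (algebraMap ℂ (MvPolynomial (Fin (n + 1)) ℂ)) = RingHom.id ℂ := by
    ext a
    simp [MvPolynomial.algebraMap_eq]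
  rw [h, Polynomial.eval₂_id]

theorem tEntP : S_EntP := by
  intro n
  induction n with
  | zero =>
    intro f _ _
    refine ⟨MvPolynomial.C (f 0), fun x => ?_⟩
    rw [MvPolynomial.eval_C, Subsingleton.elim x 0]
  | succ n ih =>
    intro f hf hg
    obtain ⟨C, N, hC⟩ := hg
    have hC0 : 0 ≤ C := by
      have h := hC 0
      simp only [norm_zero, add_zero, one_pow, mul_one] at h
      exact (norm_nonneg _).trans h
    have hj : ∀ j : ℕ, ∃ p : MvPolynomial (Fin n) ℂ, ∀ x, f (Fin.cons (j : ℂ) x) = MvPolynomial.eval x p := by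
      intro j
      refine ih (fun x => f (Fin.cons (j : ℂ) x)) (hf.comp ?_) ⟨C * (1 + j) ^ N, N, fun x => ?_⟩
      · refine differentiable_pi.2 fun i => ?_
        refine Fin.cases ?_ (fun i => ?_) i
        · simp only [Fin.cons_zero]
          exact differentiable_const _
        · simp only [Fin.cons_succ]
          exact differentiable_apply i
      · refine (hC _).trans ?_
        rw [mul_assoc, ← mul_pow]
        refine mul_le_mul_of_nonneg_left (pow_le_pow_left₀ (by positivity) ?_ N) hC0
        have h := cons_norm (j : ℂ) x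
        rwa [Complex.norm_natCast] at h
    choose p hp using hj
    refine ⟨∑ j ∈ Finset.range (N + 1), MvPolynomial.rename Fin.succ (p j) *
      Polynomial.aeval (MvPolynomial.X 0 : MvPolynomial (Fin (n + 1)) ℂ) (Lb N j), fun x => ?_⟩
    have h1 := one_var' (fun z => f (Fin.cons z (Fin.tail x))) (hf.comp (by
      refine differentiable_pi.2 fun i => ?_
      refine Fin.cases ?_ (fun i => ?_) i
      · simp only [Fin.cons_zero]
        exact differentiable_id
      · simp only [Fin.cons_succ]
        exact differentiable_const _)) (C * (1 + ‖Fin.tail x‖) ^ N) N (fun z => by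
      refine (hC _).trans ?_
      rw [mul_assoc, ← mul_pow]
      refine mul_le_mul_of_nonneg_left (pow_le_pow_left₀ (by positivity) ?_ N) hC0
      have h := cons_norm z (Fin.tail x)
      rwa [mul_comm] at h) (x 0)
    simp only [Fin.cons_self_tail] at h1
    rw [h1, map_sum]
    refine Finset.sum_congr rfl fun j _ => ?_
    rw [map_mul, MvPolynomial.eval_rename, ev_aeval, hp]
    rfl

end Pool.Agent.IK
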