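import Pool.Agent.Lib.IK.Spec

/-!
# Entire functions of finite lower order whose real part is bounded above by a power (author helper69)
-/

set_option autoImplicit false

noncomputable section

open Filter Topology

namespace Pool.Agent.IK

variable {n : ℕ}

/-- Borel-Caratheodory on a ball -/
theorem bcR {f : (Fin n → ℂ) → ℂ} (hf : Differentiable ℂ f) {R M : ℝ} (hM : 0 < M)
    (h : ∀ x, ‖x‖ ≤ R → (f x).re ≤ M) {x : Fin n → ℂ} (hx : ‖x‖ ≤ R / 2) : ‖f x‖ ≤ 2 * M + 3 * ‖f 0‖ := by
  have hd : DifferentiableOn ℂ (fun z : ℂ => f (z • x)) (Metric.ball 0 2) :=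
    (hf.comp (differentiable_id.smul_const x)).differentiableOn
  have hm : Set.MapsTo (fun z : ℂ => f (z • x)) (Metric.ball 0 2) {z | z.re ≤ M} := by
    intro z hz
    have hz1 : ‖z‖ < 2 := mem_ball_zero_iff.1 hz
    refine h _ ?_
    rw [norm_smul]
    nlinarith [norm_nonneg x, norm_nonneg z]
  have h6 := Complex.borelCaratheodory hM hd hm two_pos
    (mem_ball_zero_iff.2 (by norm_num : ‖(1 : ℂ)‖ < 2))
  simp only [one_smul, zero_smul, norm_one] at h6
  refine h6.trans (le_of_eq ?_)
  ring

/-- an entire function of finite lower order with a bound for the real part has polynomial growth -/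
theorem low {f : (Fin n → ℂ) → ℂ} (hf : Differentiable ℂ f) {N : ℕ}
    (h : ∃ᶠ R : ℝ in atTop, ∀ x, ‖x‖ ≤ R → (f x).re ≤ R ^ N) : PG fun x => ‖f x‖ := by
  obtain ⟨M1, hM1⟩ := (isCompact_closedBall (0 : Fin n → ℂ) 1).exists_bound_of_continuousOn hf.continuous.continuousOn
  have hM10 : 0 ≤ M1 := (norm_nonneg _).trans (hM1 0 (by simp))
  have hFd : ∀ u : Fin n → ℂ, Differentiable ℂ fun z : ℂ => f (z • u) := fun u => hf.comp (differentiable_id.smul_const u)
  set K : ℝ := 2 + 3 * ‖f 0‖ with hK
  have hK0 : 0 < K := by positivity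
  have hvan : ∀ u : Fin n → ℂ, ‖u‖ ≤ 1 → ∀ k, N < k → iteratedDeriv k (fun z : ℂ => f (z • u)) 0 = 0 := by
    intro u hu k hk
    by_contra hne
    set a : ℝ := ‖iteratedDeriv k (fun z : ℂ => f (z • u)) 0‖ with ha
    have ha0 : 0 < a := norm_pos_iff.2 hne
    obtain ⟨R, hR, hR2⟩ := (h.and_eventually (eventually_gt_atTop (max 1 (k.factorial * K * 2 ^ k / a)))).exists
    have hR1 : 1 < R := lt_of_le_of_lt (le_max_left _ _) hR2
    have hR3 : k.factorial * K * 2 ^ k / a < R := lt_of_le_of_lt (le_max_right _ _) hR2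
    have hR0 : 0 < R := by linarith
    have hRN : (1 : ℝ) ≤ R ^ N := one_le_pow₀ hR1.le
    have h1 : ∀ y : Fin n → ℂ, ‖y‖ ≤ R / 2 → ‖f y‖ ≤ K * R ^ N := by
      intro y hy
      refine (bcR hf (by positivity) hR hy).trans ?_
      have := norm_nonneg (f 0)
      rw [hK]
      nlinarith
    have h2 : a ≤ k.factorial * (K * R ^ N) / (R / 2) ^ k := by
      refine Complex.norm_iteratedDeriv_le_of_forall_mem_sphere_norm_le k (by positivity) (hFd u).diffContOnCl ?_
      intro z hz
      refine h1 _ ?_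
      rw [norm_smul, mem_sphere_zero_iff_norm.1 hz]
      nlinarith
    rw [le_div_iff₀ (by positivity), div_pow, mul_div_assoc', div_le_iff₀ (by positivity)] at h2
    have h3 : R ^ N * R ≤ R ^ k := by
      rw [← pow_succ]
      exact pow_le_pow_right₀ hR1.le hk
    have h4 : a * R * R ^ N ≤ k.factorial * K * 2 ^ k * R ^ N := by
      calc a * R * R ^ N = a * (R ^ N * R) := by ring
        _ ≤ a * R ^ k := mul_le_mul_of_nonneg_left h3 ha0.le
        _ ≤ k.factorial * (K * R ^ N) * 2 ^ k := h2
        _ = k.factorial * K * 2 ^ k * R ^ N := by ring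
    have h5 : a * R ≤ k.factorial * K * 2 ^ k := le_of_mul_le_mul_right h4 (by positivity)
    rw [div_lt_iff₀ ha0] at hR3
    linarith
  refine ⟨(N + 1) * M1, N, fun x => ?_⟩
  have key : ∀ u : Fin n → ℂ, ‖u‖ ≤ 1 → ∀ r : ℝ, 0 ≤ r → ‖f ((r : ℂ) • u)‖ ≤ (N + 1) * M1 * (1 + r) ^ N := by
    intro u hu r hr
    have h1 := Complex.taylorSeries_eq_of_entire' (c := 0) (z := (r : ℂ)) (hFd u)
    rw [tsum_eq_sum (s := Finset.range (N + 1))] at h1
    · rw [← h1]
      refine (norm_sum_le _ _).trans ?_
      calc ∑ k ∈ Finset.range (N + 1), ‖((k.factorial : ℂ))⁻¹ * iteratedDeriv k (fun z : ℂ => f (z • u)) 0 * ((r : ℂ) - 0) ^ k‖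
          ≤ ∑ k ∈ Finset.range (N + 1), M1 * (1 + r) ^ N := by
            refine Finset.sum_le_sum fun k hk => ?_
            rw [sub_zero, norm_mul, norm_mul, norm_inv, norm_pow, Complex.norm_natCast, Complex.norm_of_nonneg hr]
            have h2 : ‖iteratedDeriv k (fun z : ℂ => f (z • u)) 0‖ ≤ k.factorial * M1 / 1 ^ k := by
              refine Complex.norm_iteratedDeriv_le_of_forall_mem_sphere_norm_le k one_pos (hFd u).diffContOnCl ?_
              intro z hz
              refine hM1 _ ?_
              rw [mem_closedBall_zero_iff, norm_smul, mem_sphere_zero_iff_norm.1 hz, one_mul]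
              exact hu
            rw [one_pow, div_one] at h2
            have h3 : ((k.factorial : ℝ))⁻¹ * ‖iteratedDeriv k (fun z : ℂ => f (z • u)) 0‖ ≤ M1 := by
              rw [inv_mul_le_iff₀ (by positivity)]
              exact h2
            have h4 : r ^ k ≤ (1 + r) ^ N :=
              (pow_le_pow_left₀ hr (by linarith) k).trans
                (pow_le_pow_right₀ (by linarith) (by have := Finset.mem_range.1 hk; omega))
            exact mul_le_mul h3 h4 (by positivity) hM10
        _ = (N + 1) * M1 * (1 + r) ^ N := by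
          rw [Finset.sum_const, Finset.card_range, nsmul_eq_mul]
          push_cast
          ring
    · intro k hk
      rw [hvan u hu k (by have := mt Finset.mem_range.2 hk; omega)]
      ring
  by_cases hx : x = 0
  · have h1 := key 0 (by simp) 0 le_rfl
    simp only [smul_zero, hx, norm_zero] at h1 ⊢
    exact h1
  · have hn : 0 < ‖x‖ := norm_pos_iff.2 hx
    have h1 := key (((‖x‖⁻¹ : ℝ) : ℂ) • x) (by
      rw [norm_smul, Complex.norm_of_nonneg (by positivity), inv_mul_cancel₀ hn.ne']) ‖x‖ hn.le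
    rw [smul_smul, ← Complex.ofReal_mul, mul_inv_cancel₀ hn.ne', Complex.ofReal_one, one_smul] at h1
    exact h1

end Pool.Agent.IK
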