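import Pool.Agent.Lib.IK.NoC
import Pool.Agent.Lib.IK.Low

/-!
# Part (B): polynomial multipliers (author helper69)
-/

set_option autoImplicit false

noncomputable section

open Filter Topology Laplacian

namespace Pool.Agent.IK

variable {n : ℕ}

theorem polPG (p : MvPolynomial (Fin n) ℂ) :
    ∃ C : ℝ, 0 ≤ C ∧ ∃ N : ℕ, ∀ x : Fin n → ℂ, ‖MvPolynomial.eval x p‖ ≤ C * (1 + ‖x‖) ^ N := by
  induction p using MvPolynomial.induction_on with
  | C a => exact ⟨‖a‖, norm_nonneg a, 0, fun x => by simp⟩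
  | add p q hp hq =>
    obtain ⟨C, hC, N, h1⟩ := hp
    obtain ⟨D, hD, M, h2⟩ := hq
    refine ⟨C + D, add_nonneg hC hD, N + M, fun x => ?_⟩
    have h3 : 1 ≤ 1 + ‖x‖ := by linarith [norm_nonneg x]
    rw [map_add]
    calc ‖MvPolynomial.eval x p + MvPolynomial.eval x q‖
        ≤ ‖MvPolynomial.eval x p‖ + ‖MvPolynomial.eval x q‖ := norm_add_le _ _
      _ ≤ C * (1 + ‖x‖) ^ N + D * (1 + ‖x‖) ^ M := add_le_add (h1 x) (h2 x)
      _ ≤ C * (1 + ‖x‖) ^ (N + M) + D * (1 + ‖x‖) ^ (N + M) := by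
        gcongr
        · omega
        · omega
      _ = (C + D) * (1 + ‖x‖) ^ (N + M) := by ring
  | mul_X p i hp =>
    obtain ⟨C, hC, N, h1⟩ := hp
    refine ⟨C, hC, N + 1, fun x => ?_⟩
    rw [map_mul, MvPolynomial.eval_X, norm_mul, pow_succ, ← mul_assoc]
    have h2 : ‖x i‖ ≤ 1 + ‖x‖ := by
      have := norm_le_pi_norm x i
      linarith
    have h3 : 0 ≤ 1 + ‖x‖ := by linarith [norm_nonneg x]
    exact mul_le_mul (h1 x) h2 (norm_nonneg _) (by positivity)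

theorem evPG (G : Fin n → MvPolynomial (Fin n) ℂ) :
    ∃ C : ℝ, 0 ≤ C ∧ ∃ N : ℕ, ∀ x : Fin n → ℂ, ‖ev G x‖ ≤ C * (1 + ‖x‖) ^ N := by
  choose C hC N hN using fun i => polPG (G i)
  refine ⟨∑ i, C i, Finset.sum_nonneg fun i _ => hC i, ∑ i, N i, fun x => ?_⟩
  have h3 : 1 ≤ 1 + ‖x‖ := by linarith [norm_nonneg x]
  refine (pi_norm_le_iff_of_nonneg (mul_nonneg (Finset.sum_nonneg fun i _ => hC i) (by positivity))).2 fun i => ?_
  calc ‖ev G x i‖ ≤ C i * (1 + ‖x‖) ^ N i := hN i x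
    _ ≤ (∑ i, C i) * (1 + ‖x‖) ^ (∑ i, N i) := by
      gcongr
      · exact Finset.sum_nonneg fun i _ => hC i
      · exact Finset.single_le_sum (fun j _ => hC j) (Finset.mem_univ i)
      · exact Finset.single_le_sum (fun j _ => Nat.zero_le _) (Finset.mem_univ i)

theorem re_zero {f : (Fin n → ℂ) → ℂ} (hf : Differentiable ℂ f) (h : ∀ x, (f x).re = 0) : ∃ c, ∀ x, f x = c := by
  have hne : ∀ x, 1 + f x ≠ 0 := by
    intro x hx
    have h1 := congrArg Complex.re hx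
    rw [Complex.add_re, h x, Complex.one_re, Complex.zero_re] at h1
    norm_num at h1
  have hd : Differentiable ℂ fun x => (1 + f x)⁻¹ := fun x => ((differentiableAt_const _).add (hf x)).inv (hne x)
  have hb : Bornology.IsBounded (Set.range fun x => (1 + f x)⁻¹) := by
    refine (Metric.isBounded_iff_subset_closedBall 0).2 ⟨1, ?_⟩
    rintro _ ⟨x, rfl⟩
    rw [mem_closedBall_zero_iff, norm_inv]
    refine inv_le_one_of_one_le₀ ?_
    have h1 := Complex.abs_re_le_norm (1 + f x)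
    rw [Complex.add_re, h x, Complex.one_re, add_zero, abs_one] at h1
    exact h1
  obtain ⟨c, hc⟩ := hd.exists_const_forall_eq_of_bounded hb
  refine ⟨c⁻¹ - 1, fun x => ?_⟩
  rw [← hc x, inv_inv]
  ring

/-- **Part (B).** -/
theorem partB (hAlg : S_AlgB) (hDer : S_Der) (hInv : S_Inv) (hEnt : S_EntP) (hDiv : S_Div) (hJac : S_Jac1)
    {Γ : Type*} [Group Γ] [MulAction Γ (Fin n → ℂ)]
    (hol : ∀ γ : Γ, Differentiable ℂ fun x : Fin n → ℂ => γ • x) {K : Set (Fin n → ℂ)} (hKc : IsCompact K)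
    (hcov : ∀ x : Fin n → ℂ, ∃ γ : Γ, γ • x ∈ K) {φ : (Fin n → ℂ) → ℝ} (hφ : ContDiff ℝ 2 φ)
    (hpsh : ∀ x v : Fin n → ℂ, v ≠ 0 → 0 < levi φ x v)
    (hkah : ∀ γ : Γ, ∃ f : (Fin n → ℂ) → ℂ, Differentiable ℂ f ∧ ∀ x, φ (γ • x) - φ x = (f x).re)
    (hgr : ∀ γ : Γ, ∃ N : ℕ, ∃ᶠ R : ℝ in atTop, (∀ x : Fin n → ℂ, ‖x‖ ≤ R → φ (γ • x) - φ x ≤ R ^ N) ∨
      ∀ x : Fin n → ℂ, ‖x‖ ≤ R → φ x - φ (γ • x) ≤ R ^ N) (δ : Γ) :
    ∃ P : Fin n → MvPolynomial (Fin n) ℂ, (∀ x : Fin n → ℂ, δ • x = ev P x) ∧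
      ∃ c : ℂ, c ≠ 0 ∧ (jac P).det = MvPolynomial.C c := by
  -- the multipliers are polynomials
  have hpol : ∀ γ : Γ, ∃ p : MvPolynomial (Fin n) ℂ, ∀ x, φ (γ • x) - φ x = (MvPolynomial.eval x p).re := by
    intro γ
    obtain ⟨f, hf, hf2⟩ := hkah γ
    obtain ⟨N, hN⟩ := hgr γ
    have h1 : PG fun x => ‖f x‖ := by
      rcases frequently_or_distrib.1 hN with h | h
      · refine low hf (N := N) (h.mono fun R hR x hx => ?_)
        rw [← hf2]
        exact hR x hx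
      · have h2 : PG fun x => ‖-f x‖ := by
          refine low hf.neg (N := N) (h.mono fun R hR x hx => ?_)
          rw [Complex.neg_re, ← hf2, neg_sub]
          exact hR x hx
        simpa only [norm_neg] using h2
    obtain ⟨p, hp⟩ := hEnt n f hf h1
    exact ⟨p, fun x => by rw [hf2, hp]⟩
  choose p hp using hpol
  obtain ⟨Ψ, hJ, h⟩ := sel (Set.range p)
  have hall : ∀ i, Ψ i ∈ Set.range p := by
    rcases h with h | ⟨i0, h0⟩
    · exact h
    · refine (noCurve hAlg hDer hInv hol hKc hcov hφ hpsh Ψ hJ i0 fun γ x g hx g1 g2 g3 => ?_).elim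
      have hx2 : MvPolynomial.eval (g (ev Ψ x i0)) (jac Ψ).det ≠ 0 := by
        rw [g2]
        exact hx
      filter_upwards [locp hDer Ψ i0 (h0 (p γ) ⟨γ, rfl⟩) (ev Ψ x) hx2 g1 g3] with s hs
      rw [hp, hp, hs, g2]
  choose γ0 hγ0 using hall
  have hpd : ∀ q : MvPolynomial (Fin n) ℂ, Differentiable ℂ fun x => MvPolynomial.eval x q :=
    fun q x => (hDer n q x).hasFDerivAt.differentiableAt
  -- every element is polynomial
  have main : ∀ δ : Γ, ∃ P : Fin n → MvPolynomial (Fin n) ℂ, ∀ x : Fin n → ℂ, δ • x = ev P x := by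
    intro δ
    have hG : ∀ i, ∃ q : MvPolynomial (Fin n) ℂ, ∀ x, MvPolynomial.eval (δ • x) (Ψ i) = MvPolynomial.eval x q := by
      intro i
      have h1 : Differentiable ℂ fun x : Fin n → ℂ =>
          MvPolynomial.eval (δ • x) (Ψ i) - (MvPolynomial.eval x (p (γ0 i * δ)) - MvPolynomial.eval x (p δ)) := by
        refine Differentiable.sub ?_ ((hpd _).sub (hpd _))
        exact (hpd (Ψ i)).comp (hol δ)
      obtain ⟨c, hc⟩ := re_zero h1 fun x => by
        rw [Complex.sub_re, Complex.sub_re, ← hγ0 i, ← hp (γ0 i), ← hp (γ0 i * δ), ← hp δ, mul_smul]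
        ring
      refine ⟨p (γ0 i * δ) - p δ + MvPolynomial.C c, fun x => ?_⟩
      rw [map_add, map_sub, MvPolynomial.eval_C, ← hc x]
      ring
    choose G hG2 using hG
    have hevG : ∀ x : Fin n → ℂ, ev Ψ (δ • x) = ev G x := fun x => funext fun i => hG2 i x
    obtain ⟨B, hB0, -, hBx⟩ := hAlg n Ψ hJ
    obtain ⟨a, ha⟩ : ∃ a, MvPolynomial.eval (ev Ψ a) B ≠ 0 := by
      by_contra h
      push Not at h
      refine hB0 (MvPolynomial.funext fun x => ?_)
      rw [bind_eval, h x, map_zero]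
    set q := MvPolynomial.bind₁ G B with hq
    have hq0 : q ≠ 0 := by
      intro h
      apply ha
      have h1 := bind_eval B G (δ⁻¹ • a)
      rw [← hq, h, map_zero, ← hevG, smul_inv_smul] at h1
      exact h1.symm
    obtain ⟨C1, hC1, N1, h1⟩ := evPG G
    have hcoord : ∀ i, ∃ r : MvPolynomial (Fin n) ℂ, ∀ x : Fin n → ℂ, (δ • x) i = MvPolynomial.eval x r := by
      intro i
      have hd : Differentiable ℂ fun x : Fin n → ℂ => (δ • x) i := by
        exact (differentiable_pi.1 (hol δ)) i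
      refine hEnt n _ hd (hDiv n q _ hq0 hd ?_)
      obtain ⟨C, N, hCN⟩ := hBx i
      refine ⟨|C| * (1 + C1) ^ N, N1 * N, fun x => ?_⟩
      have h3 : 1 ≤ 1 + ‖x‖ := by linarith [norm_nonneg x]
      have h4 : 1 + ‖ev G x‖ ≤ (1 + C1) * (1 + ‖x‖) ^ N1 := by
        have h5 : 1 ≤ (1 + ‖x‖) ^ N1 := one_le_pow₀ h3
        have h6 := h1 x
        nlinarith
      calc ‖MvPolynomial.eval x q * (δ • x) i‖ = ‖MvPolynomial.eval (ev Ψ (δ • x)) B‖ * ‖(δ • x) i‖ := by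
            rw [norm_mul, hq, bind_eval, hevG]
        _ ≤ C * (1 + ‖ev Ψ (δ • x)‖) ^ N := hCN _
        _ ≤ |C| * ((1 + C1) * (1 + ‖x‖) ^ N1) ^ N := by
            rw [hevG]
            have h7 : 0 ≤ (1 + ‖ev G x‖) ^ N := by positivity
            refine (mul_le_mul_of_nonneg_right (le_abs_self C) h7).trans ?_
            gcongr
        _ = |C| * (1 + C1) ^ N * (1 + ‖x‖) ^ (N1 * N) := by
            rw [mul_pow, ← pow_mul]
            ring
    choose P hP using hcoord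
    exact ⟨P, fun x => funext fun i => hP i x⟩
  obtain ⟨P, hP⟩ := main δ
  obtain ⟨Q, hQ⟩ := main δ⁻¹
  refine ⟨P, hP, hJac n P Q (fun x => ?_) fun x => ?_⟩
  · rw [← hQ, ← hP, smul_inv_smul]
  · rw [← hP, ← hQ, inv_smul_smul]

end Pool.Agent.IK
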