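import Pool.Agent.Lib.IK.LevInv

/-!
# The complex Hessian matrix (author helper69)
-/

set_option autoImplicit false

noncomputable section

open Filter Topology
open scoped ComplexConjugate

namespace Pool.Agent.IK

variable {n : ℕ}

/-- the complex Hessian matrix: the entry `(j, k)` is `∂²f/∂z̄_j∂z_k` -/
def hes (f : (Fin n → ℂ) → ℝ) (x : Fin n → ℂ) : Matrix (Fin n) (Fin n) ℂ :=
  Matrix.of fun j k => (1 / 4 : ℂ) *
    (((fderiv ℝ (fderiv ℝ f) x (Pi.single j 1) (Pi.single k 1) +
        fderiv ℝ (fderiv ℝ f) x (Complex.I • Pi.single j 1) (Complex.I • Pi.single k 1) : ℝ) : ℂ) +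
      Complex.I * ((fderiv ℝ (fderiv ℝ f) x (Complex.I • Pi.single j 1) (Pi.single k 1) -
        fderiv ℝ (fderiv ℝ f) x (Pi.single j 1) (Complex.I • Pi.single k 1) : ℝ) : ℂ))

/-- the sesquilinear form -/
def sq (B : (Fin n → ℂ) →L[ℝ] (Fin n → ℂ) →L[ℝ] ℝ) (v w : Fin n → ℂ) : ℂ :=
  ((B v w + B (Complex.I • v) (Complex.I • w) : ℝ) : ℂ) +
    Complex.I * ((B (Complex.I • v) w - B v (Complex.I • w) : ℝ) : ℂ)

theorem II (v : Fin n → ℂ) : Complex.I • (Complex.I • v) = -v := by
  rw [smul_smul, Complex.I_mul_I, neg_smul, one_smul]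

theorem csmul (c : ℂ) (v : Fin n → ℂ) : c • v = (c.re : ℝ) • v + (c.im : ℝ) • (Complex.I • v) := by
  funext i
  simp only [Pi.smul_apply, Pi.add_apply, smul_eq_mul, Complex.real_smul]
  conv_lhs => rw [← Complex.re_add_im c]
  ring

variable (B : (Fin n → ℂ) →L[ℝ] (Fin n → ℂ) →L[ℝ] ℝ)

theorem sq_add_right (v w w' : Fin n → ℂ) : sq B v (w + w') = sq B v w + sq B v w' := by
  unfold sq
  simp only [smul_add, map_add]
  push_cast
  ring

theorem sq_add_left (v v' w : Fin n → ℂ) : sq B (v + v') w = sq B v w + sq B v' w := by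
  unfold sq
  simp only [smul_add, map_add, add_apply]
  push_cast
  ring

theorem sq_smul_right (c : ℂ) (v w : Fin n → ℂ) : sq B v (c • w) = c * sq B v w := by
  have h : Complex.I • (c • w) = (c.re : ℝ) • (Complex.I • w) + (-c.im : ℝ) • w := by
    rw [csmul c w, smul_add, smul_comm Complex.I, smul_comm Complex.I (c.im : ℝ), II]
    simp
  unfold sq
  rw [h, csmul c w]
  simp only [map_add, map_smul, smul_eq_mul]
  have hc : c = c.re + c.im * Complex.I := (Complex.re_add_im c).symm
  conv_rhs => rw [hc]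
  push_cast
  linear_combination (-(c.im : ℂ) * (B (Complex.I • v) w - B v (Complex.I • w))) * Complex.I_mul_I

theorem sq_smul_left (c : ℂ) (v w : Fin n → ℂ) : sq B (c • v) w = conj c * sq B v w := by
  have h : Complex.I • (c • v) = (c.re : ℝ) • (Complex.I • v) + (-c.im : ℝ) • v := by
    rw [csmul c v, smul_add, smul_comm Complex.I, smul_comm Complex.I (c.im : ℝ), II]
    simp
  unfold sq
  rw [h, csmul c v]
  simp only [map_add, map_smul, smul_eq_mul, add_apply, smul_apply]
  have hc : conj c = c.re - c.im * Complex.I := by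
    apply Complex.ext <;> simp
  rw [hc]
  push_cast
  linear_combination ((c.im : ℂ) * (B (Complex.I • v) w - B v (Complex.I • w))) * Complex.I_mul_I

theorem sq_sum (v w : Fin n → ℂ) :
    sq B v w = ∑ j, ∑ k, conj (v j) * (sq B (Pi.single j 1) (Pi.single k 1) * w k) := by
  have h1 : ∀ v' : Fin n → ℂ, sq B v' w = ∑ k, sq B v' (Pi.single k 1) * w k := by
    intro v'
    let F : (Fin n → ℂ) →ₗ[ℂ] ℂ :=
      { toFun := sq B v'
        map_add' := sq_add_right B v'
        map_smul' := fun c w => sq_smul_right B c v' w }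
    have h2 := F.pi_apply_eq_sum_univ w
    rw [show sq B v' w = F w from rfl, h2]
    refine Finset.sum_congr rfl fun k _ => ?_
    rw [smul_eq_mul, mul_comm]
    congr 1
    change sq B v' _ = sq B v' _
    congr 1
    funext i
    simp [Pi.single_apply, eq_comm]
  have h3 : ∀ w' : Fin n → ℂ, sq B v w' = ∑ j, conj (v j) * sq B (Pi.single j 1) w' := by
    intro w'
    let F : (Fin n → ℂ) →ₗ[ℂ] ℂ :=
      { toFun := fun v => conj (sq B v w')
        map_add' := fun v v' => by rw [sq_add_left, map_add]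
        map_smul' := fun c v => by
          rw [sq_smul_left, map_mul, Complex.conj_conj]
          rfl }
    have h2 := F.pi_apply_eq_sum_univ v
    have h4 := congrArg conj h2
    rw [show F v = conj (sq B v w') from rfl, Complex.conj_conj] at h4
    rw [h4, map_sum]
    refine Finset.sum_congr rfl fun j _ => ?_
    rw [smul_eq_mul, map_mul]
    congr 1
    change conj (conj (sq B _ w')) = _
    rw [Complex.conj_conj]
    congr 1
    funext i
    simp [Pi.single_apply, eq_comm]
  rw [h3]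
  refine Finset.sum_congr rfl fun j _ => ?_
  rw [h1, Finset.mul_sum]

theorem hes_apply (f : (Fin n → ℂ) → ℝ) (x v w : Fin n → ℂ) :
    star v ⬝ᵥ (hes f x).mulVec w = (1 / 4 : ℂ) * sq (fderiv ℝ (fderiv ℝ f) x) v w := by
  rw [sq_sum, dotProduct, Finset.mul_sum]
  refine Finset.sum_congr rfl fun j _ => ?_
  rw [Matrix.mulVec, dotProduct, Finset.mul_sum, Finset.mul_sum]
  refine Finset.sum_congr rfl fun k _ => ?_
  unfold hes sq
  rw [Matrix.of_apply, Pi.star_apply, RCLike.star_def]
  ring

theorem hes_quad {f : (Fin n → ℂ) → ℝ} (hf : ContDiff ℝ 2 f) (x v : Fin n → ℂ) :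
    star v ⬝ᵥ (hes f x).mulVec v = ((levi f x v / 4 : ℝ) : ℂ) := by
  rw [hes_apply]
  unfold sq levi
  have h : fderiv ℝ (fderiv ℝ f) x (Complex.I • v) v = fderiv ℝ (fderiv ℝ f) x v (Complex.I • v) :=
    (hf.contDiffAt (x := x)).isSymmSndFDerivAt (by simp) _ _
  rw [h, sub_self]
  push_cast
  ring

theorem hes_herm {f : (Fin n → ℂ) → ℝ} (hf : ContDiff ℝ 2 f) (x : Fin n → ℂ) : (hes f x).IsHermitian := by
  ext j k
  rw [Matrix.conjTranspose_apply]
  unfold hes
  simp only [Matrix.of_apply]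
  have hs : ∀ v w, fderiv ℝ (fderiv ℝ f) x v w = fderiv ℝ (fderiv ℝ f) x w v :=
    fun v w => (hf.contDiffAt (x := x)).isSymmSndFDerivAt (by simp) _ _
  rw [RCLike.star_def, map_mul, map_add, map_mul, Complex.conj_I, Complex.conj_ofReal, Complex.conj_ofReal,
    hs (Pi.single k 1) (Pi.single j 1), hs (Complex.I • Pi.single k 1) (Complex.I • Pi.single j 1),
    hs (Complex.I • Pi.single k 1) (Pi.single j 1), hs (Pi.single k 1) (Complex.I • Pi.single j 1)]
  have e : conj (1 / 4 : ℂ) = 1 / 4 := by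
    rw [map_div₀, map_one, map_ofNat]
  rw [e]
  push_cast
  ring

end Pool.Agent.IK
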