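import Pool.Agent.Lib.IK.Spec

/-!
# Polynomial multipliers, module `Ind`: the Jacobian criterion of algebraic independence
-/

set_option autoImplicit false

noncomputable section

namespace Pool.Agent.IK

open Filter Topology

private theorem ind_chain {n : ℕ} (Ψ : Fin n → MvPolynomial (Fin n) ℂ) (j : Fin n)
    (P : MvPolynomial (Fin n) ℂ) :
    MvPolynomial.pderiv j (MvPolynomial.aeval Ψ P) =
      ∑ k, MvPolynomial.aeval Ψ (MvPolynomial.pderiv k P) * MvPolynomial.pderiv j (Ψ k) := by
  induction P using MvPolynomial.induction_on with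
  | C a =>
    rw [MvPolynomial.aeval_C]
    simp
  | add p q hp hq => simp only [map_add, hp, hq, add_mul, Finset.sum_add_distrib]
  | mul_X p i hp =>
    have e : ∀ k : Fin n, MvPolynomial.aeval Ψ (MvPolynomial.pderiv k (p * MvPolynomial.X i)) *
        MvPolynomial.pderiv j (Ψ k) =
        Ψ i * (MvPolynomial.aeval Ψ (MvPolynomial.pderiv k p) * MvPolynomial.pderiv j (Ψ k)) +
        if k = i then MvPolynomial.aeval Ψ p * MvPolynomial.pderiv j (Ψ i) else 0 := by
      intro k
      rw [MvPolynomial.pderiv_mul, MvPolynomial.pderiv_X, map_add, map_mul, map_mul,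
        MvPolynomial.aeval_X]
      by_cases h : k = i
      · subst h
        rw [if_pos rfl, Pi.single_eq_same, map_one]
        ring
      · rw [if_neg h, Pi.single_eq_of_ne (Ne.symm h), map_zero]
        ring
    rw [Finset.sum_congr rfl fun k _ => e k, Finset.sum_add_distrib, ← Finset.mul_sum, ← hp,
      Finset.sum_ite_eq' Finset.univ i, if_pos (Finset.mem_univ i), map_mul, MvPolynomial.aeval_X,
      MvPolynomial.pderiv_mul]
    ring

private theorem ind_deg {n d : ℕ} {P : MvPolynomial (Fin n) ℂ} (h : P.totalDegree ≤ d + 1)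
    (k : Fin n) : (MvPolynomial.pderiv k P).totalDegree ≤ d := by
  refine Finset.sup_le fun m hm => ?_
  have h1 : m + Finsupp.single k 1 ∈ P.support := by
    rw [MvPolynomial.mem_support_iff] at hm ⊢
    intro h2
    apply hm
    rw [MvPolynomial.coeff_pderiv, h2]
    simp
  have h2 := (MvPolynomial.le_totalDegree h1).trans h
  rw [Finsupp.sum_add_index' (fun _ => rfl) (fun _ _ _ => rfl), Finsupp.sum_single_index rfl] at h2
  omega

private theorem ind_const {n : ℕ} {P : MvPolynomial (Fin n) ℂ}
    (h : ∀ k, MvPolynomial.pderiv k P = 0) : P = MvPolynomial.C (P.coeff 0) := by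
  ext m
  rw [MvPolynomial.coeff_C]
  by_cases hm : 0 = m
  · rw [if_pos hm, hm]
  · rw [if_neg hm]
    obtain ⟨k, hk⟩ : ∃ k, m k ≠ 0 := by
      by_contra h1
      push Not at h1
      exact hm (Finsupp.ext fun k => (h1 k).symm)
    have e : m - Finsupp.single k 1 + Finsupp.single k 1 = m := by
      ext i
      rw [Finsupp.add_apply, Finsupp.tsub_apply]
      by_cases hi : i = k
      · subst hi
        rw [Finsupp.single_eq_same]
        omega
      · rw [Finsupp.single_eq_of_ne hi]
        omega
    have h1 := congrArg (MvPolynomial.coeff (m - Finsupp.single k 1)) (h k)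
    rw [MvPolynomial.coeff_pderiv, e, MvPolynomial.coeff_zero] at h1
    rcases mul_eq_zero.1 h1 with h2 | h2
    · exact h2
    · exfalso
      exact Nat.cast_add_one_ne_zero _ h2

theorem tInd : S_Ind := by
  intro n Ψ hJ
  rw [algebraicIndependent_iff]
  have hC : ∀ P : MvPolynomial (Fin n) ℂ, P = MvPolynomial.C (P.coeff 0) →
      MvPolynomial.aeval Ψ P = 0 → P = 0 := by
    intro P hP h0
    rw [hP, MvPolynomial.aeval_C, MvPolynomial.algebraMap_eq] at h0
    rw [hP]
    exact h0
  have key : ∀ (d : ℕ) (P : MvPolynomial (Fin n) ℂ), P.totalDegree ≤ d →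
      MvPolynomial.aeval Ψ P = 0 → P = 0 := by
    intro d
    induction d with
    | zero =>
      intro P hP h0
      exact hC P (MvPolynomial.totalDegree_eq_zero_iff_eq_C.1 (Nat.le_zero.1 hP)) h0
    | succ d ih =>
      intro P hP h0
      refine hC P (ind_const fun k => ih _ (ind_deg hP k) ?_) h0
      have h1 : Matrix.vecMul (fun k => MvPolynomial.aeval Ψ (MvPolynomial.pderiv k P)) (jac Ψ) = 0 := by
        funext j
        have h2 := ind_chain Ψ j P
        rw [h0, map_zero] at h2
        rw [Pi.zero_apply, h2]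
        rfl
      exact congrFun (Matrix.eq_zero_of_vecMul_eq_zero hJ h1) k
  exact fun P h0 => key _ P le_rfl h0

end Pool.Agent.IK
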