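import Pool.Agent.Lib.IK.Spec

/-!
# The inverse function theorem along a coordinate line
-/

set_option autoImplicit false

noncomputable section

namespace Pool.Agent.IK

open Filter Topology

private theorem ev_analytic {n : ℕ} (Ψ : Fin n → MvPolynomial (Fin n) ℂ) (x : Fin n → ℂ) :
    ContDiffAt ℂ ⊤ (ev Ψ) x := by
  rw [contDiffAt_pi]
  intro i
  exact ((AnalyticOnNhd.eval_mvPolynomial (Ψ i)) x (Set.mem_univ x)).contDiffAt

/-- The derivative of `ev Ψ` at `x`. -/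
private def Dv {n : ℕ} (Ψ : Fin n → MvPolynomial (Fin n) ℂ) (x : Fin n → ℂ) :
    (Fin n → ℂ) →L[ℂ] (Fin n → ℂ) :=
  ContinuousLinearMap.pi fun i =>
    ∑ j, MvPolynomial.eval x (MvPolynomial.pderiv j (Ψ i)) • ContinuousLinearMap.proj (R := ℂ)
      (φ := fun _ : Fin n => ℂ) j

private theorem Dv_det {n : ℕ} (Ψ : Fin n → MvPolynomial (Fin n) ℂ) (x : Fin n → ℂ) :
    (Dv Ψ x).det = MvPolynomial.eval x (jac Ψ).det := by
  have h1 : ((Dv Ψ x : (Fin n → ℂ) →L[ℂ] (Fin n → ℂ)) : (Fin n → ℂ) →ₗ[ℂ] (Fin n → ℂ)) =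
      Matrix.toLin' ((jac Ψ).map (MvPolynomial.eval x)) := by
    refine LinearMap.ext fun v => ?_
    funext i
    simp [Dv, Matrix.mulVec, dotProduct, jac]
  rw [ContinuousLinearMap.det, h1, LinearMap.det_toLin', RingHom.map_det]
  rfl

theorem tInv (h1 : S_Der) : S_Inv := by
  intro n Ψ x i0 hdet
  have hd : HasStrictFDerivAt (ev Ψ) (Dv Ψ x) x := by
    rw [hasStrictFDerivAt_pi']
    intro i
    exact h1 n (Ψ i) x
  have hne : (Dv Ψ x).det ≠ 0 := by
    rw [Dv_det]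
    exact hdet
  set E : (Fin n → ℂ) ≃L[ℂ] (Fin n → ℂ) :=
    ContinuousLinearMap.toContinuousLinearEquivOfDetNeZero (Dv Ψ x) hne with hE
  have hcoe : (E : (Fin n → ℂ) →L[ℂ] (Fin n → ℂ)) = Dv Ψ x :=
    ContinuousLinearMap.coe_toContinuousLinearEquivOfDetNeZero _ hne
  have hd' : HasFDerivAt (ev Ψ) (E : (Fin n → ℂ) →L[ℂ] (Fin n → ℂ)) x := by
    rw [hcoe]
    exact hd.hasFDerivAt
  have hc := ev_analytic Ψ x
  have ht : (⊤ : WithTop ℕ∞) ≠ 0 := by decide
  have hinv := hc.to_localInverse hd' ht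
  have hup : ContDiff ℂ ⊤ (Function.update (ev Ψ x) i0) := contDiff_update ⊤ (ev Ψ x) i0
  have h0 : Function.update (ev Ψ x) i0 (ev Ψ x i0) = ev Ψ x := Function.update_eq_self _ _
  refine ⟨fun t => hc.localInverse hd' ht (Function.update (ev Ψ x) i0 t), ?_, ?_, ?_⟩
  · have h2 : ContDiffAt ℂ ⊤ (fun t => hc.localInverse hd' ht (Function.update (ev Ψ x) i0 t))
        (ev Ψ x i0) := by
      refine ContDiffAt.comp (ev Ψ x i0) ?_ hup.contDiffAt
      rw [h0]
      exact hinv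
    exact h2.analyticAt
  · show hc.localInverse hd' ht (Function.update (ev Ψ x) i0 (ev Ψ x i0)) = x
    rw [h0]
    exact hc.localInverse_apply_image hd' ht
  · have h3 : ∀ᶠ y in 𝓝 (ev Ψ x), ev Ψ (hc.localInverse hd' ht y) = y :=
      (hc.hasStrictFDerivAt' hd' ht).eventually_right_inverse
    have h4 : Tendsto (Function.update (ev Ψ x) i0) (𝓝 (ev Ψ x i0)) (𝓝 (ev Ψ x)) := by
      have := hup.continuous.tendsto (ev Ψ x i0)
      rwa [h0] at this
    exact h4.eventually h3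

end Pool.Agent.IK
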