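import Pool.Agent.Lib.IK.Spec

/-!
# Polynomial automorphisms have constant Jacobians
-/

set_option autoImplicit false

noncomputable section

namespace Pool.Agent.IK

open Filter Topology

private theorem jac1_chain {n : ℕ} (Q : Fin n → MvPolynomial (Fin n) ℂ) (j : Fin n)
    (p : MvPolynomial (Fin n) ℂ) : MvPolynomial.pderiv j (MvPolynomial.bind₁ Q p) =
      ∑ k, MvPolynomial.bind₁ Q (MvPolynomial.pderiv k p) * MvPolynomial.pderiv j (Q k) := by
  induction p using MvPolynomial.induction_on with
  | C a => simp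
  | add p q hp hq =>
    simp only [map_add, hp, hq, add_mul, Finset.sum_add_distrib]
  | mul_X p i hp =>
    have e : ∀ k, MvPolynomial.bind₁ Q (MvPolynomial.pderiv k (p * MvPolynomial.X i)) *
        MvPolynomial.pderiv j (Q k) = MvPolynomial.bind₁ Q (MvPolynomial.pderiv k p) *
          MvPolynomial.pderiv j (Q k) * Q i + (if k = i then MvPolynomial.bind₁ Q p *
            MvPolynomial.pderiv j (Q i) else 0) := by
      intro k
      rw [MvPolynomial.pderiv_mul, MvPolynomial.pderiv_X, map_add, map_mul, map_mul,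
        MvPolynomial.bind₁_X_right, Pi.single_apply]
      by_cases h : k = i
      · subst h
        simp
        ring
      · rw [if_neg (fun h' => h h'.symm), if_neg h, map_zero]
        ring
    simp only [e]
    rw [Finset.sum_add_distrib, ← Finset.sum_mul, ← hp, map_mul, MvPolynomial.bind₁_X_right,
      MvPolynomial.pderiv_mul]
    simp

private theorem jac1_bind {n : ℕ} {P Q : Fin n → MvPolynomial (Fin n) ℂ}
    (h : ∀ x, ev P (ev Q x) = x) (i : Fin n) : MvPolynomial.bind₁ Q (P i) = MvPolynomial.X i := by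
  refine MvPolynomial.funext fun x => ?_
  rw [MvPolynomial.eval_X]
  have h1 := congrFun (h x) i
  rw [← h1]
  unfold ev
  change MvPolynomial.eval₂Hom (RingHom.id ℂ) x (MvPolynomial.bind₁ Q (P i)) = _
  rw [MvPolynomial.eval₂Hom_bind₁]
  rfl

private theorem jac1_det {n : ℕ} {P Q : Fin n → MvPolynomial (Fin n) ℂ}
    (h : ∀ x, ev P (ev Q x) = x) : MvPolynomial.bind₁ Q (jac P).det * (jac Q).det = 1 := by
  have h1 : ((jac P).map (MvPolynomial.bind₁ Q)) * jac Q = 1 := by
    ext1 i j
    rw [Matrix.mul_apply, Matrix.one_apply]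
    have h2 := jac1_chain Q j (P i)
    rw [jac1_bind h i, MvPolynomial.pderiv_X, Pi.single_apply] at h2
    simp only [jac, Matrix.map_apply, Matrix.of_apply]
    exact h2.symm
  have h3 := congrArg Matrix.det h1
  rw [Matrix.det_mul, Matrix.det_one] at h3
  rw [AlgHom.map_det]
  exact h3

/-- Polynomial automorphisms have constant Jacobians. -/
theorem tJac1 (_h1 : S_Der) : S_Jac1 := by
  intro n P Q _ h2
  have h3 := jac1_det h2
  have h4 : IsUnit (jac P).det := IsUnit.of_mul_eq_one _ (by rw [mul_comm]; exact h3)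
  rw [MvPolynomial.isUnit_iff_eq_C_of_isReduced] at h4
  obtain ⟨c, hc, h5⟩ := h4
  exact ⟨c, hc.ne_zero, h5⟩

end Pool.Agent.IK
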