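import Pool.Agent.Lib.IK.Act

/-!
# The Laplacian of exp(-κ φ) along a curve on which the multipliers are constant (author helper69)
-/

set_option autoImplicit false

noncomputable section

open Filter Topology Laplacian

namespace Pool.Agent.IK

variable {n : ℕ}

/-- the Laplacian of `A exp(-κ φ)` along a holomorphic curve -/
theorem lap_exp {φ : (Fin n → ℂ) → ℝ} (hφ : ContDiff ℝ 2 φ) (κ A : ℝ) {g : ℂ → (Fin n → ℂ)} {t : ℂ}
    (hg : AnalyticAt ℂ g t) :
    ContDiffAt ℝ 2 (fun s => A * Real.exp (-(κ * φ (g s)))) t ∧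
    Δ (fun s => A * Real.exp (-(κ * φ (g s)))) t = A * Real.exp (-(κ * φ (g t))) * κ *
      (κ * ((fderiv ℝ φ (g t) (deriv g t)) ^ 2 + (fderiv ℝ φ (g t) (Complex.I • deriv g t)) ^ 2) -
        levi φ (g t) (deriv g t)) := by
  have hgr : ContDiffAt ℝ 2 g t := (hg.contDiffAt (n := 2)).restrict_scalars ℝ
  have hV : ContDiffAt ℝ 2 (fun s => A * Real.exp (-(κ * φ (g s)))) t := by
    have h1 : ContDiffAt ℝ 2 (fun s => φ (g s)) t := hφ.contDiffAt.comp t hgr
    exact contDiffAt_const.mul ((contDiffAt_const.mul h1).neg.exp)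
  refine ⟨hV, ?_⟩
  set x := g t with hx
  set w := deriv g t with hw
  set w2 := deriv (deriv g) t with hw2
  have h0 : ∀ e : ℂ, t + ((0 : ℝ) : ℂ) * e = t := by simp
  have main : ∀ e : ℂ, fderiv ℝ (fderiv ℝ (fun s => A * Real.exp (-(κ * φ (g s))))) t e e =
      A * (Real.exp (-(κ * φ x)) * ((-κ * fderiv ℝ φ x (e • w)) ^ 2 +
      (-κ) * (fderiv ℝ (fderiv ℝ φ) x (e • w) (e • w) + fderiv ℝ φ x (e • (e • w2))))) := by
    intro e
    obtain ⟨p1, p2⟩ := path_g hg e
    have hT := Two.path (φ := φ) (p := fun s : ℝ => g (t + s * e)) (by exact hφ.contDiffAt) p1 p2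
    simp only [h0] at hT
    have hT2 := (hT.const_mul (-κ)).exp.const_mul A
    simp only [h0] at hT2
    have hT3 := hT2.congr (k := fun s : ℝ => A * Real.exp (-(κ * φ (g (t + s * e)))))
      (Eventually.of_forall fun s => by ring_nf)
    have hT4 := path_b hV e
    have h5 := (hT4.unique hT3)
    have e1 : -κ * φ (g t) = -(κ * φ x) := by rw [← hx]; ring
    rw [e1] at h5
    exact h5
  have m1 := main 1
  have m2 := main Complex.I
  have eI : Complex.I • (Complex.I • w2) = -w2 := by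
    rw [smul_smul, Complex.I_mul_I, neg_smul, one_smul]
  simp only [one_smul] at m1
  rw [eI, map_neg] at m2
  rw [lap_eq, m1, m2]
  unfold levi
  ring

variable {Γ : Type*} [Group Γ] [MulAction Γ (Fin n → ℂ)]

/-- `exp(-κ φ)` is superharmonic, strictly if the derivative does not vanish, along a curve on which the multipliers are constant -/
theorem lap_curve (hol : ∀ γ : Γ, Differentiable ℂ fun x : Fin n → ℂ => γ • x) {K : Set (Fin n → ℂ)}
    (hcov : ∀ x : Fin n → ℂ, ∃ γ : Γ, γ • x ∈ K) {φ : (Fin n → ℂ) → ℝ} (hφ : ContDiff ℝ 2 φ) {κ : ℝ} (hκ : 0 < κ)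
    (hK : ∀ x ∈ K, ∀ v : Fin n → ℂ, v ≠ 0 →
      κ * ((fderiv ℝ φ x v) ^ 2 + (fderiv ℝ φ x (Complex.I • v)) ^ 2) < levi φ x v)
    {g : ℂ → (Fin n → ℂ)} {t : ℂ} (hg : AnalyticAt ℂ g t)
    (hconst : ∀ γ : Γ, ∀ᶠ s in 𝓝 t, φ (γ • g s) - φ (g s) = φ (γ • g t) - φ (g t)) :
    Δ (fun s => Real.exp (-(κ * φ (g s)))) t ≤ 0 ∧ (deriv g t ≠ 0 → Δ (fun s => Real.exp (-(κ * φ (g s)))) t < 0) := by
  obtain ⟨γ, hγ⟩ := hcov (g t)
  obtain ⟨h1, h2⟩ := deriv_smul hol hg γ
  set c := φ (γ • g t) - φ (g t) with hc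
  have h3 : (fun s => Real.exp (-(κ * φ (g s)))) =ᶠ[𝓝 t]
      fun s => Real.exp (κ * c) * Real.exp (-(κ * φ (γ • g s))) := by
    filter_upwards [hconst γ] with s hs
    rw [← Real.exp_add]
    congr 1
    have e : φ (g s) = φ (γ • g s) - c := by
      rw [hc]
      linarith
    rw [e]
    ring
  have h4 : Δ (fun s => Real.exp (-(κ * φ (g s)))) t = Δ (fun s => Real.exp (κ * c) * Real.exp (-(κ * φ (γ • g s)))) t := by
    exact InnerProductSpace.laplacian_congr_nhds h3 |>.eq_of_nhds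
  rw [h4, (lap_exp hφ κ (Real.exp (κ * c)) h1).2]
  have hE : 0 < Real.exp (κ * c) * Real.exp (-(κ * φ (γ • g t))) * κ := by positivity
  constructor
  · by_cases h : deriv (fun s => γ • g s) t = 0
    · rw [h]
      unfold levi
      simp
    · nlinarith [hK _ hγ _ h]
  · intro h
    nlinarith [hK _ hγ _ (h2 h)]

end Pool.Agent.IK
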