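import Pool.Agent.Lib.IK.Plh
import Pool.Agent.Lib.Osgood

/-!
# The Levi form of a composition; an invariant Kähler form has pluriharmonic multipliers (author helper69)
-/

set_option autoImplicit false

noncomputable section

open Filter Topology

namespace Pool.Agent.IK

variable {n : ℕ}

theorem two_unique {h : ℝ → ℝ} {a b c d : ℝ} (h1 : Two h a c) (h2 : Two h b d) : a = b ∧ c = d := by
  obtain ⟨h', e1, e2, e3⟩ := h1
  obtain ⟨k', f1, f2, f3⟩ := h2
  have e4 : h' =ᶠ[𝓝 (0 : ℝ)] k' := by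
    filter_upwards [e1, f1] with s hs ks using hs.unique ks
  refine ⟨?_, (e3.congr_of_eventuallyEq e4.symm).unique f3⟩
  rw [← e2, ← f2]
  exact e4.self_of_nhds

theorem smooth2 {h : (Fin n → ℂ) → (Fin n → ℂ)} (hh : Differentiable ℂ h) : ContDiff ℝ 2 h := by
  have h1 : ContDiffOn ℂ (2 : ℕ) h Set.univ := Pool.Agent.Lib.Osgood.contDiffOn_nat 2 isOpen_univ hh.differentiableOn
  have h2 : ContDiff ℂ 2 h := contDiffOn_univ.1 h1
  exact h2.restrict_scalars ℝ

/-- the Levi form of a composition with a holomorphic map -/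
theorem levi_comp {φ : (Fin n → ℂ) → ℝ} (hφ : ContDiff ℝ 2 φ) {h : (Fin n → ℂ) → (Fin n → ℂ)}
    (hh : Differentiable ℂ h) (x v : Fin n → ℂ) :
    levi (fun y => φ (h y)) x v = levi φ (h x) (fderiv ℂ h x v) := by
  have hψ : ContDiff ℝ 2 fun y => φ (h y) := hφ.comp (smooth2 hh)
  set g : ℂ → (Fin n → ℂ) := fun z => h (x + z • v) with hg
  have hgd : Differentiable ℂ g := hh.comp ((differentiable_id.smul_const v).const_add x)
  have hg0 : g 0 = h x := by simp [hg]
  have hgd0 : deriv g 0 = fderiv ℂ h x v := by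
    have h1 : HasDerivAt (fun z : ℂ => x + z • v) v 0 := by
      simpa using ((hasDerivAt_id (0 : ℂ)).smul_const v).const_add x
    have h2 : HasFDerivAt h (fderiv ℂ h x) (x + (0 : ℂ) • v) := by
      rw [zero_smul, add_zero]
      exact (hh x).hasFDerivAt
    exact (h2.comp_hasDerivAt (0 : ℂ) h1).deriv
  have h0 : ∀ e : ℂ, (0 : ℂ) + ((0 : ℝ) : ℂ) * e = 0 := by simp
  have main : ∀ e : ℂ, fderiv ℝ (fderiv ℝ fun y => φ (h y)) x (e • v) (e • v) =
      fderiv ℝ (fderiv ℝ φ) (h x) (e • fderiv ℂ h x v) (e • fderiv ℂ h x v) +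
        fderiv ℝ φ (h x) (e • (e • deriv (deriv g) 0)) := by
    intro e
    obtain ⟨p1, p2⟩ := path_g (hgd.analyticAt 0) e
    have hT := Two.path (φ := φ) (p := fun s : ℝ => g (0 + s * e)) (by exact hφ.contDiffAt) p1 p2
    simp only [h0, hg0, hgd0] at hT
    have hl : ∀ s : ℝ, HasDerivAt (fun s : ℝ => x + s • (e • v)) (e • v) s := by
      intro s
      simpa using ((hasDerivAt_id s).smul_const (e • v)).const_add x
    have hS := Two.path (φ := fun y => φ (h y)) (p := fun s : ℝ => x + s • (e • v)) (v := fun _ => e • v) (w := 0)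
      hψ.contDiffAt (Eventually.of_forall hl) (hasDerivAt_const _ _)
    simp only [zero_smul, add_zero, map_zero] at hS
    have hc : (fun s : ℝ => φ (h (x + s • (e • v)))) = fun s : ℝ => φ (g (0 + s * e)) := by
      funext s
      rw [hg]
      simp only [zero_add]
      congr 3
      rw [mul_smul]
      rfl
    rw [hc] at hS
    exact (two_unique hS hT).2
  have m1 := main 1
  have m2 := main Complex.I
  have eI : Complex.I • (Complex.I • deriv (deriv g) 0) = -deriv (deriv g) 0 := by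
    rw [smul_smul, Complex.I_mul_I, neg_smul, one_smul]
  simp only [one_smul] at m1
  rw [eI, map_neg] at m2
  unfold levi
  rw [m1, m2]
  ring

theorem levi_sub {φ ψ : (Fin n → ℂ) → ℝ} (hφ : ContDiff ℝ 2 φ) (hψ : ContDiff ℝ 2 ψ) (x v : Fin n → ℂ) :
    levi (fun y => φ y - ψ y) x v = levi φ x v - levi ψ x v := by
  have h1 : (fderiv ℝ fun y => φ y - ψ y) = fun y => fderiv ℝ φ y - fderiv ℝ ψ y := by
    funext y
    exact fderiv_fun_sub (hφ.differentiable (by norm_num) y) (hψ.differentiable (by norm_num) y)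
  have h2 : fderiv ℝ (fderiv ℝ fun y => φ y - ψ y) x = fderiv ℝ (fderiv ℝ φ) x - fderiv ℝ (fderiv ℝ ψ) x := by
    rw [h1]
    exact fderiv_fun_sub ((hφ.fderiv_right (m := 1) (by norm_num)).differentiable (by norm_num) x)
      ((hψ.fderiv_right (m := 1) (by norm_num)).differentiable (by norm_num) x)
  unfold levi
  rw [h2]
  simp only [sub_apply]
  ring

/-- an invariant Kähler form: the multipliers are real parts of entire functions -/
theorem mult {φ : (Fin n → ℂ) → ℝ} (hφ : ContDiff ℝ 2 φ) {h : (Fin n → ℂ) → (Fin n → ℂ)}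
    (hh : Differentiable ℂ h) (hinv : ∀ x v, levi φ (h x) (fderiv ℂ h x v) = levi φ x v) :
    ∃ f : (Fin n → ℂ) → ℂ, Differentiable ℂ f ∧ ∀ x, φ (h x) - φ x = (f x).re := by
  have hψ : ContDiff ℝ 2 fun y => φ (h y) := hφ.comp (smooth2 hh)
  refine plh (hψ.sub hφ) fun x v => ?_
  rw [levi_sub hψ hφ, levi_comp hφ hh, hinv, sub_self]

end Pool.Agent.IK
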