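import Pool.Agent.Lib.IK.Core

/-!
# The Liouville principle (author helper69)
-/

set_option autoImplicit false

noncomputable section

open Filter Topology Laplacian

namespace Pool.Agent.IK

theorem Two.unique {h : ℝ → ℝ} {a a' c c' : ℝ} (h1 : Two h a c) (h2 : Two h a' c') : c = c' := by
  obtain ⟨h', e1, e2, e3⟩ := h1
  obtain ⟨k', f1, f2, f3⟩ := h2
  have h3 : h' =ᶠ[𝓝 (0 : ℝ)] k' := by
    filter_upwards [e1, f1] with s hs ks using hs.unique ks
  exact e3.unique (f3.congr_of_eventuallyEq h3)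

/-- the function `-|z - t0|^(-2)` is strictly superharmonic -/
theorem sq_inv (t0 z : ℂ) (hz : z ≠ t0) :
    ContDiffAt ℝ 2 (fun z : ℂ => -(Complex.normSq (z - t0))⁻¹) z ∧
      Δ (fun z : ℂ => -(Complex.normSq (z - t0))⁻¹) z < 0 := by
  have hu : z - t0 ≠ 0 := sub_ne_zero.2 hz
  have hA : 0 < Complex.normSq (z - t0) := Complex.normSq_pos.2 hu
  have hns : (fun z : ℂ => -(Complex.normSq (z - t0))⁻¹) = fun z : ℂ => -(‖z - t0‖ ^ 2)⁻¹ := by
    funext z
    rw [Complex.normSq_eq_norm_sq]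
  have hc : ContDiffAt ℝ 2 (fun z : ℂ => -(Complex.normSq (z - t0))⁻¹) z := by
    rw [hns]
    refine ContDiffAt.neg (ContDiffAt.inv ?_ ?_)
    · exact (contDiffAt_id.sub contDiffAt_const).norm_sq ℝ
    · rw [← Complex.normSq_eq_norm_sq]
      exact hA.ne'
  refine ⟨hc, ?_⟩
  rw [lap_eq]
  set A := Complex.normSq (z - t0) with hAd
  have main : ∀ e : ℂ, Complex.normSq e = 1 → ∀ B : ℝ, B = (z - t0).re * e.re + (z - t0).im * e.im →
      fderiv ℝ (fderiv ℝ fun z : ℂ => -(Complex.normSq (z - t0))⁻¹) z e e = 2 / A ^ 2 - 8 * B ^ 2 / A ^ 3 := by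
    intro e he B hB
    have h1 := path_b hc e
    have h2 : Two (fun s : ℝ => -(Complex.normSq (z + s * e - t0))⁻¹) (2 * B / A ^ 2)
        (2 / A ^ 2 - 8 * B ^ 2 / A ^ 3) := by
      have e1 : ∀ s : ℝ, Complex.normSq (z + s * e - t0) = A + 2 * B * s + s ^ 2 := by
        intro s
        rw [hAd, hB]
        rw [Complex.normSq_apply] at he ⊢
        rw [Complex.normSq_apply]
        simp only [Complex.sub_re, Complex.add_re, Complex.mul_re, Complex.ofReal_re, Complex.ofReal_im,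
          Complex.sub_im, Complex.add_im, Complex.mul_im]
        linear_combination s ^ 2 * he
      have hd : ∀ s : ℝ, HasDerivAt (fun s : ℝ => A + 2 * B * s + s ^ 2) (2 * B + 2 * s) s := by
        intro s
        have := (((hasDerivAt_id s).const_mul (2 * B)).const_add A).add (hasDerivAt_pow 2 s)
        refine (this.congr_deriv ?_).congr_of_eventuallyEq ?_
        · norm_num
        · exact Eventually.of_forall fun s => by simp
      have hne : ∀ᶠ s in 𝓝 (0 : ℝ), A + 2 * B * s + s ^ 2 ≠ 0 := by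
        refine (hd 0).continuousAt.eventually_ne ?_
        simpa using hA.ne'
      refine Two.congr (h := fun s : ℝ => -(A + 2 * B * s + s ^ 2)⁻¹) ?_
        (Eventually.of_forall fun s => by simp only [e1])
      refine ⟨fun s => (2 * B + 2 * s) / (A + 2 * B * s + s ^ 2) ^ 2, ?_, by simp, ?_⟩
      · filter_upwards [hne] with s hs
        have h3 := ((hd s).fun_inv hs).neg
        refine h3.congr_deriv ?_
        ring
      · have h4 : HasDerivAt (fun s : ℝ => 2 * B + 2 * s) 2 0 := by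
          have := ((hasDerivAt_id (0 : ℝ)).const_mul 2).const_add (2 * B)
          simpa using this
        have h5 := h4.div ((hd 0).pow 2) (by simpa using pow_ne_zero 2 hA.ne')
        refine h5.congr_deriv ?_
        have hA' := hA.ne'
        have e2 : A + 2 * B * 0 + 0 ^ 2 = A := by ring
        simp only [Pi.pow_apply, e2]
        norm_num
        field_simp
        ring
    exact h1.unique h2
  have m1 := main 1 (by simp) (z - t0).re (by simp)
  have m2 := main Complex.I (by simp) (z - t0).im (by simp)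
  rw [m1, m2]
  have hAB : (z - t0).re ^ 2 + (z - t0).im ^ 2 = A := by
    rw [hAd, Complex.normSq_apply]
    ring
  have e : 2 / A ^ 2 - 8 * (z - t0).re ^ 2 / A ^ 3 + (2 / A ^ 2 - 8 * (z - t0).im ^ 2 / A ^ 3) = -4 / A ^ 2 := by
    have : 2 / A ^ 2 - 8 * (z - t0).re ^ 2 / A ^ 3 + (2 / A ^ 2 - 8 * (z - t0).im ^ 2 / A ^ 3) =
        4 / A ^ 2 - 8 * ((z - t0).re ^ 2 + (z - t0).im ^ 2) / A ^ 3 := by ring
    rw [this, hAB]
    field_simp
    ring
  rw [e]
  have : 0 < A ^ 2 := by positivity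
  exact div_neg_of_neg_of_pos (by norm_num) this

/-! ## The barrier -/

/-- the barrier -/
def bar (β : Polynomial ℂ) (t0 z : ℂ) : ℝ :=
  ((β.natDegree + 1 : ℕ) : ℝ) * Real.log ‖z - t0‖ - Real.log ‖β.eval z‖ + -(Complex.normSq (z - t0))⁻¹

theorem bar_lap (β : Polynomial ℂ) (t0 z : ℂ) (hz : z ≠ t0) (hβ : β.eval z ≠ 0) :
    ContDiffAt ℝ 2 (bar β t0) z ∧ Δ (bar β t0) z < 0 := by
  have h1 : InnerProductSpace.HarmonicAt (fun z : ℂ => Real.log ‖z - t0‖) z :=
    AnalyticAt.harmonicAt_log_norm (by fun_prop) (sub_ne_zero.2 hz)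
  have h2 : InnerProductSpace.HarmonicAt (fun z : ℂ => Real.log ‖β.eval z‖) z :=
    AnalyticAt.harmonicAt_log_norm (β.differentiable.analyticAt z) hβ
  have h3 := (h1.const_smul (c := ((β.natDegree + 1 : ℕ) : ℝ))).sub h2
  obtain ⟨h4, h5⟩ := sq_inv t0 z hz
  have e : bar β t0 = (((β.natDegree + 1 : ℕ) : ℝ) • (fun z : ℂ => Real.log ‖z - t0‖) -
      fun z : ℂ => Real.log ‖β.eval z‖) + fun z : ℂ => -(Complex.normSq (z - t0))⁻¹ := rfl
  refine ⟨?_, ?_⟩
  · rw [e]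
    exact h3.1.add h4
  · rw [e, h3.1.laplacian_add h4]
    have h6 := h3.2.self_of_nhds
    rw [h6]
    simpa using h5

theorem pol_growth (β : Polynomial ℂ) (t0 : ℂ) {ρ : ℝ} (hρ : 0 < ρ) :
    ∃ C : ℝ, 0 < C ∧ ∀ z : ℂ, ρ ≤ ‖z - t0‖ → ‖β.eval z‖ ≤ C * ‖z - t0‖ ^ β.natDegree := by
  set d := β.natDegree with hd
  set q := β.comp (Polynomial.X + Polynomial.C t0) with hq
  have hqd : q.natDegree = d := by
    rw [hq, Polynomial.natDegree_comp, Polynomial.natDegree_X_add_C, mul_one]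
  refine ⟨∑ k ∈ Finset.range (d + 1), ‖q.coeff k‖ * (ρ⁻¹) ^ (d - k) + 1, by positivity, fun z hz => ?_⟩
  have e : β.eval z = q.eval (z - t0) := by
    rw [hq]
    simp
  have hu : 0 < ‖z - t0‖ := hρ.trans_le hz
  rw [e, Polynomial.eval_eq_sum_range, hqd]
  calc ‖∑ k ∈ Finset.range (d + 1), q.coeff k * (z - t0) ^ k‖
      ≤ ∑ k ∈ Finset.range (d + 1), ‖q.coeff k‖ * (ρ⁻¹) ^ (d - k) * ‖z - t0‖ ^ d := by
        refine norm_sum_le_of_le _ fun k hk => ?_
        rw [norm_mul, norm_pow, mul_assoc]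
        refine mul_le_mul_of_nonneg_left ?_ (norm_nonneg _)
        have hkd : k ≤ d := Nat.lt_succ_iff.1 (Finset.mem_range.1 hk)
        have h1 : ‖z - t0‖ ^ d = ‖z - t0‖ ^ (d - k) * ‖z - t0‖ ^ k := by
          rw [← pow_add]
          congr 1
          omega
        rw [h1, ← mul_assoc, ← mul_pow]
        have h2 : 1 ≤ ρ⁻¹ * ‖z - t0‖ := by
          rw [inv_mul_eq_div, one_le_div hρ]
          exact hz
        exact le_mul_of_one_le_left (by positivity) (one_le_pow₀ h2)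
    _ ≤ (∑ k ∈ Finset.range (d + 1), ‖q.coeff k‖ * (ρ⁻¹) ^ (d - k) + 1) * ‖z - t0‖ ^ d := by
        rw [← Finset.sum_mul]
        gcongr
        linarith

theorem bar_low (β : Polynomial ℂ) (t0 : ℂ) {ρ : ℝ} (hρ : 0 < ρ) :
    ∃ c : ℝ, ∀ z : ℂ, ρ ≤ ‖z - t0‖ → β.eval z ≠ 0 → 0 ≤ bar β t0 z + c := by
  obtain ⟨C, hC, hC2⟩ := pol_growth β t0 hρ
  refine ⟨Real.log C - Real.log ρ + (ρ ^ 2)⁻¹, fun z hz hβ => ?_⟩
  have hu : 0 < ‖z - t0‖ := hρ.trans_le hz
  have h1 : Real.log ‖β.eval z‖ ≤ Real.log C + β.natDegree * Real.log ‖z - t0‖ := by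
    rw [← Real.log_pow, ← Real.log_mul hC.ne' (by positivity)]
    exact Real.log_le_log (norm_pos_iff.2 hβ) (hC2 z hz)
  have h2 : (Complex.normSq (z - t0))⁻¹ ≤ (ρ ^ 2)⁻¹ := by
    rw [Complex.normSq_eq_norm_sq]
    gcongr
  have h3 : Real.log ρ ≤ Real.log ‖z - t0‖ := Real.log_le_log hρ hz
  unfold bar
  push_cast
  nlinarith

theorem bar_up (β : Polynomial ℂ) (t0 : ℂ) {ρ : ℝ} (hρ : 0 < ρ) (M : ℝ) :
    ∃ R δ : ℝ, 0 < δ ∧ ∀ z : ℂ, ρ ≤ ‖z - t0‖ → β.eval z ≠ 0 → bar β t0 z ≤ M →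
      ‖z - t0‖ ≤ R ∧ δ ≤ ‖β.eval z‖ := by
  obtain ⟨C, hC, hC2⟩ := pol_growth β t0 hρ
  refine ⟨Real.exp (M + (ρ ^ 2)⁻¹ + Real.log C),
    Real.exp ((β.natDegree + 1 : ℕ) * Real.log ρ - (ρ ^ 2)⁻¹ - M), Real.exp_pos _, fun z hz hβ hM => ?_⟩
  have hu : 0 < ‖z - t0‖ := hρ.trans_le hz
  have hβ0 : 0 < ‖β.eval z‖ := norm_pos_iff.2 hβ
  have h1 : Real.log ‖β.eval z‖ ≤ Real.log C + β.natDegree * Real.log ‖z - t0‖ := by
    rw [← Real.log_pow, ← Real.log_mul hC.ne' (by positivity)]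
    exact Real.log_le_log hβ0 (hC2 z hz)
  have h2 : (Complex.normSq (z - t0))⁻¹ ≤ (ρ ^ 2)⁻¹ := by
    rw [Complex.normSq_eq_norm_sq]
    gcongr
  have h3 : Real.log ρ ≤ Real.log ‖z - t0‖ := Real.log_le_log hρ hz
  unfold bar at hM
  push_cast at hM ⊢
  constructor
  · rw [← Real.log_le_iff_le_exp hu]
    nlinarith
  · rw [← Real.le_log_iff_exp_le hβ0]
    nlinarith [Nat.cast_nonneg (α := ℝ) β.natDegree]

end Pool.Agent.IK
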