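import Pool.Agent.Lib.IK.Curve

/-!
# There are no level curves of the multipliers (author helper69)
-/

set_option autoImplicit false

noncomputable section

open Filter Topology Laplacian

namespace Pool.Agent.IK

variable {n : ℕ}

theorem cont_ev (Ψ : Fin n → MvPolynomial (Fin n) ℂ) : Continuous (ev Ψ) := by
  refine continuous_pi fun i => ?_
  exact MvPolynomial.continuous_eval (Ψ i)

theorem eval_aev (B : MvPolynomial (Fin n) ℂ) (y : Fin n → ℂ) (i0 : Fin n) (z : ℂ) :
    (MvPolynomial.aeval (fun i => if i = i0 then (Polynomial.X : Polynomial ℂ) else Polynomial.C (y i)) B).eval z =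
      MvPolynomial.eval (Function.update y i0 z) B := by
  have h := congrArg (fun F => F B) (MvPolynomial.comp_aeval
    (fun i => if i = i0 then (Polynomial.X : Polynomial ℂ) else Polynomial.C (y i)) (Polynomial.aeval (R := ℂ) z))
  simp only [AlgHom.comp_apply] at h
  rw [← Polynomial.coe_aeval_eq_eval, h, ← MvPolynomial.coe_aeval_eq_eval]
  have e : (fun i => (Polynomial.aeval z) (if i = i0 then (Polynomial.X : Polynomial ℂ) else Polynomial.C (y i))) =
      Function.update y i0 z := by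
    funext i
    by_cases h : i = i0
    · subst h
      simp
    · simp [h]
  rw [e]
  rfl

theorem bind_eval (B : MvPolynomial (Fin n) ℂ) (Ψ : Fin n → MvPolynomial (Fin n) ℂ) (x : Fin n → ℂ) :
    MvPolynomial.eval x (MvPolynomial.bind₁ Ψ B) = MvPolynomial.eval (ev Ψ x) B := by
  have h := MvPolynomial.aeval_bind₁ (R := ℂ) (fun i => x i) Ψ B
  rw [← MvPolynomial.coe_aeval_eq_eval, ← MvPolynomial.coe_aeval_eq_eval]
  exact h

/-- **No level curves.** -/
theorem noCurve (hAlg : S_AlgB) (hDer : S_Der) (hInv : S_Inv) {Γ : Type*} [Group Γ] [MulAction Γ (Fin n → ℂ)]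
    (hol : ∀ γ : Γ, Differentiable ℂ fun x : Fin n → ℂ => γ • x) {K : Set (Fin n → ℂ)} (hKc : IsCompact K)
    (hcov : ∀ x : Fin n → ℂ, ∃ γ : Γ, γ • x ∈ K) {φ : (Fin n → ℂ) → ℝ} (hφ : ContDiff ℝ 2 φ)
    (hpsh : ∀ x v : Fin n → ℂ, v ≠ 0 → 0 < levi φ x v)
    (Ψ : Fin n → MvPolynomial (Fin n) ℂ) (hJ : (jac Ψ).det ≠ 0) (i0 : Fin n)
    (h0 : ∀ (γ : Γ) (x : Fin n → ℂ) (g : ℂ → (Fin n → ℂ)), MvPolynomial.eval x (jac Ψ).det ≠ 0 →
      AnalyticAt ℂ g (ev Ψ x i0) → g (ev Ψ x i0) = x →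
      (∀ᶠ s in 𝓝 (ev Ψ x i0), ev Ψ (g s) = Function.update (ev Ψ x) i0 s) →
      ∀ᶠ s in 𝓝 (ev Ψ x i0), φ (γ • g s) - φ (g s) = φ (γ • x) - φ x) : False := by
  obtain ⟨B, hB0, hBJ, hBx⟩ := hAlg n Ψ hJ
  obtain ⟨κ, hκ, hK⟩ := kappa hφ hKc fun x _ v hv => hpsh x v hv
  obtain ⟨a, ha⟩ : ∃ a, MvPolynomial.eval (ev Ψ a) B ≠ 0 := by
    by_contra h
    push Not at h
    refine hB0 (MvPolynomial.funext fun x => ?_)
    rw [bind_eval, h x, map_zero]
  set y0 := ev Ψ a with hy0
  set β : Polynomial ℂ := MvPolynomial.aeval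
    (fun i => if i = i0 then (Polynomial.X : Polynomial ℂ) else Polynomial.C (y0 i)) B with hβ
  have hβe : ∀ z, β.eval z = MvPolynomial.eval (Function.update y0 i0 z) B := fun z => eval_aev B y0 i0 z
  -- the curve
  let X := {x : Fin n → ℂ // (∀ i, i ≠ i0 → ev Ψ x i = y0 i) ∧ MvPolynomial.eval (ev Ψ x) B ≠ 0}
  let t : X → ℂ := fun x => ev Ψ x.1 i0
  have hup : ∀ x : Fin n → ℂ, (∀ i, i ≠ i0 → ev Ψ x i = y0 i) → ev Ψ x = Function.update y0 i0 (ev Ψ x i0) := by
    intro x hx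
    funext i
    by_cases h : i = i0
    · subst h
      rw [Function.update_self]
    · rw [Function.update_of_ne h]
      exact hx i h
  have hcΨ := cont_ev Ψ
  have htc : Continuous t := (continuous_apply i0).comp (hcΨ.comp continuous_subtype_val)
  have hβt : ∀ x : X, β.eval (t x) ≠ 0 := by
    intro x
    rw [hβe, ← hup x.1 x.2.1]
    exact x.2.2
  -- the points of the curve
  have hloc : ∀ (x : X) (b : ℂ → ℝ), ContDiffAt ℝ 2 b (t x) → Δ b (t x) ≤ 0 →
      ¬ IsLocalMin (fun y : X => Real.exp (-(κ * φ y.1)) + b (t y)) x := by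
    intro x b hb hb0 hmin
    obtain ⟨g, g1, g2, g3, g4⟩ := locg hDer hInv Ψ i0 x.1 (hBJ x.1 x.2.2)
    refine noMin hol hcov hφ hκ hK g1 (fun γ => ?_) hb hb0 (Or.inr g4) ?_
    · filter_upwards [h0 γ x.1 g (hBJ x.1 x.2.2) g1 g2 g3] with s hs
      rw [g2]
      exact hs
    · have h1 : Tendsto g (𝓝 (ev Ψ x.1 i0)) (𝓝 x.1) := by
        have := g1.continuousAt.tendsto
        rwa [g2] at this
      have h2 : ∀ᶠ z in 𝓝 x.1, ∀ y : X, y.1 = z → Real.exp (-(κ * φ x.1)) + b (t x) ≤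
          Real.exp (-(κ * φ y.1)) + b (t y) := by
        have h3 : ∀ᶠ y in 𝓝 x, Real.exp (-(κ * φ x.1)) + b (t x) ≤ Real.exp (-(κ * φ y.1)) + b (t y) := hmin
        rw [nhds_subtype_eq_comap, eventually_comap] at h3
        exact h3
      have h4 : ∀ᶠ z in 𝓝 x.1, MvPolynomial.eval (ev Ψ z) B ≠ 0 := by
        have hc : Continuous fun z => MvPolynomial.eval (ev Ψ z) B := (MvPolynomial.continuous_eval B).comp hcΨ
        exact hc.continuousAt.eventually_ne x.2.2
      filter_upwards [h1.eventually h2, h1.eventually h4, g3] with s hs2 hs4 hs3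
      have h5 : ∀ i, i ≠ i0 → ev Ψ (g s) i = y0 i := by
        intro i hi
        rw [hs3, Function.update_of_ne hi]
        exact x.2.1 i hi
      have h6 := hs2 ⟨g s, h5, hs4⟩ rfl
      have h7 : ev Ψ (g s) i0 = s := by
        rw [hs3, Function.update_self]
      have h8 : t ⟨g s, h5, hs4⟩ = s := h7
      rw [h8] at h6
      rw [g2]
      exact h6
  -- the compactness
  have hprop : ∀ Z : Set ℂ, IsCompact Z → (∀ z ∈ Z, β.eval z ≠ 0) → IsCompact (t ⁻¹' Z) := by
    intro Z hZ hZβ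
    rw [Subtype.isCompact_iff]
    have hset : (Subtype.val '' (t ⁻¹' Z) : Set (Fin n → ℂ)) =
        {x | (∀ i, i ≠ i0 → ev Ψ x i = y0 i) ∧ ev Ψ x i0 ∈ Z} := by
      ext x
      constructor
      · rintro ⟨y, hy, rfl⟩
        exact ⟨y.2.1, hy⟩
      · rintro ⟨h1, h2⟩
        have h3 : MvPolynomial.eval (ev Ψ x) B ≠ 0 := by
          rw [hup x h1, ← hβe]
          exact hZβ _ h2
        exact ⟨⟨x, h1, h3⟩, h2, rfl⟩
    rw [hset]
    refine Metric.isCompact_of_isClosed_isBounded ?_ ?_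
    · have h1 : IsClosed {x : Fin n → ℂ | ∀ i, i ≠ i0 → ev Ψ x i = y0 i} := by
        have e : {x : Fin n → ℂ | ∀ i, i ≠ i0 → ev Ψ x i = y0 i} =
            ⋂ i, ⋂ (_ : i ≠ i0), {x : Fin n → ℂ | ev Ψ x i = y0 i} := by
          ext x
          simp
        rw [e]
        exact isClosed_iInter fun i => isClosed_iInter fun _ =>
          isClosed_eq ((continuous_apply i).comp hcΨ) continuous_const
      have h2 : IsClosed {x : Fin n → ℂ | ev Ψ x i0 ∈ Z} := hZ.isClosed.preimage ((continuous_apply i0).comp hcΨ)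
      exact h1.inter h2
    · by_cases hne : Z.Nonempty
      · obtain ⟨z1, hz1, hmin⟩ := hZ.exists_isMinOn hne (f := fun z => ‖β.eval z‖) (by fun_prop)
        have hδ : 0 < ‖β.eval z1‖ := norm_pos_iff.2 (hZβ z1 hz1)
        obtain ⟨R, hR⟩ := (hZ.image (f := fun z => Function.update y0 i0 z)
          (continuous_const.update i0 continuous_id)).isBounded.exists_norm_le
        choose C N hCN using hBx
        have hR0 : 0 ≤ R := (norm_nonneg _).trans (hR _ ⟨z1, hz1, rfl⟩)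
        refine (Metric.isBounded_iff_subset_closedBall 0).2
          ⟨∑ i, |C i| * (1 + R) ^ N i / ‖β.eval z1‖, fun x hx => ?_⟩
        rw [mem_closedBall_zero_iff]
        have hnn : ∀ i, 0 ≤ |C i| * (1 + R) ^ N i / ‖β.eval z1‖ := fun i => by positivity
        refine (pi_norm_le_iff_of_nonneg (Finset.sum_nonneg fun i _ => hnn i)).2 fun i => ?_
        refine le_trans ?_ (Finset.single_le_sum (fun j _ => hnn j) (Finset.mem_univ i))
        rw [le_div_iff₀ hδ]
        have h1 : ‖ev Ψ x‖ ≤ R := by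
          rw [hup x hx.1]
          exact hR _ ⟨_, hx.2, rfl⟩
        have h2 : ‖β.eval z1‖ ≤ ‖MvPolynomial.eval (ev Ψ x) B‖ := by
          have := hmin hx.2
          rw [hup x hx.1, ← hβe]
          exact this
        calc ‖x i‖ * ‖β.eval z1‖ ≤ ‖x i‖ * ‖MvPolynomial.eval (ev Ψ x) B‖ := by gcongr
          _ = ‖MvPolynomial.eval (ev Ψ x) B‖ * ‖x i‖ := mul_comm _ _
          _ ≤ C i * (1 + ‖ev Ψ x‖) ^ N i := hCN i x
          _ ≤ |C i| * (1 + R) ^ N i := by
            gcongr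
            exact le_abs_self _
      · rw [Set.not_nonempty_iff_eq_empty] at hne
        have e : {x : Fin n → ℂ | (∀ i, i ≠ i0 → ev Ψ x i = y0 i) ∧ ev Ψ x i0 ∈ Z} = ∅ := by
          rw [hne]
          ext x
          simp
        rw [e]
        exact Bornology.isBounded_empty
  -- the radius
  have ha1 : β.eval (ev Ψ a i0) ≠ 0 := by
    rw [hβe, hy0, Function.update_eq_self]
    exact ha
  obtain ⟨ρ, hρ, hρ2⟩ : ∃ ρ : ℝ, 0 < ρ ∧ ∀ z, ‖z - ev Ψ a i0‖ ≤ ρ → β.eval z ≠ 0 := by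
    have hc : ContinuousAt (fun z => β.eval z) (ev Ψ a i0) := by fun_prop
    obtain ⟨r, hr, hr2⟩ := Metric.eventually_nhds_iff.1 (hc.eventually_ne ha1)
    refine ⟨r / 2, by positivity, fun z hz => hr2 ?_⟩
    rw [dist_eq_norm]
    linarith
  refine par (X := X) (t := t) htc (v := fun x => Real.exp (-(κ * φ x.1))) ?_ (fun _ => Real.exp_pos _) β hβt hprop
    (fun x b hb hb0 => hloc x b hb hb0.le) ⟨a, fun i _ => rfl, ha⟩ hρ hρ2 ?_
  · exact Real.continuous_exp.comp ((continuous_const.mul (hφ.continuous.comp continuous_subtype_val)).neg)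
  · intro x _ hmin
    have h1 : Δ (fun _ : ℂ => (0 : ℝ)) (t x) = 0 := by
      rw [InnerProductSpace.laplacian_const]
      rfl
    refine hloc x (fun _ => 0) contDiffAt_const h1.le ?_
    simpa using hmin

end Pool.Agent.IK
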