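import Pool.Agent.Lib.IK.Liou

/-!
# The minimum principle on parabolic curves (author helper69)
-/

set_option autoImplicit false

noncomputable section

open Filter Topology Laplacian

namespace Pool.Agent.IK

/-- **The minimum principle.** `t : X → ℂ \ {β = 0}` is proper, `v` is positive, and `v + b ∘ t` has no local minimum if `Δ b < 0`:
then `v` has a local minimum over every disc which meets the image of `t`. -/
theorem par {X : Type*} [TopologicalSpace X] {t : X → ℂ} (ht : Continuous t) {v : X → ℝ}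
    (hv : Continuous v) (hv0 : ∀ x, 0 < v x) (β : Polynomial ℂ) (hβ : ∀ x, β.eval (t x) ≠ 0)
    (hprop : ∀ S : Set ℂ, IsCompact S → (∀ z ∈ S, β.eval z ≠ 0) → IsCompact (t ⁻¹' S))
    (h1 : ∀ x, ∀ b : ℂ → ℝ, ContDiffAt ℝ 2 b (t x) → Δ b (t x) < 0 → ¬ IsLocalMin (fun y => v y + b (t y)) x)
    (x0 : X) {ρ : ℝ} (hρ : 0 < ρ) (hball : ∀ z, ‖z - t x0‖ ≤ ρ → β.eval z ≠ 0)
    (h2 : ∀ x, ‖t x - t x0‖ ≤ ρ → ¬ IsLocalMin v x) : False := by
  set t0 := t x0 with ht0
  -- the compact part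
  set B : Set ℂ := {z | ‖z - t0‖ ≤ ρ} with hB
  have hBc : IsCompact B := by
    have : B = Metric.closedBall t0 ρ := by
      ext z
      rw [hB, Set.mem_ofPred_eq, Metric.mem_closedBall, dist_eq_norm]
    rw [this]
    exact isCompact_closedBall t0 ρ
  have hK0 : IsCompact (t ⁻¹' B) := hprop B hBc hball
  have hx0 : x0 ∈ t ⁻¹' B := by
    rw [Set.mem_preimage, hB, Set.mem_ofPred_eq, ← ht0, sub_self, norm_zero]
    exact hρ.le
  obtain ⟨y0, hy0, hmin⟩ := hK0.exists_isMinOn ⟨x0, hx0⟩ hv.continuousOn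
  obtain ⟨c, hc⟩ := bar_low β t0 hρ
  -- claim
  have claim : ∀ x, v y0 ≤ v x := by
    intro x1
    by_contra hlt
    rw [not_le] at hlt
    have hx1 : ρ < ‖t x1 - t0‖ := by
      by_contra h
      rw [not_lt] at h
      exact absurd (hmin (show x1 ∈ t ⁻¹' B from h)) (not_le.2 hlt)
    have hb1 : 0 ≤ bar β t0 (t x1) + c := hc _ hx1.le (hβ x1)
    obtain ⟨ε, hε, hε2⟩ : ∃ ε : ℝ, 0 < ε ∧ v x1 + ε * (bar β t0 (t x1) + c) < v y0 := by
      refine ⟨(v y0 - v x1) / (bar β t0 (t x1) + c + 1), div_pos (sub_pos.2 hlt) (by linarith), ?_⟩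
      have h3 : (v y0 - v x1) / (bar β t0 (t x1) + c + 1) * (bar β t0 (t x1) + c) < v y0 - v x1 := by
        rw [div_mul_eq_mul_div, div_lt_iff₀ (by linarith)]
        nlinarith
      linarith
    set F : X → ℝ := fun x => v x + ε * (bar β t0 (t x) + c) with hF
    obtain ⟨R, δ, hδ, hRδ⟩ := bar_up β t0 hρ (F x1 / ε - c)
    set S : Set ℂ := {z | ρ ≤ ‖z - t0‖ ∧ ‖z - t0‖ ≤ R ∧ δ ≤ ‖β.eval z‖} with hS
    have hSc : IsCompact S := by
      have h3 : S = {z | ρ ≤ ‖z - t0‖} ∩ Metric.closedBall t0 R ∩ {z | δ ≤ ‖β.eval z‖} := by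
        ext z
        rw [hS]
        simp only [Set.mem_ofPred_eq, Set.mem_inter_iff, Metric.mem_closedBall, dist_eq_norm, and_assoc]
      rw [h3]
      have h4 : IsClosed {z : ℂ | ρ ≤ ‖z - t0‖} := isClosed_le continuous_const (by fun_prop)
      have h5 : IsClosed {z : ℂ | δ ≤ ‖β.eval z‖} := isClosed_le continuous_const (by fun_prop)
      exact ((isCompact_closedBall t0 R).inter_left h4).inter_right h5
    have hSβ : ∀ z ∈ S, β.eval z ≠ 0 := by
      intro z hz h
      have h3 := hz.2.2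
      rw [h, norm_zero] at h3
      linarith
    have hT : IsCompact (t ⁻¹' S) := hprop S hSc hSβ
    -- a point with small F is in T
    have hin : ∀ x, ρ ≤ ‖t x - t0‖ → F x ≤ F x1 → x ∈ t ⁻¹' S := by
      intro x hx hFx
      have h3 : ε * (bar β t0 (t x) + c) ≤ F x1 := by
        have := hv0 x
        rw [hF] at hFx ⊢
        simp only at hFx ⊢
        linarith
      have h4 : bar β t0 (t x) ≤ F x1 / ε - c := by
        rw [le_sub_iff_add_le, le_div_iff₀ hε]
        linarith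
      obtain ⟨h5, h6⟩ := hRδ (t x) hx (hβ x) h4
      exact ⟨hx, h5, h6⟩
    have hx1T : x1 ∈ t ⁻¹' S := hin x1 hx1.le le_rfl
    have hne : ∀ x, ρ ≤ ‖t x - t0‖ → t x ≠ t0 := by
      intro x hx h
      rw [h, sub_self, norm_zero] at hx
      linarith
    have hFc : ContinuousOn F (t ⁻¹' S) := by
      intro x hx
      have h3 := (bar_lap β t0 (t x) (hne x hx.1) (hβ x)).1.continuousAt
      have h4 : ContinuousAt (fun x => bar β t0 (t x)) x := ContinuousAt.comp' h3 ht.continuousAt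
      exact (hv.continuousAt.add ((h4.add continuousAt_const).const_mul ε)).continuousWithinAt
    obtain ⟨x2, hx2, hmin2⟩ := hT.exists_isMinOn ⟨x1, hx1T⟩ hFc
    have hF2 : F x2 ≤ F x1 := hmin2 hx1T
    have hglob : ∀ x, ρ ≤ ‖t x - t0‖ → F x2 ≤ F x := by
      intro x hx
      by_cases h : F x ≤ F x1
      · exact hmin2 (hin x hx h)
      · exact hF2.trans (not_le.1 h).le
    have hx2ρ : ρ < ‖t x2 - t0‖ := by
      refine lt_of_le_of_ne hx2.1 fun h => ?_
      have h3 : x2 ∈ t ⁻¹' B := h.ge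
      have h4 : v y0 ≤ v x2 := hmin h3
      have h5 : 0 ≤ bar β t0 (t x2) + c := hc _ hx2.1 (hβ x2)
      have h6 : F x2 < v y0 := hF2.trans_lt hε2
      rw [hF] at h6
      simp only at h6
      nlinarith [mul_nonneg hε.le h5]
    obtain ⟨h7, h8⟩ := bar_lap β t0 (t x2) (hne x2 hx2.1) (hβ x2)
    have h9 : ContDiffAt ℝ 2 (fun z => ε * (bar β t0 z + c)) (t x2) :=
      contDiffAt_const.mul (h7.add contDiffAt_const)
    have h10 : Δ (fun z => ε * (bar β t0 z + c)) (t x2) < 0 := by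
      have e1 : (fun z => ε * (bar β t0 z + c)) = ε • (bar β t0 + fun _ => c) := rfl
      have e2 : Δ (fun _ : ℂ => c) (t x2) = 0 := by
        rw [InnerProductSpace.laplacian_const]
        rfl
      have h12 : ContDiffAt ℝ 2 (bar β t0 + fun _ => c) (t x2) := h7.add contDiffAt_const
      rw [e1, InnerProductSpace.laplacian_smul ε h12, h7.laplacian_add contDiffAt_const]
      rw [e2, add_zero, smul_eq_mul]
      exact mul_neg_of_pos_of_neg hε h8
    refine h1 x2 _ h9 h10 ?_
    have hopen : ∀ᶠ y in 𝓝 x2, ρ < ‖t y - t0‖ := by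
      have h11 : ContinuousAt (fun y => ‖t y - t0‖) x2 := by fun_prop
      exact h11.eventually_const_lt hx2ρ
    filter_upwards [hopen] with y hy
    exact hglob y hy.le
  exact h2 y0 hy0 (Eventually.of_forall claim)

end Pool.Agent.IK
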