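import Pool.Agent.Lib.IK.Lap

/-!
# Parabolic Riemann surfaces on which the multipliers are locally constant (author helper69)
-/

set_option autoImplicit false

noncomputable section

open Filter Topology Laplacian
open scoped Manifold ContDiff

namespace Pool.Agent.IK

variable {n : ℕ}

/-- `v` is twice continuously differentiable and superharmonic at `x` -/
def SuperharmonicAt {X : Type*} [TopologicalSpace X] [ChartedSpace ℂ X] (v : X → ℝ) (x : X) : Prop :=
  ContDiffAt ℝ 2 (fun s : ℂ => v ((chartAt ℂ x).symm s)) (chartAt ℂ x x) ∧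
    Δ (fun s : ℂ => v ((chartAt ℂ x).symm s)) (chartAt ℂ x x) ≤ 0

/-- parabolic Riemann surfaces -/
def Parabolic (X : Type*) [TopologicalSpace X] [ChartedSpace ℂ X] : Prop :=
  ∀ v : X → ℝ, (∀ x, 0 < v x) → (∀ x, SuperharmonicAt v x) → ∀ x y, v x = v y

variable {Γ : Type*} [Group Γ] [MulAction Γ (Fin n → ℂ)]

theorem partP (hol : ∀ γ : Γ, Differentiable ℂ fun x : Fin n → ℂ => γ • x) {K : Set (Fin n → ℂ)} (hKc : IsCompact K)
    (hcov : ∀ x : Fin n → ℂ, ∃ γ : Γ, γ • x ∈ K) {φ : (Fin n → ℂ) → ℝ} (hφ : ContDiff ℝ 2 φ)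
    (hpsh : ∀ x v : Fin n → ℂ, v ≠ 0 → 0 < levi φ x v)
    {X : Type*} [TopologicalSpace X] [ChartedSpace ℂ X] [IsManifold 𝓘(ℂ) 1 X] (hX : Parabolic X)
    {g : X → (Fin n → ℂ)} (hg : MDifferentiable 𝓘(ℂ) 𝓘(ℂ, Fin n → ℂ) g)
    (hconst : ∀ γ : Γ, IsLocallyConstant fun x => φ (γ • g x) - φ (g x)) (x y : X) : g x = g y := by
  obtain ⟨κ, hκ, hK⟩ := kappa hφ hKc fun x _ v hv => hpsh x v hv
  have hG : ∀ x : X, DifferentiableOn ℂ (fun s => g ((chartAt ℂ x).symm s)) (chartAt ℂ x).target := by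
    intro x
    rw [← mdifferentiableOn_iff_differentiableOn]
    exact (hg.mdifferentiableOn (s := Set.univ)).comp (mdifferentiableOn_atlas_symm (chart_mem_atlas ℂ x))
      (fun s _ => Set.mem_univ _)
  have hGa : ∀ (x : X) (s : ℂ), s ∈ (chartAt ℂ x).target → AnalyticAt ℂ (fun s => g ((chartAt ℂ x).symm s)) s :=
    fun x s hs => (hG x).analyticAt ((chartAt ℂ x).open_target.mem_nhds hs)
  have hlc : ∀ (x : X) (s : ℂ), s ∈ (chartAt ℂ x).target → ∀ γ : Γ, ∀ᶠ s' in 𝓝 s,
      φ (γ • g ((chartAt ℂ x).symm s')) - φ (g ((chartAt ℂ x).symm s')) =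
        φ (γ • g ((chartAt ℂ x).symm s)) - φ (g ((chartAt ℂ x).symm s)) := by
    intro x s hs γ
    have h1 := (hconst γ).eventually_eq ((chartAt ℂ x).symm s)
    exact ((chartAt ℂ x).continuousAt_symm hs).tendsto.eventually h1
  have hv := hX (fun x => Real.exp (-(κ * φ (g x)))) (fun x => Real.exp_pos _) fun x => by
    have hx := mem_chart_target ℂ x
    refine ⟨?_, (lap_curve hol hcov hφ hκ hK (hGa x _ hx) (hlc x _ hx)).1⟩
    simpa only [one_mul] using (lap_exp hφ κ 1 (hGa x _ hx)).1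
  have hder : ∀ (x : X) (s : ℂ), s ∈ (chartAt ℂ x).target → deriv (fun s => g ((chartAt ℂ x).symm s)) s = 0 := by
    intro x s hs
    by_contra h
    have h1 := (lap_curve hol hcov hφ hκ hK (hGa x s hs) (hlc x s hs)).2 h
    have h2 : (fun s => Real.exp (-(κ * φ (g ((chartAt ℂ x).symm s))))) = fun _ => Real.exp (-(κ * φ (g x))) := by
      funext s'
      exact hv _ _
    rw [h2, InnerProductSpace.laplacian_const] at h1
    exact lt_irrefl _ h1
  have hloc : IsLocallyConstant g := by
    rw [IsLocallyConstant.iff_eventually_eq]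
    intro x
    obtain ⟨r, hr, hr2⟩ := Metric.isOpen_iff.1 (chartAt ℂ x).open_target _ (mem_chart_target ℂ x)
    have h1 : ∀ s ∈ Metric.ball (chartAt ℂ x x) r, g ((chartAt ℂ x).symm s) = g x := by
      intro s hs
      have h2 := Metric.isOpen_ball.is_const_of_deriv_eq_zero (convex_ball (chartAt ℂ x x) r).isPreconnected
        ((hG x).mono hr2) (fun s hs => hder x s (hr2 hs)) hs (Metric.mem_ball_self hr)
      simp only [(chartAt ℂ x).left_inv (mem_chart_source ℂ x)] at h2
      exact h2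
    filter_upwards [(chartAt ℂ x).open_source.mem_nhds (mem_chart_source ℂ x),
      ((chartAt ℂ x).continuousAt (mem_chart_source ℂ x)).preimage_mem_nhds (Metric.ball_mem_nhds _ hr)] with y hy hy2
    have h4 := h1 _ hy2
    rwa [(chartAt ℂ x).left_inv hy] at h4
  classical
  have h2 := hX (fun z => if g z = g x then 2 else 1) (fun z => by split_ifs <;> norm_num) (fun z => by
    have hz := mem_chart_target ℂ z
    have h1 : (fun s : ℂ => if g ((chartAt ℂ z).symm s) = g x then (2 : ℝ) else 1) =ᶠ[𝓝 (chartAt ℂ z z)]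
        fun _ => if g z = g x then 2 else 1 := by
      have h3 := ((chartAt ℂ z).continuousAt_symm hz).tendsto.eventually (hloc.eventually_eq _)
      filter_upwards [h3] with s hs
      rw [hs, (chartAt ℂ z).left_inv (mem_chart_source ℂ z)]
    refine ⟨contDiffAt_const.congr_of_eventuallyEq h1, ?_⟩
    rw [(InnerProductSpace.laplacian_congr_nhds h1).eq_of_nhds, InnerProductSpace.laplacian_const]
    exact le_rfl) x y
  by_contra hne
  rw [if_pos rfl, if_neg (fun h => hne h.symm)] at h2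
  norm_num at h2

end Pool.Agent.IK
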