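import Pool.Agent.Lib.IK.Para

/-!
# Non-constant holomorphic maps of parabolic Riemann surfaces: some multiplier is unbounded above and below (author helper69)
-/

set_option autoImplicit false

noncomputable section

open Filter Topology Laplacian
open scoped Manifold ContDiff

namespace Pool.Agent.IK

variable {n : ℕ}

variable {Γ : Type*} [Group Γ] [MulAction Γ (Fin n → ℂ)]

theorem partP2 (hol : ∀ γ : Γ, Differentiable ℂ fun x : Fin n → ℂ => γ • x) {K : Set (Fin n → ℂ)} (hKc : IsCompact K)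
    (hcov : ∀ x : Fin n → ℂ, ∃ γ : Γ, γ • x ∈ K) {φ : (Fin n → ℂ) → ℝ} (hφ : ContDiff ℝ 2 φ)
    (hpsh : ∀ x v : Fin n → ℂ, v ≠ 0 → 0 < levi φ x v)
    (hkah : ∀ γ : Γ, ∃ f : (Fin n → ℂ) → ℂ, Differentiable ℂ f ∧ ∀ x, φ (γ • x) - φ x = (f x).re)
    {X : Type*} [TopologicalSpace X] [ChartedSpace ℂ X] [IsManifold 𝓘(ℂ) 1 X] (hX : Parabolic X)
    {g : X → (Fin n → ℂ)} (hg : MDifferentiable 𝓘(ℂ) 𝓘(ℂ, Fin n → ℂ) g) (hne : ∃ x y, g x ≠ g y) :
    ∃ γ : Γ, (∀ C : ℝ, ∃ x, C < φ (γ • g x) - φ (g x)) ∧ ∀ C : ℝ, ∃ x, φ (γ • g x) - φ (g x) < C := by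
  by_contra hcon
  push Not at hcon
  obtain ⟨x0, y0, hxy⟩ := hne
  refine hxy (partP hol hKc hcov hφ hpsh hX hg (fun γ => ?_) x0 y0)
  obtain ⟨f, hf, hf2⟩ := hkah γ
  have hG : ∀ x : X, DifferentiableOn ℂ (fun s => g ((chartAt ℂ x).symm s)) (chartAt ℂ x).target := by
    intro x
    rw [← mdifferentiableOn_iff_differentiableOn]
    exact (hg.mdifferentiableOn (s := Set.univ)).comp (mdifferentiableOn_atlas_symm (chart_mem_atlas ℂ x))
      (fun s _ => Set.mem_univ _)
  have hharm : ∀ (a b : ℝ) (x : X), SuperharmonicAt (fun z => a + b * (φ (γ • g z) - φ (g z))) x := by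
    intro a b x
    have h1 : DifferentiableOn ℂ (fun s => (a : ℂ) + b * f (g ((chartAt ℂ x).symm s))) (chartAt ℂ x).target :=
      ((hf.comp_differentiableOn (hG x)).const_mul (b : ℂ)).const_add (a : ℂ)
    have h2 := (h1.analyticAt ((chartAt ℂ x).open_target.mem_nhds (mem_chart_target ℂ x))).harmonicAt_re
    have h3 : (fun s : ℂ => a + b * (φ (γ • g ((chartAt ℂ x).symm s)) - φ (g ((chartAt ℂ x).symm s)))) =
        fun s => ((a : ℂ) + b * f (g ((chartAt ℂ x).symm s))).re := by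
      funext s
      rw [hf2, Complex.add_re, Complex.ofReal_re, Complex.re_ofReal_mul]
    unfold SuperharmonicAt
    simp only
    rw [h3]
    exact ⟨h2.1, h2.2.self_of_nhds.le⟩
  have hconst : ∀ x y, φ (γ • g x) - φ (g x) = φ (γ • g y) - φ (g y) := by
    by_cases h : ∃ C : ℝ, ∀ x, φ (γ • g x) - φ (g x) ≤ C
    · obtain ⟨C, hC⟩ := h
      have h1 := hX (fun z => (C + 1) + (-1) * (φ (γ • g z) - φ (g z))) (fun z => by
        have := hC z
        linarith) (hharm _ _)
      intro x y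
      have h2 := h1 x y
      linarith
    · push Not at h
      obtain ⟨C, hC⟩ := hcon γ h
      have h1 := hX (fun z => (1 - C) + 1 * (φ (γ • g z) - φ (g z))) (fun z => by
        have := hC z
        linarith) (hharm _ _)
      intro x y
      have h2 := h1 x y
      linarith
  rw [IsLocallyConstant.iff_eventually_eq]
  exact fun x => Eventually.of_forall fun y => hconst y x

end Pool.Agent.IK
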