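import Pool.Agent.Lib.IK.Core

/-!
# Pluriharmonic functions on `C^n` are real parts of entire functions (author helper69)
-/

set_option autoImplicit false
noncomputable section
open Filter Topology
namespace Pool.Agent.IK
variable {n : ℕ}

/-- multiplication by `i` -/
def mulI (n : ℕ) : (Fin n → ℂ) →L[ℝ] (Fin n → ℂ) :=
  (Complex.I • ContinuousLinearMap.id ℂ (Fin n → ℂ)).restrictScalars ℝ

theorem mulI_apply (v : Fin n → ℂ) : mulI n v = Complex.I • v := rfl

theorem plh {u : (Fin n → ℂ) → ℝ} (hu : ContDiff ℝ 2 u) (h : ∀ x v, levi u x v = 0) :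
    ∃ f : (Fin n → ℂ) → ℂ, Differentiable ℂ f ∧ ∀ x, u x = (f x).re := by
  have hu1 : ∀ x, HasFDerivAt u (fderiv ℝ u x) x := fun x => (hu.differentiable (by norm_num) x).hasFDerivAt
  have hd : Differentiable ℝ (fderiv ℝ u) := (hu.fderiv_right (m := 1) (by norm_num)).differentiable (by norm_num)
  have hsym : ∀ x v w, fderiv ℝ (fderiv ℝ u) x v w = fderiv ℝ (fderiv ℝ u) x w v := by
    intro x v w
    exact (hu.contDiffAt (x := x)).isSymmSndFDerivAt (by simp) v w
  have hpol : ∀ x v w, fderiv ℝ (fderiv ℝ u) x v w + fderiv ℝ (fderiv ℝ u) x (Complex.I • v) (Complex.I • w) = 0 := by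
    intro x v w
    have h1 := h x (v + w)
    have h2 := h x v
    have h3 := h x w
    unfold levi at h1 h2 h3
    have s1 := hsym x v w
    have s2 := hsym x (Complex.I • v) (Complex.I • w)
    simp only [smul_add, map_add, add_apply] at h1
    linarith
  have hII : ∀ v : Fin n → ℂ, Complex.I • (Complex.I • v) = -v := by
    intro v
    rw [smul_smul, Complex.I_mul_I, neg_smul, one_smul]
  -- the conjugate differential
  set A : (Fin n → ℂ) → (Fin n → ℂ) →L[ℝ] ℝ := fun x => -(fderiv ℝ u x).comp (mulI n) with hA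
  have hA1 : ∀ x, HasFDerivAt A (-((ContinuousLinearMap.compL ℝ (Fin n → ℂ) (Fin n → ℂ) ℝ).flip (mulI n)).comp
      (fderiv ℝ (fderiv ℝ u) x)) x := by
    intro x
    have h1 : HasFDerivAt (fun x => (fderiv ℝ u x).comp (mulI n))
        (((ContinuousLinearMap.compL ℝ (Fin n → ℂ) (Fin n → ℂ) ℝ).flip (mulI n)).comp
      (fderiv ℝ (fderiv ℝ u) x)) x :=
      ((ContinuousLinearMap.compL ℝ (Fin n → ℂ) (Fin n → ℂ) ℝ).flip (mulI n)).hasFDerivAt.comp x (hd x).hasFDerivAt
    exact h1.neg
  have hA2 : ∀ x v w, fderiv ℝ A x v w = -fderiv ℝ (fderiv ℝ u) x v (Complex.I • w) := by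
    intro x v w
    rw [(hA1 x).fderiv]
    rfl
  obtain ⟨q, hq⟩ := Convex.exists_forall_hasFDerivAt_of_fderiv_symmetric (𝕜 := ℝ) (s := (Set.univ : Set (Fin n → ℂ)))
    (ω := A) convex_univ isOpen_univ (fun x _ => (hA1 x).differentiableAt.differentiableWithinAt) (by
      intro x _ v w
      rw [hA2, hA2]
      have h1 := hpol x v (Complex.I • w)
      rw [hII, map_neg] at h1
      have h2 := hsym x (Complex.I • v) w
      linarith)
  refine ⟨fun x => (u x : ℂ) + Complex.I * (q x : ℂ), fun x => ?_, fun x => by simp⟩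
  have h1 : HasFDerivAt (fun x => (u x : ℂ) + Complex.I * (q x : ℂ))
      (Complex.ofRealCLM.comp (fderiv ℝ u x) + Complex.I • Complex.ofRealCLM.comp (A x)) x := by
    have e1 := (Complex.ofRealCLM.hasFDerivAt (x := u x)).comp x (hu1 x)
    have e2 := (Complex.ofRealCLM.hasFDerivAt (x := q x)).comp x (hq x (Set.mem_univ x))
    exact e1.add (e2.const_mul Complex.I)
  set L := Complex.ofRealCLM.comp (fderiv ℝ u x) + Complex.I • Complex.ofRealCLM.comp (A x) with hL
  have hLv : ∀ v, L v = (fderiv ℝ u x v : ℂ) - Complex.I * (fderiv ℝ u x (Complex.I • v) : ℂ) := by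
    intro v
    have e : A x v = -fderiv ℝ u x (Complex.I • v) := rfl
    have e2 : L v = (fderiv ℝ u x v : ℂ) + Complex.I * (A x v : ℂ) := rfl
    rw [e2, e]
    push_cast
    ring
  have hLI : ∀ v, L (Complex.I • v) = Complex.I * L v := by
    intro v
    rw [hLv, hLv, hII, map_neg]
    push_cast
    rw [mul_sub, ← mul_assoc, Complex.I_mul_I]
    ring
  let L' : (Fin n → ℂ) →L[ℂ] ℂ :=
    { toFun := L
      map_add' := L.map_add
      map_smul' := fun c v => by
        have e : c • v = (c.re : ℝ) • v + (c.im : ℝ) • (Complex.I • v) := by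
          funext i
          simp only [Pi.smul_apply, Pi.add_apply, smul_eq_mul, Complex.real_smul]
          conv_lhs => rw [← Complex.re_add_im c]
          ring
        rw [e, L.map_add, L.map_smul, L.map_smul, hLI, RingHom.id_apply, smul_eq_mul, Complex.real_smul,
          Complex.real_smul]
        conv_rhs => rw [← Complex.re_add_im c]
        ring
      cont := L.cont }
  have h2 : HasFDerivAt (fun x => (u x : ℂ) + Complex.I * (q x : ℂ)) L' x := by
    rw [hasFDerivAt_iff_isLittleO] at h1 ⊢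
    exact h1
  exact h2.differentiableAt

end Pool.Agent.IK
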