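import Pool.Agent.Lib.IK.Hes
import Pool.Agent.Lib.IK.Det

/-!
# The Schwarz lemma on a polydisc (author helper69)
-/

set_option autoImplicit false

noncomputable section

open Filter Topology
open scoped ComplexConjugate ComplexOrder

namespace Pool.Agent.IK

variable {n : ℕ}

theorem two_const (c : ℝ) : Two (fun _ => c) 0 0 :=
  ⟨fun _ => 0, Eventually.of_forall fun s => hasDerivAt_const s c, rfl, hasDerivAt_const 0 0⟩

theorem two_sum {ι : Type*} (s : Finset ι) {h : ι → ℝ → ℝ} {a c : ι → ℝ} (H : ∀ i ∈ s, Two (h i) (a i) (c i)) :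
    Two (fun t => ∑ i ∈ s, h i t) (∑ i ∈ s, a i) (∑ i ∈ s, c i) := by
  classical
  induction s using Finset.induction_on with
  | empty => simpa using two_const 0
  | insert i s hi ih =>
    simp only [Finset.sum_insert hi]
    exact (H i (Finset.mem_insert_self i s)).add (ih fun j hj => H j (Finset.mem_insert_of_mem hj))

/-- the barrier of the disc along a real line -/
theorem two_log {ρ : ℝ} {ζ c : ℂ} (hζ : 0 < ρ ^ 2 - ‖ζ‖ ^ 2) :
    Two (fun s : ℝ => Real.log (ρ ^ 2 - ‖ζ + (s : ℂ) * c‖ ^ 2)) (-(2 * (ζ * conj c).re) / (ρ ^ 2 - ‖ζ‖ ^ 2))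
      (-(2 * ‖c‖ ^ 2) / (ρ ^ 2 - ‖ζ‖ ^ 2) - 4 * (ζ * conj c).re ^ 2 / (ρ ^ 2 - ‖ζ‖ ^ 2) ^ 2) := by
  set q : ℝ → ℝ := fun s => ρ ^ 2 - ‖ζ + (s : ℂ) * c‖ ^ 2 with hq
  set b := (ζ * conj c).re with hb
  have hqe : ∀ s, q s = ρ ^ 2 - (‖ζ‖ ^ 2 + 2 * s * b + s ^ 2 * ‖c‖ ^ 2) := by
    intro s
    rw [hq, hb]
    simp only [← Complex.normSq_eq_norm_sq, Complex.normSq_apply, Complex.add_re, Complex.add_im, Complex.mul_re,
      Complex.mul_im, Complex.ofReal_re, Complex.ofReal_im, Complex.conj_re, Complex.conj_im]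
    ring
  have hq1 : ∀ s, HasDerivAt q (-(2 * b + 2 * s * ‖c‖ ^ 2)) s := by
    intro s
    have h1 : q = fun s => ρ ^ 2 - (‖ζ‖ ^ 2 + 2 * s * b + s ^ 2 * ‖c‖ ^ 2) := funext hqe
    rw [h1]
    have h2 : HasDerivAt (fun s : ℝ => 2 * s * b) (2 * b) s := by
      have := ((hasDerivAt_id s).const_mul 2).mul_const b
      simpa using this
    have h3 : HasDerivAt (fun s : ℝ => s ^ 2 * ‖c‖ ^ 2) (2 * s * ‖c‖ ^ 2) s := by
      have := (hasDerivAt_pow 2 s).mul_const (‖c‖ ^ 2)
      simpa using this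
    have h4 := ((h2.const_add (‖ζ‖ ^ 2)).add h3).const_sub (ρ ^ 2)
    exact h4
  have hq0 : q 0 = ρ ^ 2 - ‖ζ‖ ^ 2 := by
    rw [hqe]
    ring
  refine ⟨fun s => -(2 * b + 2 * s * ‖c‖ ^ 2) / q s, ?_, ?_, ?_⟩
  · have hc : ContinuousAt q 0 := (hq1 0).continuousAt
    have hp : ∀ᶠ s in 𝓝 (0 : ℝ), 0 < q s := hc.eventually_const_lt (by rw [hq0]; exact hζ)
    filter_upwards [hp] with s hs
    exact (hq1 s).log hs.ne'
  · simp only [hq0]
    ring
  · have h1 : HasDerivAt (fun s : ℝ => -(2 * b + 2 * s * ‖c‖ ^ 2)) (-(2 * ‖c‖ ^ 2)) 0 := by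
      have h2 : HasDerivAt (fun s : ℝ => 2 * s * ‖c‖ ^ 2) (2 * ‖c‖ ^ 2) 0 := by
        have := ((hasDerivAt_id (0 : ℝ)).const_mul 2).mul_const (‖c‖ ^ 2)
        simpa using this
      exact (h2.const_add (2 * b)).neg
    have h2 := h1.div (hq1 0) (by rw [hq0]; exact hζ.ne')
    refine h2.congr_deriv ?_
    rw [hq0]
    field_simp
    ring

theorem hes_pos {ψ : (Fin n → ℂ) → ℝ} (hψ : ContDiff ℝ 2 ψ) {y : Fin n → ℂ} (hpos : ∀ v, v ≠ 0 → 0 < levi ψ y v) :
    (hes ψ y).PosDef ∧ 0 < (hes ψ y).det.re := by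
  have h1 : (hes ψ y).PosDef := by
    refine Matrix.PosDef.of_dotProduct_mulVec_pos (hes_herm hψ y) fun {v} hv => ?_
    rw [hes_quad hψ]
    have := hpos v hv
    exact_mod_cast (by positivity : (0 : ℝ) < levi ψ y v / 4)
  refine ⟨h1, ?_⟩
  have h2 := h1.det_pos
  rw [Complex.pos_iff] at h2
  exact h2.1

/-- the second derivative test in all complex directions -/
theorem levi_max {U V : (Fin n → ℂ) → ℝ} (hU : ContDiff ℝ 2 U) {y : Fin n → ℂ} (hmax : IsLocalMax (fun z => U z + V z) y)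
    {v : Fin n → ℂ} {a1 a2 c1 c2 : ℝ} (h1 : Two (fun s : ℝ => V (y + (s : ℂ) • v)) a1 c1)
    (h2 : Two (fun s : ℝ => V (y + (s : ℂ) • (Complex.I • v))) a2 c2) : levi U y v + (c1 + c2) ≤ 0 := by
  have main : ∀ (w : Fin n → ℂ) (a c : ℝ), Two (fun s : ℝ => V (y + (s : ℂ) • w)) a c →
      fderiv ℝ (fderiv ℝ U) y w w + c ≤ 0 := by
    intro w a c h
    have hl : ∀ s : ℝ, HasDerivAt (fun s : ℝ => y + (s : ℂ) • w) w s := by
      intro s
      have h1 : HasDerivAt (fun s : ℝ => (s : ℂ)) 1 s := by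
        have h2 := (hasDerivAt_id (s : ℂ)).comp_ofReal
        simpa using h2
      simpa using (h1.smul_const w).const_add y
    have hS := Two.path (φ := U) (p := fun s : ℝ => y + (s : ℂ) • w) (v := fun _ => w) (w := 0)
      hU.contDiffAt (Eventually.of_forall hl) (hasDerivAt_const _ _)
    simp only [Complex.ofReal_zero, zero_smul, add_zero, map_zero] at hS
    have hT := ((hS.add h).const_mul (-1)).min (by
      have hc : Tendsto (fun s : ℝ => y + (s : ℂ) • w) (𝓝 0) (𝓝 y) := by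
        have := (hl 0).continuousAt.tendsto
        simpa using this
      filter_upwards [hc.eventually hmax] with s hs
      simp only [Complex.ofReal_zero, zero_smul, add_zero]
      linarith)
    linarith
  have m1 := main v a1 c1 h1
  have m2 := main (Complex.I • v) a2 c2 h2
  unfold levi
  linarith

/-- **The Schwarz lemma** on a polydisc. -/
theorem schwarz {U ψ : (Fin n → ℂ) → ℝ} (hU : ContDiff ℝ 2 U) (hψ : ContDiff ℝ 2 ψ)
    (hpos : ∀ y v, v ≠ 0 → 0 < levi ψ y v) (hle : ∀ y v, levi ψ y v ≤ levi U y v) (x : Fin n → ℂ) {ρ : ℝ} (hρ : 0 < ρ) :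
    ∃ y, ‖y - x‖ < ρ ∧ U x + 2 * n * Real.log ρ ≤ U y - Real.log (hes ψ y).det.re + n * Real.log 2 := by
  set q : (Fin n → ℂ) → Fin n → ℝ := fun y j => ρ ^ 2 - ‖y j - x j‖ ^ 2 with hq
  set G : (Fin n → ℂ) → ℝ := fun y => Real.exp (U y) * ∏ j, (q y j) ^ 2 with hG
  have hGc : Continuous G := by
    have := hU.continuous
    rw [hG, hq]
    fun_prop
  obtain ⟨y, hy, hmax⟩ := (isCompact_closedBall x ρ).exists_isMaxOn ⟨x, Metric.mem_closedBall_self hρ.le⟩
    hGc.continuousOn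
  have hqx : ∀ j, q x j = ρ ^ 2 := by
    intro j
    rw [hq]
    simp
  have hG0 : 0 < G x := by
    rw [hG]
    simp only [hqx]
    positivity
  have hGy : 0 < G y := lt_of_lt_of_le hG0 (hmax (Metric.mem_closedBall_self hρ.le))
  have hqy0 : ∀ j, 0 ≤ q y j := by
    intro j
    have h1 : ‖y j - x j‖ ≤ ρ := by
      rw [← dist_eq_norm]
      exact (dist_le_pi_dist y x j).trans hy
    rw [hq]
    have h2 : ‖y j - x j‖ ^ 2 ≤ ρ ^ 2 := pow_le_pow_left₀ (norm_nonneg _) h1 2
    simp only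
    linarith
  have hqy : ∀ j, 0 < q y j := by
    intro j
    refine lt_of_le_of_ne (hqy0 j) fun h => ?_
    have h1 : ∏ j, (q y j) ^ 2 = 0 := Finset.prod_eq_zero (Finset.mem_univ j) (by rw [← h]; norm_num)
    rw [hG] at hGy
    simp only [h1, mul_zero] at hGy
    exact lt_irrefl _ hGy
  have hyb : y ∈ Metric.ball x ρ := by
    rw [Metric.mem_ball, dist_pi_lt_iff hρ]
    intro j
    rw [dist_eq_norm]
    have h1 := hqy j
    rw [hq] at h1
    simp only at h1
    exact lt_of_pow_lt_pow_left₀ 2 hρ.le (by linarith)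
  have hloc : IsLocalMax (fun z => U z + 2 * ∑ j, Real.log (q z j)) y := by
    have h1 : ∀ᶠ z in 𝓝 y, ∀ j, 0 < q z j := by
      rw [eventually_all]
      intro j
      have hc : Continuous fun z : Fin n → ℂ => ρ ^ 2 - ‖z j - x j‖ ^ 2 := by fun_prop
      exact hc.continuousAt.eventually_const_lt (hqy j)
    have hlog : ∀ z, (∀ j, 0 < q z j) → Real.log (G z) = U z + 2 * ∑ j, Real.log (q z j) := by
      intro z hz
      rw [hG]
      simp only
      rw [Real.log_mul (Real.exp_pos _).ne' (Finset.prod_ne_zero_iff.2 fun j _ => (pow_pos (hz j) 2).ne'), Real.log_exp,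
        Real.log_prod (fun j _ => (pow_pos (hz j) 2).ne'), Finset.mul_sum]
      congr 1
      refine Finset.sum_congr rfl fun j _ => ?_
      rw [Real.log_pow]
      norm_num
    filter_upwards [h1, Metric.isOpen_ball.mem_nhds hyb] with z hz hzb
    rw [← hlog z hz, ← hlog y hqy]
    refine Real.log_le_log ?_ (hmax (Metric.ball_subset_closedBall hzb))
    rw [hG]
    exact mul_pos (Real.exp_pos _) (Finset.prod_pos fun j _ => pow_pos (hz j) 2)
  refine ⟨y, by rwa [← dist_eq_norm], ?_⟩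
  have hlevi : ∀ v, levi U y v ≤ 8 * ∑ j, ρ ^ 2 / (q y j) ^ 2 * ‖v j‖ ^ 2 := by
    intro v
    have h1 : ∀ w : Fin n → ℂ, Two (fun s : ℝ => 2 * ∑ j, Real.log (q (y + (s : ℂ) • w) j))
        (2 * ∑ j, (-(2 * ((y j - x j) * conj (w j)).re) / (q y j)))
        (2 * ∑ j, (-(2 * ‖w j‖ ^ 2) / (q y j) - 4 * ((y j - x j) * conj (w j)).re ^ 2 / (q y j) ^ 2)) := by
      intro w
      refine Two.const_mul 2 (two_sum Finset.univ fun j _ => ?_)
      have h2 := two_log (ρ := ρ) (ζ := y j - x j) (c := w j) (hqy j)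
      have h3 : (fun s : ℝ => Real.log (q (y + (s : ℂ) • w) j)) =
          fun s : ℝ => Real.log (ρ ^ 2 - ‖y j - x j + (s : ℂ) * w j‖ ^ 2) := by
        funext s
        rw [hq]
        simp only [Pi.add_apply, Pi.smul_apply, smul_eq_mul]
        congr 4
        ring
      rw [h3]
      exact h2
    have h4 := levi_max hU hloc (v := v) (h1 v) (h1 (Complex.I • v))
    have h5 : (2 * ∑ j, (-(2 * ‖v j‖ ^ 2) / (q y j) - 4 * ((y j - x j) * conj (v j)).re ^ 2 / (q y j) ^ 2)) +
        (2 * ∑ j, (-(2 * ‖(Complex.I • v) j‖ ^ 2) / (q y j) -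
          4 * ((y j - x j) * conj ((Complex.I • v) j)).re ^ 2 / (q y j) ^ 2)) =
        -(8 * ∑ j, ρ ^ 2 / (q y j) ^ 2 * ‖v j‖ ^ 2) := by
      rw [← mul_add, ← Finset.sum_add_distrib, Finset.mul_sum, Finset.mul_sum, ← Finset.sum_neg_distrib]
      refine Finset.sum_congr rfl fun j _ => ?_
      have e1 : ‖(Complex.I • v) j‖ = ‖v j‖ := by
        rw [Pi.smul_apply, smul_eq_mul, norm_mul, Complex.norm_I, one_mul]
      have e2 : ((y j - x j) * conj ((Complex.I • v) j)).re = ((y j - x j) * conj (v j)).im := by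
        rw [Pi.smul_apply, smul_eq_mul, map_mul, Complex.conj_I]
        simp only [Complex.mul_re, Complex.mul_im, Complex.neg_re, Complex.neg_im, Complex.I_re, Complex.I_im]
        ring
      have e3 : ((y j - x j) * conj (v j)).re ^ 2 + ((y j - x j) * conj (v j)).im ^ 2 = ‖y j - x j‖ ^ 2 * ‖v j‖ ^ 2 := by
        rw [← mul_pow, ← RCLike.norm_conj (v j), ← norm_mul, ← Complex.normSq_eq_norm_sq, Complex.normSq_apply]
        ring
      have e4 : ρ ^ 2 = q y j + ‖y j - x j‖ ^ 2 := by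
        rw [hq]
        ring
      rw [e1, e2, e4]
      have hne := (hqy j).ne'
      field_simp
      linear_combination (-8) * e3
    linarith
  have hdet : (hes ψ y).det.re ≤ ∏ j, (2 * ρ ^ 2 / (q y j) ^ 2) := by
    refine det_le_diag (hes_herm hψ y) (fun v => ?_) (fun j => by have := hqy j; positivity) fun v => ?_
    · rw [hes_quad hψ, Complex.ofReal_re]
      by_cases hv : v = 0
      · rw [hv]
        unfold levi
        simp
      · have := hpos y v hv
        positivity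
    · rw [hes_quad hψ, Complex.ofReal_re]
      have h6 := (hle y v).trans (hlevi v)
      have h7 : ∑ j, (2 * ρ ^ 2 / (q y j) ^ 2) * ‖v j‖ ^ 2 = 2 * ∑ j, ρ ^ 2 / (q y j) ^ 2 * ‖v j‖ ^ 2 := by
        rw [Finset.mul_sum]
        refine Finset.sum_congr rfl fun j _ => ?_
        ring
      rw [h7]
      linarith
  have hdp := (hes_pos hψ fun v hv => hpos y v hv).2
  have h8 := Real.log_le_log hdp hdet
  rw [Real.log_prod (fun j _ => by have := hqy j; positivity)] at h8
  have h9 : ∑ j, Real.log (2 * ρ ^ 2 / (q y j) ^ 2) = n * Real.log 2 + 2 * n * Real.log ρ - 2 * ∑ j, Real.log (q y j) := by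
    have h10 : ∀ j, Real.log (2 * ρ ^ 2 / (q y j) ^ 2) = Real.log 2 + 2 * Real.log ρ - 2 * Real.log (q y j) := by
      intro j
      rw [Real.log_div (by positivity) (pow_pos (hqy j) 2).ne', Real.log_mul (by norm_num) (by positivity), Real.log_pow,
        Real.log_pow]
      norm_num
    simp only [h10]
    rw [Finset.sum_sub_distrib, Finset.sum_const, Finset.card_univ, Fintype.card_fin, nsmul_eq_mul, ← Finset.mul_sum]
    ring
  rw [h9] at h8
  have h11 : U x + 2 * ∑ j, Real.log (q x j) ≤ U y + 2 * ∑ j, Real.log (q y j) := by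
    have h12 : ∀ z, (∀ j, 0 < q z j) → Real.log (G z) = U z + 2 * ∑ j, Real.log (q z j) := by
      intro z hz
      rw [hG]
      simp only
      rw [Real.log_mul (Real.exp_pos _).ne' (Finset.prod_ne_zero_iff.2 fun j _ => (pow_pos (hz j) 2).ne'), Real.log_exp,
        Real.log_prod (fun j _ => (pow_pos (hz j) 2).ne'), Finset.mul_sum]
      congr 1
      refine Finset.sum_congr rfl fun j _ => ?_
      rw [Real.log_pow]
      norm_num
    rw [← h12 x (fun j => by rw [hqx]; positivity), ← h12 y hqy]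
    exact Real.log_le_log hG0 (hmax (Metric.mem_closedBall_self hρ.le))
  have h13 : ∑ j, Real.log (q x j) = 2 * n * Real.log ρ := by
    simp only [hqx, Real.log_pow]
    rw [Finset.sum_const, Finset.card_univ, Fintype.card_fin, nsmul_eq_mul]
    push_cast
    ring
  rw [h13] at h11
  linarith

end Pool.Agent.IK
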