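import Mathlib

/-!
# Iitaka's conjecture: polynomial multipliers (author helper69). Statements of the algebraic and function theoretic modules

Problem MP_bb7be3_ag. Each `S_X : Prop` is to be proved as `theorem tX : S_X` (or from the stated statements) in the module
`Pool/Agent/Lib/IK/X.lean` with the first lines `import Pool.Agent.Lib.IK.Spec`, `set_option autoImplicit false`,
`noncomputable section`, `namespace Pool.Agent.IK`, `open Filter Topology`. All modules are independent. Auxiliary declarations are `private`.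
-/

set_option autoImplicit false

noncomputable section

namespace Pool.Agent.IK

open Filter Topology

/-- the polynomial map `Ψ : C^n → C^n` -/
def ev {n : ℕ} (Ψ : Fin n → MvPolynomial (Fin n) ℂ) (x : Fin n → ℂ) : Fin n → ℂ := fun i => MvPolynomial.eval x (Ψ i)

/-- the Jacobian matrix of `Ψ` -/
def jac {n : ℕ} (Ψ : Fin n → MvPolynomial (Fin n) ℂ) : Matrix (Fin n) (Fin n) (MvPolynomial (Fin n) ℂ) :=
  Matrix.of fun i j => MvPolynomial.pderiv j (Ψ i)

/-- at most polynomial growth -/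
def PG {n : ℕ} (f : (Fin n → ℂ) → ℝ) : Prop := ∃ (C : ℝ) (N : ℕ), ∀ x, f x ≤ C * (1 + ‖x‖) ^ N

/-- (60 lines) **Ind**, the Jacobian criterion. PROOF. Suppose there is `P ≠ 0` with `aeval Ψ P = 0`; take one with minimal `totalDegree` (`Nat.find`). Chain rule (induction on `P`, `MvPolynomial.induction_on`, `pderiv_mul`): `pderiv j (aeval Ψ P) = ∑ k, aeval Ψ (pderiv k P) * pderiv j (Ψ k)`.
So the vector `a k = aeval Ψ (pderiv k P)` satisfies `a ᵥ* jac Ψ = 0`, and `a = 0` because the determinant is not zero (`MvPolynomial` is a domain; `Matrix.eq_zero_of_vecMul_eq_zero`). `pderiv k P` has a smaller total degree if it is not `0` (or use another measure: every monomial `m` of `pderiv k P` gives the monomial `m + single k 1` of `P`, `MvPolynomial.coeff_pderiv`),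
so `pderiv k P = 0` for all `k` by minimality; `coeff_pderiv` and characteristic `0`: all coefficients of `P` at `m ≠ 0` are `0`, `P = C c`, `aeval Ψ P = C c = 0`: `P = 0`, a contradiction. -/
def S_Ind : Prop := ∀ (n : ℕ) (Ψ : Fin n → MvPolynomial (Fin n) ℂ), (jac Ψ).det ≠ 0 → AlgebraicIndependent ℂ Ψ

/-- (120 lines) **AlgB** (from Ind). PROOF. (0) For every `h : MvPolynomial (Fin n) ℂ` there is `Q : Polynomial (MvPolynomial (Fin n) ℂ)`, `Q ≠ 0`, with `Q.eval₂ (bind₁ Ψ) h = 0`, that is `∑ k, bind₁ Ψ (Q.coeff k) * h ^ k = 0`: `Ψ` is algebraically independent (Ind) and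
`trdeg ℂ (MvPolynomial (Fin n) ℂ) = n` (`MvPolynomial.trdeg_of_isDomain`), so `Ψ` is a transcendence basis (`AlgebraicIndependent.isTranscendenceBasis_of_...trdeg_le...`), so `h` is algebraic over `Algebra.adjoin ℂ (Set.range Ψ)` (`IsTranscendenceBasis.isAlgebraic`), and `AlgebraicIndependent.aevalEquiv` turns the coefficients into polynomials. (Or: the family `Option (Fin n)`, `none ↦ h`, is not algebraically independent.)
(1) `h = X i`: `Q = Q_i`, `d = Q.natDegree`, `q = Q.leadingCoeff ≠ 0`. For all `x`: `x i` is a root of the polynomial `Q^x = Q.map (eval (ev Ψ x))`; if `eval (ev Ψ x) q ≠ 0` then `‖q‖ ‖x i‖ ≤ ∑_(k ≤ d) ‖Q.coeff k (ev Ψ x)‖` (`Polynomial.IsRoot.norm_lt_cauchyBound`, or directly: if `|w| ≥ 1`, `q w^d = -∑_(k<d) c_k w^k` then `|q| |w| ≤ ∑ |c_k|`; if `|w| ≤ 1` trivial)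
(`d = 0` is impossible: then `Q = C q`, `bind₁ Ψ q = 0`, `q = 0` by Ind). If it is `0` trivial. Polynomials have polynomial growth: `‖eval y p‖ ≤ C (1 + ‖y‖)^N`.
(2) `h = J = (jac Ψ).det ≠ 0`: divide `Q` by the largest power of the variable (`Polynomial.X`): `Q.coeff 0 ≠ 0` (as `J ≠ 0` and the ring is a domain we still have `Q(J) = 0`). So `bind₁ Ψ (Q.coeff 0) = -J * (...)`: if `J(x) = 0` then `Q.coeff 0` vanishes at `ev Ψ x`.
(3) `B = (Q.coeff 0 of (2)) * ∏ i, q_i`: `bind₁ Ψ B ≠ 0` (Ind, `B ≠ 0`); the other factors have polynomial growth. -/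
def S_AlgB : Prop := ∀ (n : ℕ) (Ψ : Fin n → MvPolynomial (Fin n) ℂ), (jac Ψ).det ≠ 0 →
  ∃ B : MvPolynomial (Fin n) ℂ, MvPolynomial.bind₁ Ψ B ≠ 0 ∧
    (∀ x, MvPolynomial.eval (ev Ψ x) B ≠ 0 → MvPolynomial.eval x (jac Ψ).det ≠ 0) ∧
    ∀ i, ∃ (C : ℝ) (N : ℕ), ∀ x, ‖MvPolynomial.eval (ev Ψ x) B‖ * ‖x i‖ ≤ C * (1 + ‖ev Ψ x‖) ^ N

/-- (30 lines) **Der.** PROOF. Induction on `p` (`MvPolynomial.induction_on`): constants, sums, `p * X i` (product rule, `pderiv_mul`, `pderiv_X`). -/
def S_Der : Prop := ∀ (n : ℕ) (p : MvPolynomial (Fin n) ℂ) (x : Fin n → ℂ),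
  HasStrictFDerivAt (fun x : Fin n → ℂ => MvPolynomial.eval x p)
    (∑ j, MvPolynomial.eval x (MvPolynomial.pderiv j p) • ContinuousLinearMap.proj (R := ℂ) (φ := fun _ : Fin n => ℂ) j) x

/-- (80 lines) **Inv** (from Der), the inverse function theorem along a coordinate line. PROOF. `ev Ψ` is analytic (`AnalyticAt`: polynomials; or `ContDiff ℂ ω`) with the strict derivative `L` at `x`, whose matrix is `jac Ψ` at `x`, of determinant `eval x (jac Ψ).det ≠ 0` (`RingHom.map_det`), so `L` is invertible (a `ContinuousLinearEquiv`).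
`HasStrictFDerivAt.localInverse` and `ContDiffAt.to_localInverse` (analyticity or differentiability in a neighbourhood); `g t = localInverse (Function.update (ev Ψ x) i0 t)`: `t ↦ Function.update y i0 t = y + (t - y i0) • Pi.single i0 1` is affine. `g` is differentiable in a neighbourhood of `ev Ψ x i0`, so analytic
(`DifferentiableOn.analyticAt`, one variable). `eventually_right_inverse`. -/
def S_Inv : Prop := ∀ (n : ℕ) (Ψ : Fin n → MvPolynomial (Fin n) ℂ) (x : Fin n → ℂ) (i0 : Fin n),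
  MvPolynomial.eval x (jac Ψ).det ≠ 0 →
    ∃ g : ℂ → (Fin n → ℂ), AnalyticAt ℂ g (ev Ψ x i0) ∧ g (ev Ψ x i0) = x ∧
      ∀ᶠ t in 𝓝 (ev Ψ x i0), ev Ψ (g t) = Function.update (ev Ψ x) i0 t

/-- (100 lines) **EntP**: an entire function of polynomial growth is a polynomial. PROOF. Induction on `n` (`n = 0`: a constant). One variable: for a fixed `x'`, `z ↦ f (Fin.cons z x')` is entire and `≤ C' (1 + |z|)^N` (`C'` depends on `x'`), so it is a polynomial of degree `≤ N`: the iterated derivatives of order `> N` vanish (Cauchy's estimate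
`Complex.norm_iteratedDeriv_le_of_forall_mem_sphere_norm_le` with radius to infinity; `Complex.taylorSeries_eq_of_entire'`). Lagrange interpolation at the nodes `0, 1, .., N` (`Lagrange.interpolate`, `Lagrange.eq_interpolate`): `f (Fin.cons z x') = ∑_(j ≤ N) f (Fin.cons j x') * L_j(z)`, where `L_j` is a polynomial.
`x' ↦ f (Fin.cons j x')` is entire and of polynomial growth, so a polynomial `p_j` by induction. `p = ∑ rename Fin.succ p_j * aeval (X 0) L_j`. -/
def S_EntP : Prop := ∀ (n : ℕ) (f : (Fin n → ℂ) → ℂ), Differentiable ℂ f → PG (fun x => ‖f x‖) →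
  ∃ p : MvPolynomial (Fin n) ℂ, ∀ x, f x = MvPolynomial.eval x p

/-- (40 lines) **BC**, Borel-Caratheodory. PROOF. `x ≠ 0`, `F(z) = f(z • x)`, entire in one variable; for `|z| ≤ 2`, `Re F(z) ≤ |C| (1 + 2‖x‖)^N =: M - 1`; `Complex.borelCaratheodory` with `R = 2`, `z = 1`: `‖f x‖ ≤ 2 M + 3 ‖f 0‖` or similar. -/
def S_BC : Prop := ∀ (n : ℕ) (f : (Fin n → ℂ) → ℂ), Differentiable ℂ f → PG (fun x => (f x).re) → PG fun x => ‖f x‖

/-- (110 lines) **Div**. PROOF. (1) One variable: `Q : Polynomial ℂ`, `f` entire, `‖Q.eval z * f z‖ ≤ M` for `‖z‖ = 1`: then `‖Q.leadingCoeff‖ * ‖f 0‖ ≤ M`. Induction on the degree: `Q = C a`: maximum principle (`Complex.norm_le_of_forall_mem_frontier_norm_le` on the unit ball). `Q = (X - C z1) * Q1` (`ℂ` is algebraically closed): let `f1 z = (1 - conj z1 * z) * f z` if `‖z1‖ < 1`, and `f1 z = (z - z1) * f z` otherwise. For `‖z‖ = 1` we have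
`‖1 - conj z1 * z‖ = ‖z - z1‖`, so `‖Q1 f1‖ = ‖Q f‖`; `‖f1 0‖ ≥ ‖f 0‖`. (2) CLAIM: for every `q ≠ 0` in `MvPolynomial (Fin n) ℂ` there is `c > 0` such that for all entire `f`, all `x`, `M`: if `‖eval (x + w) q * f (x + w)‖ ≤ M` for all `‖w‖ ≤ 1` then `c * ‖f x‖ ≤ M`. Induction on `n`; `n = 0`: `q` is a constant. `n + 1`: `Q = MvPolynomial.finSuccEquiv ℂ n q ≠ 0`,
`l = Q.leadingCoeff ≠ 0`, `c` from `l`. For `x = Fin.cons x0 x'` apply the induction hypothesis to `l`, `x' ↦ f (Fin.cons x0 x')`, `M`: for `‖w'‖ ≤ 1` we need `‖eval (x' + w') l * f (Fin.cons x0 (x' + w'))‖ ≤ M`: trivial if `eval (x' + w') l = 0`, otherwise (1) for `z ↦ f (Fin.cons (x0 + z) (x' + w'))` and the polynomial `(Q.map (eval (x' + w'))).comp (X + C x0)`,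
whose leading coefficient is `eval (x' + w') l` (`MvPolynomial.eval_eq_eval_mv_eval'`; the norm of `Fin n → ℂ` is the maximum). (3) `M = C (1 + ‖x‖ + 1)^N ≤ C 2^N (1 + ‖x‖)^N`. -/
def S_Div : Prop := ∀ (n : ℕ) (q : MvPolynomial (Fin n) ℂ) (f : (Fin n → ℂ) → ℂ), q ≠ 0 → Differentiable ℂ f →
  PG (fun x => ‖MvPolynomial.eval x q * f x‖) → PG fun x => ‖f x‖

/-- (50 lines) **Jac1** (from Der): polynomial automorphisms have constant Jacobians. PROOF. `J_P(ev Q x) * J_Q(x) = 1` for all `x`: the chain rule for `ev P ∘ ev Q = id` (Der: the derivative of `ev P` at `y` has the matrix `(jac P).map (eval y)`; or the chain rule for `pderiv` of `bind₁ Q (P i) = X i`), determinants. By symmetry `J_P * bind₁ P J_Q = 1` (`MvPolynomial.funext`), so `J_P` is a unit of `MvPolynomial (Fin n) ℂ`,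
so a constant (`MvPolynomial.isUnit_iff_eq_C_of_isReduced` or similar). -/
def S_Jac1 : Prop := ∀ (n : ℕ) (P Q : Fin n → MvPolynomial (Fin n) ℂ), (∀ x, ev P (ev Q x) = x) → (∀ x, ev Q (ev P x) = x) →
  ∃ c : ℂ, c ≠ 0 ∧ (jac P).det = MvPolynomial.C c

end Pool.Agent.IK
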