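import Pool.Agent.Lib.IK.ThN

/-!
# Potentials of regular growth (author helper69)
-/

set_option autoImplicit false

noncomputable section

open Filter Topology Laplacian
open scoped ComplexConjugate ComplexOrder

namespace Pool.Agent.IK

variable {n : ℕ}
variable {Γ : Type*} [Group Γ] [MulAction Γ (Fin n → ℂ)]

theorem inv_cont {φ : (Fin n → ℂ) → ℝ} (hφ : ContDiff ℝ 2 φ) (hD : ∀ y, 0 < (hes φ y).det.re) :
    Continuous fun x => (hes φ x)⁻¹ := by
  have h1 : (fun x => (hes φ x)⁻¹) = fun x => ((hes φ x).det)⁻¹ • (hes φ x).adjugate := by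
    funext x
    rw [Matrix.inv_def, Ring.inverse_eq_inv']
  rw [h1]
  have h2 := hes_cont hφ
  refine (h2.matrix_det.inv₀ fun x h => ?_).smul h2.matrix_adjugate
  have h3 := hD x
  rw [h, Complex.zero_re] at h3
  exact lt_irrefl _ h3

/-- upper bound for the invariant density -/
theorem dens_upper (hol : ∀ γ : Γ, Differentiable ℂ fun x : Fin n → ℂ => γ • x) {K : Set (Fin n → ℂ)} (hKc : IsCompact K)
    (hcov : ∀ x : Fin n → ℂ, ∃ γ : Γ, γ • x ∈ K) {φ : (Fin n → ℂ) → ℝ} (hφ : ContDiff ℝ 2 φ)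
    (hpsh : ∀ x v : Fin n → ℂ, v ≠ 0 → 0 < levi φ x v)
    (hinv : ∀ (γ : Γ) (x v : Fin n → ℂ), levi φ (γ • x) (fderiv ℂ (fun y : Fin n → ℂ => γ • y) x v) = levi φ x v)
    {W : (Fin n → ℂ) → ℝ} (hW : InvDens Γ W) : ∃ A B : ℝ, 0 < A ∧ ∀ (x : Fin n → ℂ) (ρ : ℝ), 0 < ρ →
      ∃ y, ‖y - x‖ < ρ ∧ W x ≤ B + A * (φ y - φ x) - 2 * n * Real.log ρ := by
  obtain ⟨A, hA, hA2⟩ := dens_lower hol hKc hcov hφ hpsh hinv hW
  obtain ⟨z, -, hmax⟩ := dens_ratio hKc hcov hφ hpsh hinv hW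
  refine ⟨A + 1, W z - Real.log (hes φ z).det.re + n * Real.log 2, by linarith, fun x ρ hρ => ?_⟩
  have hUc : ContDiff ℝ 2 fun y => W y + (A + 1) * φ y := hW.1.add (contDiff_const.mul hφ)
  obtain ⟨y, hy, h1⟩ := schwarz hUc hφ hpsh (fun y v => by
    rw [levi_add hW.1 (contDiff_const.mul hφ), levi_const_mul hφ]
    linarith [hA2 y v]) x hρ
  refine ⟨y, hy, ?_⟩
  have h2 := hmax y
  linarith

/-- **Theorem I.** -/
theorem partI (hol : ∀ γ : Γ, Differentiable ℂ fun x : Fin n → ℂ => γ • x) {K : Set (Fin n → ℂ)} (hKc : IsCompact K)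
    (hcov : ∀ x : Fin n → ℂ, ∃ γ : Γ, γ • x ∈ K) {φ : (Fin n → ℂ) → ℝ} (hφ : ContDiff ℝ 2 φ)
    (hpsh : ∀ x v : Fin n → ℂ, v ≠ 0 → 0 < levi φ x v)
    (hinv : ∀ (γ : Γ) (x v : Fin n → ℂ), levi φ (γ • x) (fderiv ℂ (fun y : Fin n → ℂ => γ • y) x v) = levi φ x v)
    (hreg : ∀ ε : ℝ, 0 < ε → ∃ C : ℝ, ∀ x y : Fin n → ℂ, ‖y - x‖ ≤ Real.exp (-(ε * φ x + C)) → φ y ≤ (1 + ε) * φ x + C)
    {W : (Fin n → ℂ) → ℝ} (hW : InvDens Γ W) : ∃ x, ((hes φ x)⁻¹ * hes W x).trace.re ≤ 0 := by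
  by_contra hcon
  push Not at hcon
  have hD : ∀ y, 0 < (hes φ y).det.re := fun y => (hes_pos hφ fun v hv => hpsh y v hv).2
  have hPD : ∀ y, (hes φ y).PosDef := fun y => (hes_pos hφ fun v hv => hpsh y v hv).1
  have hIc := inv_cont hφ hD
  have ht1 : Continuous fun x => ((hes φ x)⁻¹ * hes W x).trace.re :=
    Complex.continuous_re.comp ((hIc.matrix_mul (hes_cont hW.1)).matrix_trace)
  have ht2 : Continuous fun x => ((hes φ x)⁻¹).trace.re := Complex.continuous_re.comp hIc.matrix_trace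
  have hK' : IsCompact (Metric.cthickening 1 K) := hKc.cthickening
  obtain ⟨γ0, hγ0⟩ := hcov 0
  have hsub : ∀ y0 ∈ K, Metric.closedBall y0 1 ⊆ Metric.cthickening 1 K :=
    fun y0 hy0 => Metric.closedBall_subset_cthickening hy0 1
  have hne : (Metric.cthickening 1 K).Nonempty := ⟨_, hsub _ hγ0 (Metric.mem_closedBall_self zero_le_one)⟩
  obtain ⟨x1, -, hx1⟩ := hK'.exists_isMinOn hne ht1.continuousOn
  obtain ⟨x2, -, hx2⟩ := hK'.exists_isMaxOn hne ht2.continuousOn
  set c := ((hes φ x1)⁻¹ * hes W x1).trace.re with hc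
  have hc0 : 0 < c := hcon x1
  set T := |((hes φ x2)⁻¹).trace.re| with hT
  set a := c / (2 * (n + 1)) with ha
  have ha0 : 0 < a := by positivity
  have han : a * n ≤ c / 2 := by
    rw [ha, div_mul_eq_mul_div, div_le_iff₀ (by positivity)]
    nlinarith
  -- the upper bound
  obtain ⟨A, B, hA, hAB⟩ := dens_upper hol hKc hcov hφ hpsh hinv hW
  obtain ⟨C, hC⟩ := hreg (a / (A + 2 * n)) (by positivity)
  have hG : ∀ x, W x - a * φ x ≤ B + (A + 2 * n) * C := by
    intro x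
    obtain ⟨y, hy, h1⟩ := hAB x (Real.exp (-(a / (A + 2 * n) * φ x + C))) (Real.exp_pos _)
    have h2 := hC x y hy.le
    rw [Real.log_exp] at h1
    have h3 : A * (φ y - φ x) ≤ A * (a / (A + 2 * n) * φ x + C) := by
      refine mul_le_mul_of_nonneg_left ?_ hA.le
      linarith
    have h4 : (A + 2 * n) * (a / (A + 2 * n) * φ x) = a * φ x := by
      field_simp
    linarith
  set G : (Fin n → ℂ) → ℝ := fun x => W x - a * φ x with hGdef
  have hGc : ContDiff ℝ 2 G := hW.1.sub (contDiff_const.mul hφ)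
  have hGl : ∀ x v, levi G x v = levi W x v - a * levi φ x v := by
    intro x v
    rw [hGdef, levi_sub hW.1 (contDiff_const.mul hφ), levi_const_mul hφ]
  have hGinv : ∀ (γ : Γ) (x v : Fin n → ℂ), levi G (γ • x) (fderiv ℂ (fun y : Fin n → ℂ => γ • y) x v) = levi G x v := by
    intro γ x v
    rw [hGl, hGl, hinv, dens_levi hol hW]
  have hbdd : BddAbove (Set.range G) := ⟨_, by
    rintro _ ⟨x, rfl⟩
    exact hG x⟩
  set s := ⨆ x, G x with hs
  have hGs : ∀ x, G x ≤ s := fun x => le_ciSup hbdd x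
  set δ := c / (8 * (T + 1)) with hδ
  have hT0 : 0 ≤ T := abs_nonneg _
  have hδ0 : 0 < δ := by positivity
  obtain ⟨x, hx⟩ := exists_lt_of_lt_ciSup (show s - δ < ⨆ x, G x by rw [← hs]; linarith)
  obtain ⟨γ, hγ⟩ := hcov x
  set y0 := γ • x with hy0
  set G' : (Fin n → ℂ) → ℝ := fun y => G (γ⁻¹ • y) with hG'
  have hG'c : ContDiff ℝ 2 G' := hGc.comp (smooth2 (hol γ⁻¹))
  have hG'0 : G' y0 = G x := by
    rw [hG', hy0]
    simp only
    rw [inv_smul_smul]
  set q : (Fin n → ℂ) → ℝ := fun y => G' y + (-(2 * δ)) * ∑ j, ‖y j - y0 j‖ ^ 2 with hq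
  have hqc : Continuous q := by
    have := hG'c.continuous
    rw [hq]
    fun_prop
  obtain ⟨y, hy, hmax⟩ := (isCompact_closedBall y0 1).exists_isMaxOn ⟨y0, Metric.mem_closedBall_self zero_le_one⟩
    hqc.continuousOn
  have hq0 : q y0 = G x := by
    rw [hq]
    simp [hG'0]
  have hqy : s - δ < q y := lt_of_lt_of_le (by rw [hq0]; exact hx) (hmax (Metric.mem_closedBall_self zero_le_one))
  have hyb : y ∈ Metric.ball y0 1 := by
    rw [Metric.mem_ball, dist_pi_lt_iff one_pos]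
    intro j
    rw [dist_eq_norm]
    by_contra h
    rw [not_lt] at h
    have h1 : 1 ≤ ∑ j, ‖y j - y0 j‖ ^ 2 := by
      refine le_trans ?_ (Finset.single_le_sum (f := fun j => ‖y j - y0 j‖ ^ 2) (fun i _ => by positivity) (Finset.mem_univ j))
      exact one_le_pow₀ h
    have h2 := hGs (γ⁻¹ • y)
    have h3 : q y = G (γ⁻¹ • y) + (-(2 * δ)) * ∑ j, ‖y j - y0 j‖ ^ 2 := rfl
    nlinarith
  have hloc : IsLocalMax (fun z => G' z + (-(2 * δ)) * ∑ j, ‖z j - y0 j‖ ^ 2) y := by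
    filter_upwards [Metric.isOpen_ball.mem_nhds hyb] with z hz
    exact hmax (Metric.ball_subset_closedBall hz)
  have hlev : ∀ v, levi G' y v ≤ 8 * δ * ∑ j, ‖v j‖ ^ 2 := by
    intro v
    have h1 : ∀ w : Fin n → ℂ, Two (fun s : ℝ => (-(2 * δ)) * ∑ j, ‖(y + (s : ℂ) • w) j - y0 j‖ ^ 2)
        ((-(2 * δ)) * ∑ j, 2 * ((y j - y0 j) * conj (w j)).re) ((-(2 * δ)) * ∑ j, 2 * ‖w j‖ ^ 2) := by
      intro w
      refine Two.const_mul _ (two_sum Finset.univ fun j _ => ?_)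
      set b := ((y j - y0 j) * conj (w j)).re with hb
      have h2 : (fun s : ℝ => ‖(y + (s : ℂ) • w) j - y0 j‖ ^ 2) =
          fun s : ℝ => ‖y j - y0 j‖ ^ 2 + 2 * s * b + s ^ 2 * ‖w j‖ ^ 2 := by
        funext s
        rw [hb, Pi.add_apply, Pi.smul_apply, smul_eq_mul]
        simp only [← Complex.normSq_eq_norm_sq, Complex.normSq_apply, Complex.add_re, Complex.add_im, Complex.mul_re,
          Complex.mul_im, Complex.ofReal_re, Complex.ofReal_im, Complex.conj_re, Complex.conj_im, Complex.sub_re,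
          Complex.sub_im]
        ring
      rw [h2]
      refine ⟨fun s => 2 * b + 2 * s * ‖w j‖ ^ 2, Eventually.of_forall fun s => ?_, by simp, ?_⟩
      · have h3 : HasDerivAt (fun s : ℝ => 2 * s * b) (2 * b) s := by
          have := ((hasDerivAt_id s).const_mul 2).mul_const b
          simpa using this
        have h4 : HasDerivAt (fun s : ℝ => s ^ 2 * ‖w j‖ ^ 2) (2 * s * ‖w j‖ ^ 2) s := by
          have := (hasDerivAt_pow 2 s).mul_const (‖w j‖ ^ 2)
          simpa using this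
        exact (h3.const_add (‖y j - y0 j‖ ^ 2)).add h4
      · have h3 : HasDerivAt (fun s : ℝ => 2 * s * ‖w j‖ ^ 2) (2 * ‖w j‖ ^ 2) 0 := by
          have := ((hasDerivAt_id (0 : ℝ)).const_mul 2).mul_const (‖w j‖ ^ 2)
          simpa using this
        exact h3.const_add (2 * b)
    have h5 := levi_max hG'c hloc (v := v) (h1 v) (h1 (Complex.I • v))
    have h6 : ∀ j, ‖(Complex.I • v) j‖ = ‖v j‖ := by
      intro j
      rw [Pi.smul_apply, smul_eq_mul, norm_mul, Complex.norm_I, one_mul]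
    simp only [h6, ← Finset.mul_sum] at h5
    linarith
  have hlev2 : ∀ v, levi G y v ≤ 8 * δ * ∑ j, ‖v j‖ ^ 2 := by
    intro v
    have h1 : levi G' y v = levi G y v := by
      rw [hG', levi_comp hGc (hol γ⁻¹), hGinv]
    rw [← h1]
    exact hlev v
  -- the trace
  have hN : (((2 * δ : ℝ) : ℂ) • (1 : Matrix (Fin n) (Fin n) ℂ) - (hes W y - ((a : ℝ) : ℂ) • hes φ y)).PosSemidef := by
    refine Matrix.PosSemidef.of_dotProduct_mulVec_nonneg ?_ fun v => ?_
    · have e1 : ∀ (r : ℝ) (M : Matrix (Fin n) (Fin n) ℂ), M.IsHermitian → ((r : ℂ) • M).IsHermitian := by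
        intro r M hM
        unfold Matrix.IsHermitian
        rw [Matrix.conjTranspose_smul, hM.eq, RCLike.star_def, Complex.conj_ofReal]
      exact (e1 _ _ Matrix.isHermitian_one).sub ((hes_herm hW.1 y).sub (e1 _ _ (hes_herm hφ y)))
    · rw [Matrix.sub_mulVec, Matrix.sub_mulVec, Matrix.smul_mulVec, Matrix.smul_mulVec, Matrix.one_mulVec, dotProduct_sub,
        dotProduct_sub, dotProduct_smul, dotProduct_smul, hes_quad hW.1, hes_quad hφ]
      have e2 : star v ⬝ᵥ v = ((∑ j, ‖v j‖ ^ 2 : ℝ) : ℂ) := by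
        rw [dotProduct]
        push_cast
        refine Finset.sum_congr rfl fun j _ => ?_
        rw [Pi.star_apply, RCLike.star_def, ← Complex.normSq_eq_conj_mul_self, Complex.normSq_eq_norm_sq]
        push_cast
        rfl
      rw [e2, smul_eq_mul, smul_eq_mul]
      have h1 := hlev2 v
      rw [hGl] at h1
      have h2 : (0 : ℝ) ≤ 2 * δ * ∑ j, ‖v j‖ ^ 2 - (levi W y v / 4 - a * (levi φ y v / 4)) := by linarith
      exact_mod_cast h2
  have htr := trace_nonneg' (hPD y).inv.posSemidef hN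
  have hun : IsUnit (hes φ y).det := by
    rw [isUnit_iff_ne_zero]
    intro h
    have := hD y
    rw [h, Complex.zero_re] at this
    exact lt_irrefl _ this
  rw [Matrix.mul_sub, Matrix.mul_sub, Matrix.mul_smul, Matrix.mul_smul, Matrix.mul_one, Matrix.nonsing_inv_mul _ hun,
    Matrix.trace_sub, Matrix.trace_sub, Matrix.trace_smul, Matrix.trace_smul, Matrix.trace_one, Complex.sub_re,
    Complex.sub_re, smul_eq_mul, smul_eq_mul, Complex.re_ofReal_mul, Complex.re_ofReal_mul, Fintype.card_fin,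
    Complex.natCast_re] at htr
  have hyK : y ∈ Metric.cthickening 1 K := hsub y0 hγ hy
  have h1 : c ≤ ((hes φ y)⁻¹ * hes W y).trace.re := hx1 hyK
  have h2 : ((hes φ y)⁻¹).trace.re ≤ T := (hx2 hyK).trans (le_abs_self _)
  have h3 : 2 * δ * ((hes φ y)⁻¹).trace.re ≤ 2 * δ * T := mul_le_mul_of_nonneg_left h2 (by positivity)
  have h4 : 2 * δ * T < c / 2 := by
    have h5 : δ * (8 * (T + 1)) = c := by
      rw [hδ]
      field_simp
    nlinarith
  linarith

end Pool.Agent.IK
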