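import Pool.Agent.Lib.IK.ThI

/-!
# Jacobians of subexponential growth (author helper69)
-/

set_option autoImplicit false

noncomputable section

open Filter Topology Laplacian
open scoped ComplexConjugate ComplexOrder

namespace Pool.Agent.IK

variable {n : ℕ}

/-- the second derivative test for a quadratic perturbation: a point `y` of the closed polydisc with a larger value -/
theorem step_max {G : (Fin n → ℂ) → ℝ} (hG : ContDiff ℝ 2 G) {δ : ℝ}
    (y0 : Fin n → ℂ) (hno : ∀ y ∈ Metric.closedBall y0 1, ¬ ∀ v, levi G y v ≤ 4 * δ * ∑ j, ‖v j‖ ^ 2) (hδ : 0 ≤ δ) :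
    ∃ y ∈ Metric.closedBall y0 1, G y0 + δ ≤ G y := by
  set q : (Fin n → ℂ) → ℝ := fun y => G y + (-δ) * ∑ j, ‖y j - y0 j‖ ^ 2 with hq
  have hqc : Continuous q := by
    have := hG.continuous
    rw [hq]
    fun_prop
  obtain ⟨y, hy, hmax⟩ := (isCompact_closedBall y0 1).exists_isMaxOn ⟨y0, Metric.mem_closedBall_self zero_le_one⟩
    hqc.continuousOn
  have hq0 : q y0 = G y0 := by
    rw [hq]
    simp
  have hqy : G y0 ≤ q y := by
    rw [← hq0]
    exact hmax (Metric.mem_closedBall_self zero_le_one)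
  by_cases hyb : y ∈ Metric.ball y0 1
  · exfalso
    have hloc : IsLocalMax (fun z => G z + (-δ) * ∑ j, ‖z j - y0 j‖ ^ 2) y := by
      filter_upwards [Metric.isOpen_ball.mem_nhds hyb] with z hz
      exact hmax (Metric.ball_subset_closedBall hz)
    refine hno y hy fun v => ?_
    have h1 : ∀ w : Fin n → ℂ, Two (fun s : ℝ => (-δ) * ∑ j, ‖(y + (s : ℂ) • w) j - y0 j‖ ^ 2)
        ((-δ) * ∑ j, 2 * ((y j - y0 j) * conj (w j)).re) ((-δ) * ∑ j, 2 * ‖w j‖ ^ 2) := by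
      intro w
      refine Two.const_mul _ (two_sum Finset.univ fun j _ => ?_)
      set b := ((y j - y0 j) * conj (w j)).re with hb
      have h2 : (fun s : ℝ => ‖(y + (s : ℂ) • w) j - y0 j‖ ^ 2) =
          fun s : ℝ => ‖y j - y0 j‖ ^ 2 + 2 * s * b + s ^ 2 * ‖w j‖ ^ 2 := by
        funext s
        rw [hb, Pi.add_apply, Pi.smul_apply, smul_eq_mul]
        simp only [← Complex.normSq_eq_norm_sq, Complex.normSq_apply, Complex.add_re, Complex.add_im, Complex.mul_re,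
          Complex.mul_im, Complex.ofReal_re, Complex.ofReal_im, Complex.conj_re, Complex.conj_im, Complex.sub_re,
          Complex.sub_im]
        ring
      rw [h2]
      refine ⟨fun s => 2 * b + 2 * s * ‖w j‖ ^ 2, Eventually.of_forall fun s => ?_, by simp, ?_⟩
      · have h3 : HasDerivAt (fun s : ℝ => 2 * s * b) (2 * b) s := by
          have := ((hasDerivAt_id s).const_mul 2).mul_const b
          simpa using this
        have h4 : HasDerivAt (fun s : ℝ => s ^ 2 * ‖w j‖ ^ 2) (2 * s * ‖w j‖ ^ 2) s := by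
          have := (hasDerivAt_pow 2 s).mul_const (‖w j‖ ^ 2)
          simpa using this
        exact (h3.const_add (‖y j - y0 j‖ ^ 2)).add h4
      · have h3 : HasDerivAt (fun s : ℝ => 2 * s * ‖w j‖ ^ 2) (2 * ‖w j‖ ^ 2) 0 := by
          have := ((hasDerivAt_id (0 : ℝ)).const_mul 2).mul_const (‖w j‖ ^ 2)
          simpa using this
        exact h3.const_add (2 * b)
    have h5 := levi_max hG hloc (v := v) (h1 v) (h1 (Complex.I • v))
    have h6 : ∀ j, ‖(Complex.I • v) j‖ = ‖v j‖ := by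
      intro j
      rw [Pi.smul_apply, smul_eq_mul, norm_mul, Complex.norm_I, one_mul]
    simp only [h6, ← Finset.mul_sum] at h5
    linarith
  · refine ⟨y, hy, ?_⟩
    rw [Metric.mem_ball, dist_pi_lt_iff one_pos] at hyb
    push Not at hyb
    obtain ⟨j, hj⟩ := hyb
    rw [dist_eq_norm] at hj
    have h1 : 1 ≤ ∑ j, ‖y j - y0 j‖ ^ 2 := by
      refine le_trans ?_ (Finset.single_le_sum (f := fun j => ‖y j - y0 j‖ ^ 2) (fun i _ => by positivity) (Finset.mem_univ j))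
      exact one_le_pow₀ hj
    have h3 : q y = G y + (-δ) * ∑ j, ‖y j - y0 j‖ ^ 2 := rfl
    nlinarith

/-- the trace and the Levi form -/
theorem trace_of_levi {f : (Fin n → ℂ) → ℝ} (hf : ContDiff ℝ 2 f) {y : Fin n → ℂ} {H : Matrix (Fin n) (Fin n) ℂ}
    (hH : H.PosDef) {δ : ℝ} (h : ∀ v, levi f y v ≤ 4 * δ * ∑ j, ‖v j‖ ^ 2) :
    (H⁻¹ * hes f y).trace.re ≤ δ * (H⁻¹).trace.re := by
  have hN : (((δ : ℝ) : ℂ) • (1 : Matrix (Fin n) (Fin n) ℂ) - hes f y).PosSemidef := by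
    refine Matrix.PosSemidef.of_dotProduct_mulVec_nonneg ?_ fun v => ?_
    · have e1 : ∀ (r : ℝ) (M : Matrix (Fin n) (Fin n) ℂ), M.IsHermitian → ((r : ℂ) • M).IsHermitian := by
        intro r M hM
        unfold Matrix.IsHermitian
        rw [Matrix.conjTranspose_smul, hM.eq, RCLike.star_def, Complex.conj_ofReal]
      exact (e1 _ _ Matrix.isHermitian_one).sub (hes_herm hf y)
    · rw [Matrix.sub_mulVec, Matrix.smul_mulVec, Matrix.one_mulVec, dotProduct_sub, dotProduct_smul, hes_quad hf]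
      have e2 : star v ⬝ᵥ v = ((∑ j, ‖v j‖ ^ 2 : ℝ) : ℂ) := by
        rw [dotProduct]
        push_cast
        refine Finset.sum_congr rfl fun j _ => ?_
        rw [Pi.star_apply, RCLike.star_def, ← Complex.normSq_eq_conj_mul_self, Complex.normSq_eq_norm_sq]
        push_cast
        rfl
      rw [e2, smul_eq_mul]
      have h1 := h v
      have h2 : (0 : ℝ) ≤ δ * ∑ j, ‖v j‖ ^ 2 - levi f y v / 4 := by linarith
      exact_mod_cast h2
  have htr := trace_nonneg' hH.inv.posSemidef hN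
  rw [Matrix.mul_sub, Matrix.mul_smul, Matrix.mul_one, Matrix.trace_sub, Matrix.trace_smul, Complex.sub_re, smul_eq_mul,
    Complex.re_ofReal_mul] at htr
  linarith

variable {Γ : Type*} [Group Γ] [MulAction Γ (Fin n → ℂ)]

/-- chains of translates along which `V` grows linearly -/
theorem chain (hol : ∀ γ : Γ, Differentiable ℂ fun x : Fin n → ℂ => γ • x) {K : Set (Fin n → ℂ)} (hKc : IsCompact K)
    (hcov : ∀ x : Fin n → ℂ, ∃ γ : Γ, γ • x ∈ K)
    (hprop : ∀ L : Set (Fin n → ℂ), IsCompact L → {γ : Γ | ∃ x ∈ L, γ • x ∈ L}.Finite)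
    (ℓ : Γ → ℝ) (hℓ : ∀ γ δ : Γ, ℓ (γ * δ) ≤ ℓ γ + ℓ δ) {V : (Fin n → ℂ) → ℝ} (hV : ContDiff ℝ 2 V)
    (hVinv : ∀ (γ : Γ) (x v : Fin n → ℂ), levi V (γ • x) (fderiv ℂ (fun y : Fin n → ℂ => γ • y) x v) = levi V x v)
    {h : (Fin n → ℂ) → Matrix (Fin n) (Fin n) ℂ} (hc : Continuous h) (hh : ∀ x, (h x).PosDef)
    (hpos : ∀ x, 0 < ((h x)⁻¹ * hes V x).trace.re) :
    ∃ δ : ℝ, 0 < δ ∧ ∃ L C : ℝ, 0 ≤ L ∧ ∀ k : ℕ, ∃ γ : Γ, ∃ z ∈ K, -C + k * δ ≤ V (γ • z) ∧ ℓ γ ≤ C + k * L := by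
  have hdet : ∀ x, (h x).det ≠ 0 := fun x => (hh x).det_pos.ne'
  have hIc : Continuous fun x => (h x)⁻¹ := by
    have h1 : (fun x => (h x)⁻¹) = fun x => ((h x).det)⁻¹ • (h x).adjugate := by
      funext x
      rw [Matrix.inv_def, Ring.inverse_eq_inv']
    rw [h1]
    exact (hc.matrix_det.inv₀ hdet).smul hc.matrix_adjugate
  have ht1 : Continuous fun x => ((h x)⁻¹ * hes V x).trace.re :=
    Complex.continuous_re.comp ((hIc.matrix_mul (hes_cont hV)).matrix_trace)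
  have ht2 : Continuous fun x => ((h x)⁻¹).trace.re := Complex.continuous_re.comp hIc.matrix_trace
  have hK' : IsCompact (Metric.cthickening 1 K) := hKc.cthickening
  obtain ⟨γ0, hγ0⟩ := hcov 0
  have hsub : ∀ y0 ∈ K, Metric.closedBall y0 1 ⊆ Metric.cthickening 1 K :=
    fun y0 hy0 => Metric.closedBall_subset_cthickening hy0 1
  have hsub2 : K ⊆ Metric.cthickening 1 K := fun y hy => hsub y hy (Metric.mem_closedBall_self zero_le_one)
  have hne : (Metric.cthickening 1 K).Nonempty := ⟨_, hsub2 hγ0⟩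
  obtain ⟨x1, -, hx1⟩ := hK'.exists_isMinOn hne ht1.continuousOn
  obtain ⟨x2, -, hx2⟩ := hK'.exists_isMaxOn hne ht2.continuousOn
  set c := ((h x1)⁻¹ * hes V x1).trace.re with hcdef
  have hc0 : 0 < c := hpos x1
  set T := |((h x2)⁻¹).trace.re| with hT
  have hT0 : 0 ≤ T := abs_nonneg _
  set δ := c / (2 * (T + 1)) with hδ
  have hδ0 : 0 < δ := by positivity
  have hno : ∀ y ∈ Metric.cthickening 1 K, ¬ ∀ v, levi V y v ≤ 4 * δ * ∑ j, ‖v j‖ ^ 2 := by
    intro y hy hcon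
    have h1 := trace_of_levi hV (hh y) hcon
    have h2 : c ≤ ((h y)⁻¹ * hes V y).trace.re := hx1 hy
    have h3 : ((h y)⁻¹).trace.re ≤ T := (hx2 hy).trans (le_abs_self _)
    have h4 : δ * ((h y)⁻¹).trace.re ≤ δ * T := mul_le_mul_of_nonneg_left h3 hδ0.le
    have h5 : δ * (2 * (T + 1)) = c := by
      rw [hδ]
      field_simp
    nlinarith
  obtain ⟨L, hL⟩ := ((hprop _ hK').image fun σ => |ℓ σ⁻¹|).bddAbove
  have hL2 : ∀ σ : Γ, (∃ x ∈ Metric.cthickening 1 K, σ • x ∈ Metric.cthickening 1 K) → ℓ σ⁻¹ ≤ |L| := fun σ hσ =>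
    (le_abs_self _).trans ((hL ⟨σ, hσ, rfl⟩).trans (le_abs_self _))
  refine ⟨δ, hδ0, |L|, |V 0| + |ℓ γ0⁻¹|, abs_nonneg _, fun k => ?_⟩
  induction k with
  | zero =>
    refine ⟨γ0⁻¹, γ0 • 0, hγ0, ?_, ?_⟩
    · rw [inv_smul_smul]
      have h1 := neg_abs_le (V 0)
      have h2 := abs_nonneg (ℓ γ0⁻¹)
      push_cast
      linarith
    · have h1 := le_abs_self (ℓ γ0⁻¹)
      have h2 := abs_nonneg (V 0)
      push_cast
      linarith
  | succ k ih =>
    obtain ⟨γ, z, hz, h1, h2⟩ := ih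
    have hG : ContDiff ℝ 2 fun y => V (γ • y) := hV.comp (smooth2 (hol γ))
    obtain ⟨y, hy, h3⟩ := step_max hG (δ := δ) z (fun y hy hcon => hno y (hsub z hz hy) fun v => by
      have h4 := hcon v
      rwa [levi_comp hV (hol γ), hVinv] at h4) hδ0.le
    obtain ⟨σ, hσ⟩ := hcov y
    refine ⟨γ * σ⁻¹, σ • y, hσ, ?_, ?_⟩
    · rw [mul_smul, inv_smul_smul]
      push_cast
      linarith
    · have h5 := hℓ γ σ⁻¹
      have h6 := hL2 σ ⟨y, hsub z hz hy, hsub2 hσ⟩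
      push_cast
      linarith

/-- **Theorem J**, lower bound of the Jacobians. -/
theorem partJ (hol : ∀ γ : Γ, Differentiable ℂ fun x : Fin n → ℂ => γ • x) {K : Set (Fin n → ℂ)} (hKc : IsCompact K)
    (hcov : ∀ x : Fin n → ℂ, ∃ γ : Γ, γ • x ∈ K)
    (hprop : ∀ L : Set (Fin n → ℂ), IsCompact L → {γ : Γ | ∃ x ∈ L, γ • x ∈ L}.Finite)
    (ℓ : Γ → ℝ) (hℓ : ∀ γ δ : Γ, ℓ (γ * δ) ≤ ℓ γ + ℓ δ) {W : (Fin n → ℂ) → ℝ} (hW : InvDens Γ W)
    {h : (Fin n → ℂ) → Matrix (Fin n) (Fin n) ℂ} (hc : Continuous h) (hh : ∀ x, (h x).PosDef) :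
    ((∀ ε : ℝ, 0 < ε → ∃ C : ℝ, ∀ (γ : Γ), ∀ z ∈ K,
        Real.exp (-(ε * ℓ γ + C)) ≤ ‖(fderiv ℂ (fun y : Fin n → ℂ => γ • y) z).det‖) →
      ∃ x, ((h x)⁻¹ * hes W x).trace.re ≤ 0) ∧
    ((∀ ε : ℝ, 0 < ε → ∃ C : ℝ, ∀ (γ : Γ), ∀ z ∈ K,
        ‖(fderiv ℂ (fun y : Fin n → ℂ => γ • y) z).det‖ ≤ Real.exp (ε * ℓ γ + C)) →
      ∃ x, 0 ≤ ((h x)⁻¹ * hes W x).trace.re) := by
  obtain ⟨B, hB⟩ := hKc.exists_bound_of_continuousOn hW.1.continuous.continuousOn
  have key : ∀ (V : (Fin n → ℂ) → ℝ) (δ L C : ℝ), 0 < δ → 0 ≤ L →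
      (∀ k : ℕ, ∃ γ : Γ, ∃ z ∈ K, -C + k * δ ≤ V (γ • z) ∧ ℓ γ ≤ C + k * L) →
      (∀ ε : ℝ, 0 < ε → ∃ D : ℝ, ∀ (γ : Γ), ∀ z ∈ K, V (γ • z) ≤ ε * ℓ γ + D) → False := by
    intro V δ L C hδ hL hch hup
    obtain ⟨D, hD⟩ := hup (δ / (2 * (L + 1))) (by positivity)
    obtain ⟨k, hk⟩ := exists_nat_gt ((C + δ / (2 * (L + 1)) * C + D) / (δ / 2))
    obtain ⟨γ, z, hz, h1, h2⟩ := hch k
    have h3 := hD γ z hz
    have h4 : δ / (2 * (L + 1)) * ℓ γ ≤ δ / (2 * (L + 1)) * (C + k * L) := mul_le_mul_of_nonneg_left h2 (by positivity)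
    have h5 : δ / (2 * (L + 1)) * (k * L) ≤ k * (δ / 2) := by
      rw [div_mul_eq_mul_div, div_le_iff₀ (by positivity)]
      have : (0 : ℝ) ≤ k := Nat.cast_nonneg k
      nlinarith [mul_nonneg this hδ.le]
    rw [div_lt_iff₀ (by positivity)] at hk
    nlinarith
  constructor
  · intro hJ
    by_contra hcon
    push Not at hcon
    obtain ⟨δ, hδ, L, C, hL, hch⟩ := chain hol hKc hcov hprop ℓ hℓ hW.1 (dens_levi hol hW) hc hh hcon
    refine key W δ L C hδ hL hch fun ε hε => ?_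
    obtain ⟨D, hD⟩ := hJ (ε / 2) (by positivity)
    refine ⟨B + 2 * D, fun γ z hz => ?_⟩
    obtain ⟨h1, h2⟩ := dens_log hW γ z
    have h3 := Real.log_le_log (Real.exp_pos _) (hD γ z hz)
    rw [Real.log_exp] at h3
    rw [Real.log_pow] at h2
    push_cast at h2
    have h4 := (abs_le.1 ((Real.norm_eq_abs _).symm.le.trans (hB z hz))).2
    linarith
  · intro hJ
    by_contra hcon
    push Not at hcon
    have hVc : ContDiff ℝ 2 fun y => (-1) * W y := contDiff_const.mul hW.1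
    have hlev : ∀ x v, levi (fun y => (-1) * W y) x v = (-1) * levi W x v := levi_const_mul hW.1 (-1)
    have hhes : ∀ x, hes (fun y => (-1) * W y) x = -hes W x := by
      intro x
      refine eq_of_quad fun v => ?_
      rw [Matrix.neg_mulVec, dotProduct_neg, hes_quad hVc, hes_quad hW.1, hlev]
      push_cast
      ring
    obtain ⟨δ, hδ, L, C, hL, hch⟩ := chain hol hKc hcov hprop ℓ hℓ hVc (fun γ x v => by
      rw [hlev, hlev, dens_levi hol hW]) hc hh fun x => by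
      rw [hhes, Matrix.mul_neg, Matrix.trace_neg, Complex.neg_re]
      linarith [hcon x]
    refine key (fun y => (-1) * W y) δ L C hδ hL hch fun ε hε => ?_
    obtain ⟨D, hD⟩ := hJ (ε / 2) (by positivity)
    refine ⟨B + 2 * D, fun γ z hz => ?_⟩
    obtain ⟨h1, h2⟩ := dens_log hW γ z
    have h3 := Real.log_le_log (norm_pos_iff.2 h1) (hD γ z hz)
    rw [Real.log_exp] at h3
    rw [Real.log_pow] at h2
    push_cast at h2
    have h4 := (abs_le.1 ((Real.norm_eq_abs _).symm.le.trans (hB z hz))).1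
    linarith

end Pool.Agent.IK
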