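import Pool.Agent.Lib.IK.Den2

/-!
# Growth of the potential and invariant densities (theorem of helper81) (author helper69)
-/

set_option autoImplicit false

noncomputable section

open Filter Topology Laplacian
open scoped ComplexConjugate ComplexOrder

namespace Pool.Agent.IK

variable {n : ℕ}
variable {Γ : Type*} [Group Γ] [MulAction Γ (Fin n → ℂ)]

/-- **Theorem N.** -/
theorem partN {K : Set (Fin n → ℂ)} (hKc : IsCompact K)
    (hcov : ∀ x : Fin n → ℂ, ∃ γ : Γ, γ • x ∈ K) {φ : (Fin n → ℂ) → ℝ} (hφ : ContDiff ℝ 2 φ)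
    (hpsh : ∀ x v : Fin n → ℂ, v ≠ 0 → 0 < levi φ x v)
    (hinv : ∀ (γ : Γ) (x v : Fin n → ℂ), levi φ (γ • x) (fderiv ℂ (fun y : Fin n → ℂ => γ • y) x v) = levi φ x v) :
    ∃ C : ℝ, ∀ (W : (Fin n → ℂ) → ℝ) (ε R c m : ℝ), InvDens Γ W → 0 ≤ ε → ε ≤ 1 → 0 < R → 0 < c →
      (∀ x v, 0 ≤ levi (fun y => W y + ε * φ y) x v) →
      (∀ x, c * (hes φ x).det.re ≤ (hes (fun y => W y + ε * φ y) x).det.re) →
      (∀ x, ‖x‖ ≤ R + C → φ x ≤ m) → c * R ^ (2 * n) ≤ Real.exp (C + ε * m) := by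
  have hD : ∀ y, 0 < (hes φ y).det.re := fun y => (hes_pos hφ fun v hv => hpsh y v hv).2
  obtain ⟨r, hr⟩ := hKc.isBounded.exists_norm_le
  obtain ⟨B1, hB1⟩ := hKc.exists_bound_of_continuousOn hφ.continuous.continuousOn
  obtain ⟨B2, hB2⟩ := hKc.exists_bound_of_continuousOn ((det_cont hφ).log fun y => (hD y).ne').continuousOn
  refine ⟨max r (B1 + B2 + n * Real.log 2), fun W ε R c m hW hε hε1 hR hc hpsd hdet hm => ?_⟩
  set C := max r (B1 + B2 + n * Real.log 2) with hC
  set U : (Fin n → ℂ) → ℝ := fun y => W y + ε * φ y with hU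
  have hUc : ContDiff ℝ 2 U := hW.1.add (contDiff_const.mul hφ)
  have hdU : ∀ y, 0 < (hes U y).det.re := fun y => lt_of_lt_of_le (mul_pos hc (hD y)) (hdet y)
  have hpos : ∀ y v, v ≠ 0 → 0 < levi U y v := by
    intro y v hv
    have h1 : (hes U y).PosSemidef := by
      refine Matrix.PosSemidef.of_dotProduct_mulVec_nonneg (hes_herm hUc y) fun v => ?_
      rw [hes_quad hUc]
      have := hpsd y v
      exact_mod_cast (by positivity : (0 : ℝ) ≤ levi U y v / 4)
    have h2 : (hes U y).PosDef := by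
      rw [h1.posDef_iff_det_ne_zero]
      intro h
      have h3 := hdU y
      rw [h, Complex.zero_re] at h3
      exact lt_irrefl _ h3
    have h3 := h2.dotProduct_mulVec_pos hv
    rw [hes_quad hUc] at h3
    have h4 : (0 : ℝ) < levi U y v / 4 := by exact_mod_cast h3
    linarith
  obtain ⟨z, hz, hmax⟩ := dens_ratio hKc hcov hφ hpsh hinv hW
  obtain ⟨y, hy, h1⟩ := schwarz hUc hUc hpos (fun _ _ => le_rfl) z hR
  have h2 : Real.log c + Real.log (hes φ y).det.re ≤ Real.log (hes U y).det.re := by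
    rw [← Real.log_mul hc.ne' (hD y).ne']
    exact Real.log_le_log (mul_pos hc (hD y)) (hdet y)
  have h3 := hmax y
  have h4 : φ y ≤ m := by
    refine hm y ?_
    have h5 : ‖y‖ ≤ ‖y - z‖ + ‖z‖ := by
      calc ‖y‖ = ‖(y - z) + z‖ := by rw [sub_add_cancel]
        _ ≤ _ := norm_add_le _ _
    have h6 := hr z hz
    have h7 : r ≤ C := le_max_left _ _
    linarith
  have h8 : ε * φ y ≤ ε * m := mul_le_mul_of_nonneg_left h4 hε
  have h9 := hB1 z hz
  have h10 := hB2 z hz
  rw [Real.norm_eq_abs] at h9 h10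
  have h11 : -(ε * φ z) ≤ B1 := by
    have e1 : |ε * φ z| ≤ B1 := by
      rw [abs_mul, abs_of_nonneg hε]
      have := abs_nonneg (φ z)
      nlinarith
    linarith [(abs_le.1 e1).1]
  have h12 := (abs_le.1 h10).1
  have h13 : B1 + B2 + n * Real.log 2 ≤ C := le_max_right _ _
  have h14 : Real.log (c * R ^ (2 * n)) ≤ C + ε * m := by
    rw [Real.log_mul hc.ne' (by positivity), Real.log_pow]
    push_cast
    have e1 : U z = W z + ε * φ z := rfl
    have e2 : U y = W y + ε * φ y := rfl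
    rw [e1, e2] at h1
    linarith
  have h15 := Real.exp_le_exp.2 h14
  rwa [Real.exp_log (by positivity)] at h15

open scoped MatrixOrder in
theorem trace_nonneg' {P N : Matrix (Fin n) (Fin n) ℂ} (hP : P.PosSemidef) (hN : N.PosSemidef) : 0 ≤ (P * N).trace.re := by
  obtain ⟨B, rfl⟩ := CStarAlgebra.nonneg_iff_eq_star_mul_self.mp hP.nonneg
  rw [Matrix.star_eq_conjTranspose]
  have h1 : (B.conjTranspose * B * N).trace = (B * N * B.conjTranspose).trace := by
    rw [Matrix.mul_assoc, Matrix.trace_mul_comm]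
  rw [h1]
  have h2 := (hN.mul_mul_conjTranspose_same B).trace_nonneg
  rw [Complex.nonneg_iff] at h2
  exact h2.1

end Pool.Agent.IK
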