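import Mathlib

/-!
# Second derivatives along paths (author helper69)

`Two h a c`: the function `h : ℝ → ℝ` is differentiable near `0`, `h'(0) = a`, `h''(0) = c`.
-/

set_option autoImplicit false

noncomputable section

open Filter Topology

namespace Pool.Agent.IK

/-- `h` is differentiable near `0` and `h'(0) = a`, `h''(0) = c` -/
def Two (h : ℝ → ℝ) (a c : ℝ) : Prop :=
  ∃ h' : ℝ → ℝ, (∀ᶠ s in 𝓝 (0 : ℝ), HasDerivAt h (h' s) s) ∧ h' 0 = a ∧ HasDerivAt h' c 0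

theorem Two.add {h k : ℝ → ℝ} {a b c d : ℝ} (h1 : Two h a c) (h2 : Two k b d) :
    Two (fun s => h s + k s) (a + b) (c + d) := by
  obtain ⟨h', e1, e2, e3⟩ := h1
  obtain ⟨k', f1, f2, f3⟩ := h2
  refine ⟨fun s => h' s + k' s, ?_, by rw [← e2, ← f2], e3.add f3⟩
  filter_upwards [e1, f1] with s hs ks using hs.add ks

theorem Two.const_mul {h : ℝ → ℝ} {a c : ℝ} (r : ℝ) (h1 : Two h a c) :
    Two (fun s => r * h s) (r * a) (r * c) := by
  obtain ⟨h', e1, e2, e3⟩ := h1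
  refine ⟨fun s => r * h' s, ?_, by rw [← e2], e3.const_mul r⟩
  filter_upwards [e1] with s hs using hs.const_mul r

theorem Two.exp {h : ℝ → ℝ} {a c : ℝ} (h1 : Two h a c) :
    Two (fun s => Real.exp (h s)) (Real.exp (h 0) * a) (Real.exp (h 0) * (a ^ 2 + c)) := by
  obtain ⟨h', e1, e2, e3⟩ := h1
  refine ⟨fun s => Real.exp (h s) * h' s, ?_, by rw [← e2], ?_⟩
  · filter_upwards [e1] with s hs using hs.exp
  · have e4 : HasDerivAt h (h' 0) 0 := e1.self_of_nhds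
    have e5 := e4.exp.mul e3
    refine e5.congr_deriv ?_
    rw [e2]
    ring

theorem Two.congr {h k : ℝ → ℝ} {a c : ℝ} (h1 : Two h a c) (hk : k =ᶠ[𝓝 (0 : ℝ)] h) : Two k a c := by
  obtain ⟨h', e1, e2, e3⟩ := h1
  refine ⟨h', ?_, e2, e3⟩
  filter_upwards [e1, hk.eventuallyEq_nhds] with s hs ks
  exact hs.congr_of_eventuallyEq ks

/-- the second derivative at a local minimum is not negative -/
theorem Two.min {h : ℝ → ℝ} {a c : ℝ} (h1 : Two h a c) (hm : IsLocalMin h 0) : 0 ≤ c := by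
  obtain ⟨h', e1, e2, e3⟩ := h1
  by_contra hc
  rw [not_le] at hc
  have e4 : HasDerivAt h (h' 0) 0 := e1.self_of_nhds
  have e5 : deriv h =ᶠ[𝓝 (0 : ℝ)] h' := by
    filter_upwards [e1] with s hs using hs.deriv
  have e6 : deriv (deriv h) 0 = c := by
    rw [e5.deriv_eq]
    exact e3.deriv
  have e7 : deriv h 0 = 0 := hm.deriv_eq_zero
  have e8 : IsLocalMax h 0 := isLocalMax_of_deriv_deriv_neg (by rw [e6]; exact hc) e7
    e4.continuousAt
  have e9 : h =ᶠ[𝓝 (0 : ℝ)] fun _ => h 0 := by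
    filter_upwards [hm, e8] with s hs ks using le_antisymm ks hs
  have e10 : deriv (deriv h) 0 = 0 := by
    rw [e9.deriv.deriv_eq]
    simp
  rw [e6] at e10
  exact absurd e10 hc.ne

/-- composition with a path -/
theorem Two.path {E : Type*} [NormedAddCommGroup E] [NormedSpace ℝ E] {φ : E → ℝ} {p v : ℝ → E} {w : E}
    (hφ : ContDiffAt ℝ 2 φ (p 0)) (hp : ∀ᶠ s in 𝓝 (0 : ℝ), HasDerivAt p (v s) s) (hv : HasDerivAt v w 0) :
    Two (fun s => φ (p s)) (fderiv ℝ φ (p 0) (v 0))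
      (fderiv ℝ (fderiv ℝ φ) (p 0) (v 0) (v 0) + fderiv ℝ φ (p 0) w) := by
  have hp0 : HasDerivAt p (v 0) 0 := hp.self_of_nhds
  refine ⟨fun s => fderiv ℝ φ (p s) (v s), ?_, rfl, ?_⟩
  · have h1 : ∀ᶠ x in 𝓝 (p 0), DifferentiableAt ℝ φ x := by
      filter_upwards [hφ.eventually (by norm_num)] with x hx
      exact hx.differentiableAt (by norm_num)
    have h2 : ∀ᶠ s in 𝓝 (0 : ℝ), DifferentiableAt ℝ φ (p s) := hp0.continuousAt.eventually h1
    filter_upwards [hp, h2] with s hs ks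
    exact ks.hasFDerivAt.comp_hasDerivAt s hs
  · have h3 : DifferentiableAt ℝ (fderiv ℝ φ) (p 0) :=
      (hφ.fderiv_right (m := 1) (by norm_num)).differentiableAt (by norm_num)
    have h4 : HasDerivAt (fun s => fderiv ℝ φ (p s)) (fderiv ℝ (fderiv ℝ φ) (p 0) (v 0)) 0 :=
      h3.hasFDerivAt.comp_hasDerivAt (0 : ℝ) hp0
    exact h4.clm_apply hv

end Pool.Agent.IK
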